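import Pool.Agent.H904Z.RP.John

set_option autoImplicit false

namespace Pool.Agent.H904Z.RP

open MeasureTheory Filter Topology Metric Set Module
open scoped RealInnerProductSpace

variable {E : Type*} [NormedAddCommGroup E] [InnerProductSpace ℝ E]

def IsApex (L : Set E) (u p : E) : Prop := p ∈ L ∧ ∀ y ∈ L, 0 ≤ ⟪u, p - y⟫

lemma exists_apex {L : Set E} (hL : IsCompact L) (hne : L.Nonempty) (u : E) :
    ∃ p, IsApex L u p := by
  obtain ⟨p, hp, hmax⟩ := hL.exists_isMaxOn hne (f := fun y => ⟪u, y⟫) (by fun_prop)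
  refine ⟨p, hp, fun y hy => ?_⟩
  have := hmax hy
  simp only [mem_ofPred_eq] at this
  rw [inner_sub_right]; linarith

lemma body_balls {L : Set E} (hL : IsBody L) :
    ∃ (x0 : E) (r R : ℝ), 0 < r ∧ 0 < R ∧ closedBall x0 r ⊆ L ∧ L ⊆ closedBall x0 R := by
  obtain ⟨x0, hx0⟩ := hL.2.2
  obtain ⟨r, hr, hball⟩ :=
    Metric.nhds_basis_closedBall.mem_iff.1 (mem_interior_iff_mem_nhds.1 hx0)
  obtain ⟨R, hR0, hR⟩ := hL.1.isBounded.subset_closedBall_lt 0 x0
  exact ⟨x0, r, R, hr, hR0, hball, hR⟩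

lemma depth_le {L : Set E} {x0 : E} {R : ℝ} (hR : L ⊆ closedBall x0 R) {u p y : E}
    (hu : ‖u‖ = 1) (hp : p ∈ L) (hy : y ∈ L) : ⟪u, p - y⟫ ≤ 2 * R := by
  refine (real_inner_le_norm _ _).trans ?_
  have h1 := hR hp
  have h2 := hR hy
  rw [mem_closedBall, dist_eq_norm] at h1 h2
  have : p - y = (p - x0) - (y - x0) := by abel
  rw [hu, one_mul, this]
  exact (norm_sub_le _ _).trans (by linarith)

lemma cap_ball {L : Set E} (hv : Convex ℝ L) {x0 : E} {r R : ℝ} (hR0 : 0 < R)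
    (hr : closedBall x0 r ⊆ L) (hR : L ⊆ closedBall x0 R) {u p : E} (hu : ‖u‖ = 1) (hp : p ∈ L)
    {h : ℝ} (h0 : 0 < h) (h1 : h ≤ 2 * R) :
    closedBall (p + (h / (2 * R)) • (x0 - p)) (h / (2 * R) * r) ⊆ cap L u p h := by
  intro y hy
  set s := h / (2 * R) with hs
  have hs0 : 0 < s := by positivity
  have hs1 : s ≤ 1 := by rw [hs, div_le_one (by positivity)]; exact h1
  have hq : x0 + s⁻¹ • (y - (p + s • (x0 - p))) ∈ L := by
    apply hr
    rw [mem_closedBall, dist_eq_norm] at hy ⊢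
    rw [add_sub_cancel_left, norm_smul, norm_inv, Real.norm_eq_abs, abs_of_pos hs0,
      inv_mul_le_iff₀ hs0]
    exact hy
  have e : y = p + s • (x0 + s⁻¹ • (y - (p + s • (x0 - p))) - p) := by
    rw [add_sub_right_comm, smul_add, smul_smul, mul_inv_cancel₀ hs0.ne', one_smul]; abel
  refine ⟨e ▸ hv.add_smul_sub_mem hp hq ⟨hs0.le, hs1⟩, ?_⟩
  have e2 : p - y = s • (p - (x0 + s⁻¹ • (y - (p + s • (x0 - p))))) := by
    conv_lhs => rw [e]
    module
  rw [e2, inner_smul_right]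
  calc _ ≤ s * (2 * R) := by gcongr; exact depth_le hR hu hp hq
    _ = h := by rw [hs]; field_simp

lemma cap_normalize [Nontrivial E] {L : Set E} (hc : IsCompact L) {x0 : E} {R : ℝ} (hR0 : 0 < R)
    (hR : L ⊆ closedBall x0 R) {u p : E} (hp : IsApex L u p) {H : ℝ} (hH : 0 < H) :
    ∃ u' p' h, ‖u'‖ = 1 ∧ IsApex L u' p' ∧ 0 < h ∧ h ≤ 2 * R ∧ cap L u p H = cap L u' p' h := by
  have hfull : ∀ u' p', ‖u'‖ = 1 → p' ∈ L → cap L u' p' (2 * R) = L := by
    intro u' p' h1 h2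
    ext y
    exact ⟨fun hy => hy.1, fun hy => ⟨hy, depth_le hR h1 h2 hy⟩⟩
  rcases eq_or_ne u 0 with rfl | hu
  · obtain ⟨u', hu'⟩ := exists_norm_eq E zero_le_one
    obtain ⟨p', hp'⟩ := exists_apex hc ⟨p, hp.1⟩ u'
    refine ⟨u', p', 2 * R, hu', hp', by positivity, le_rfl, ?_⟩
    rw [hfull u' p' hu' hp'.1]
    ext y
    simp [cap, hH.le]
  · have hn : 0 < ‖u‖ := norm_pos_iff.2 hu
    have hu' : ‖‖u‖⁻¹ • u‖ = 1 := by simp [norm_smul, hn.ne']
    have hap : IsApex L (‖u‖⁻¹ • u) p := ⟨hp.1, fun y hy => by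
      rw [real_inner_smul_left]; exact mul_nonneg (by positivity) (hp.2 y hy)⟩
    have heq : cap L u p H = cap L (‖u‖⁻¹ • u) p (‖u‖⁻¹ * H) := by
      ext y
      simp only [cap, mem_ofPred_eq, real_inner_smul_left]
      rw [mul_le_mul_iff_right₀ (by positivity)]
    rcases le_total (‖u‖⁻¹ * H) (2 * R) with h | h
    · exact ⟨_, p, _, hu', hap, by positivity, h, heq⟩
    · refine ⟨_, p, 2 * R, hu', hap, by positivity, le_rfl, ?_⟩
      rw [heq]
      refine Subset.antisymm ?_ (cap_mono _ _ _ h)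
      rw [hfull _ p hu' hp.1]
      exact fun y hy => hy.1

/-- Macbeath regions. -/
def mac (L : Set E) (x : E) (s : ℝ) : Set E :=
  (fun a => x + s • a) '' {a | x + a ∈ L ∧ x - a ∈ L}

lemma mac_compact {L : Set E} (hc : IsCompact L) (x : E) (s : ℝ) : IsCompact (mac L x s) := by
  refine IsCompact.image ?_ (by fun_prop)
  have h1 : IsCompact ((fun y => y - x) '' L) := hc.image (by fun_prop)
  refine h1.of_isClosed_subset ?_ ?_
  · exact (hc.isClosed.preimage (f := fun a => x + a) (by fun_prop)).inter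
      (hc.isClosed.preimage (f := fun a => x - a) (by fun_prop))
  · intro a ha
    exact ⟨x + a, ha.1, by simp⟩

lemma mac_eq (L : Set E) (x : E) (s : ℝ) :
    mac L x s = AffineMap.homothety x s '' mac L x 1 := by
  unfold mac
  rw [image_image]
  congr 1
  ext a
  simp [AffineMap.homothety_apply, add_comm]

lemma mac_half_sub {L : Set E} (hv : Convex ℝ L) {u p x : E} (hp : IsApex L u p) {h : ℝ}
    (hx : x ∈ cap L u p h) {s : ℝ} (hs0 : 0 ≤ s) (hs1 : s ≤ 1) :
    mac L x s ⊆ cap L u p (2 * h) := by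
  rintro _ ⟨a, ⟨ha1, ha2⟩, rfl⟩
  have h1 : x + s • a ∈ L := hv.add_smul_mem hx.1 ha1 ⟨hs0, hs1⟩
  have h2 : x + s • (-a) ∈ L := hv.add_smul_mem hx.1 (by rwa [← sub_eq_add_neg]) ⟨hs0, hs1⟩
  refine ⟨h1, ?_⟩
  have h3 := hp.2 _ h2
  have h4 := hx.2
  have e : p - (x + s • a) = (2 : ℝ) • (p - x) - (p - (x + s • (-a))) := by
    rw [smul_neg, two_smul]; abel
  show ⟪u, p - (x + s • a)⟫ ≤ 2 * h
  rw [e, inner_sub_right, inner_smul_right]
  linarith

lemma mac_five {L : Set E} (hv : Convex ℝ L) {x x' : E} (hx' : x' ∈ L)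
    (hint : (mac L x (1 / 2) ∩ mac L x' (1 / 2)).Nonempty) (c : E) (hc1 : x + c ∈ L)
    (hc2 : x - c ∈ L) :
    x' + (1 / 5 : ℝ) • (x + c - x') ∈ L ∧ x' - (1 / 5 : ℝ) • (x + c - x') ∈ L := by
  obtain ⟨z, ⟨a, ⟨ha1, ha2⟩, hz1⟩, ⟨b, ⟨hb1, hb2⟩, hz2⟩⟩ := hint
  refine ⟨hv.add_smul_sub_mem hx' hc1 ⟨by norm_num, by norm_num⟩, ?_⟩
  have hx : x = x' + (1 / 2 : ℝ) • b - (1 / 2 : ℝ) • a := by
    have : x + (1 / 2 : ℝ) • a = x' + (1 / 2 : ℝ) • b := hz1.trans hz2.symm
    rw [← this]; abel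
  have h1 := hv ha1 hb2 (a := 1 / 2) (b := 1 / 2) (by norm_num) (by norm_num) (by norm_num)
  have h2 := hv hc2 h1 (a := 1 / 5) (b := 4 / 5) (by norm_num) (by norm_num) (by norm_num)
  convert h2 using 1
  rw [hx]
  module

lemma mac_inter {L : Set E} (hv : Convex ℝ L) {x x' : E} (hx : x ∈ L) (hx' : x' ∈ L)
    (hint : (mac L x (1 / 2) ∩ mac L x' (1 / 2)).Nonempty) {β : ℝ} (hβ : 1 ≤ β) :
    mac L x β ⊆ mac L x' (10 * β) := by
  rintro _ ⟨c, ⟨hc1, hc2⟩, rfl⟩
  obtain ⟨h1, h2⟩ := mac_five hv hx' hint c hc1 hc2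
  obtain ⟨h3, h4⟩ := mac_five hv hx' hint 0 (by simpa using hx) (by simpa using hx)
  have hβ0 : 0 < β := by linarith
  set d1 := (1 / 5 : ℝ) • (x + c - x') with hd1
  set d0 := (1 / 5 : ℝ) • (x + 0 - x') with hd0
  have hθ : (β - 1) / β ∈ Icc (0 : ℝ) 1 :=
    ⟨div_nonneg (by linarith) hβ0.le, by rw [div_le_one hβ0]; linarith⟩
  have h5 : x' + ((β - 1) / β) • d0 ∈ L := hv.add_smul_mem hx' h3 hθ
  have h6 : x' + ((β - 1) / β) • (-d0) ∈ L :=
    hv.add_smul_mem hx' (by rwa [← sub_eq_add_neg]) hθ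
  refine ⟨(1 / 2 : ℝ) • d1 - (1 / 2 : ℝ) • (((β - 1) / β) • d0), ⟨?_, ?_⟩, ?_⟩
  · have := hv h1 h6 (a := 1 / 2) (b := 1 / 2) (by norm_num) (by norm_num) (by norm_num)
    convert this using 1
    module
  · have := hv h2 h5 (a := 1 / 2) (b := 1 / 2) (by norm_num) (by norm_num) (by norm_num)
    convert this using 1
    module
  · simp only [hd1, hd0]
    match_scalars <;> field_simp <;> ring

lemma depth_ext {L : Set E} (hv : Convex ℝ L) {u p w : E} (hp : IsApex L u p) {h : ℝ}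
    (h0 : 0 < h) (hw : ∀ y ∈ cap L u p h, |⟪w - u, y - p⟫| ≤ h / 2) :
    ∀ y ∈ L, |⟪w - u, y - p⟫| ≤ (h + ⟪u, p - y⟫) / 2 := by
  intro y hy
  have hd := hp.2 y hy
  rcases le_or_gt ⟪u, p - y⟫ h with hle | hgt
  · exact (hw y ⟨hy, hle⟩).trans (by linarith)
  · set a := ⟪u, p - y⟫ with ha
    have ha0 : 0 < a := h0.trans hgt
    have ht : h / a ∈ Icc (0 : ℝ) 1 := ⟨by positivity, by rw [div_le_one ha0]; exact hgt.le⟩
    have h1 : p + (h / a) • (y - p) ∈ cap L u p h := by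
      refine ⟨hv.add_smul_sub_mem hp.1 hy ht, ?_⟩
      have : p - (p + (h / a) • (y - p)) = (h / a) • (p - y) := by
        rw [← neg_sub p y, smul_neg]; abel
      rw [this, inner_smul_right, ← ha, div_mul_cancel₀ _ ha0.ne']
    have h2 := hw _ h1
    rw [add_sub_cancel_left, inner_smul_right, abs_mul, abs_of_pos (by positivity : 0 < h / a),
      div_mul_eq_mul_div, div_le_iff₀ ha0] at h2
    have : |⟪w - u, y - p⟫| ≤ a / 2 := by nlinarith
    linarith

lemma depth_inter {L : Set E} (hv : Convex ℝ L) {u p u' p' w : E} (hp : IsApex L u p)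
    (hp' : IsApex L u' p') {h h' : ℝ} (h0 : 0 < h) (h0' : 0 < h') (hh : h ≤ 2 * h')
    (hw : ∀ y ∈ cap L u p h, |⟪w - u, y - p⟫| ≤ h / 2)
    (hw' : ∀ y ∈ cap L u' p' h', |⟪w - u', y - p'⟫| ≤ h' / 2) :
    cap L u p h ⊆ cap L u' p' (11 * h') := by
  intro y hy
  refine ⟨hy.1, ?_⟩
  have h1 := abs_le.1 (depth_ext hv hp h0 hw y hy.1)
  have h2 := abs_le.1 (depth_ext hv hp h0 hw p' hp'.1)
  have h3 := abs_le.1 (depth_ext hv hp' h0' hw' y hy.1)
  have h4 := hy.2
  have h5 := hp.2 p' hp'.1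
  simp only [inner_sub_left, inner_sub_right] at *
  linarith [h1.1, h1.2, h2.1, h2.2, h3.1, h3.2]

variable [FiniteDimensional ℝ E] [MeasurableSpace E] [BorelSpace E] (μ : Measure E)
  [μ.IsAddHaarMeasure]

lemma layer (he : 1 ≤ finrank ℝ E) {L : Set E} (hc : IsCompact L) (hv : Convex ℝ L) {x0 : E}
    {r : ℝ} (hr0 : 0 < r) (hr : closedBall x0 r ⊆ L) (η : ℝ) (hη : 0 < η) :
    ∃ B : Set E, B ⊆ L ∧ (∀ u p, ‖u‖ = 1 → IsApex L u p → cap L u p η ⊆ B) ∧
      μ.real B ≤ 2 * finrank ℝ E / r * η * μ.real L := by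
  have he' : (1 : ℝ) ≤ finrank ℝ E := by exact_mod_cast he
  rcases le_or_gt (2 * η / r) 1 with hl | hl
  · set l := 2 * η / r with hldef
    have hl0 : 0 < l := by positivity
    have hx0 : x0 ∈ L := hr (mem_closedBall_self hr0.le)
    have hsub : AffineMap.homothety x0 (1 - l) '' L ⊆ L := by
      rintro _ ⟨y, hy, rfl⟩
      have := hv.add_smul_sub_mem hx0 hy (t := 1 - l) ⟨by linarith, by linarith⟩
      simpa [AffineMap.homothety_apply, add_comm] using this
    refine ⟨L \ AffineMap.homothety x0 (1 - l) '' L, diff_subset, ?_, ?_⟩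
    · intro u p hu hp y hy
      refine ⟨hy.1, ?_⟩
      rintro ⟨y', hy', rfl⟩
      have h1 : x0 + r • u ∈ L := hr (by simp [norm_smul, hu, abs_of_pos hr0])
      have h2 := hv hy' h1 (a := 1 - l) (b := l) (by linarith) hl0.le (by ring)
      have h3 := hp.2 _ h2
      have h4 := hy.2
      have e : p - ((1 - l) • y' + l • (x0 + r • u)) =
          (p - AffineMap.homothety x0 (1 - l) y') - (l * r) • u := by
        simp only [AffineMap.homothety_apply, vsub_eq_sub, vadd_eq_add]; module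
      rw [e, inner_sub_right, inner_smul_right, real_inner_self_eq_norm_sq, hu] at h3
      have : l * r = 2 * η := by rw [hldef]; field_simp
      linarith
    · have hcm : IsCompact (AffineMap.homothety x0 (1 - l) '' L) :=
        hc.image (AffineMap.homothety_continuous x0 _)
      rw [measureReal_diff hsub hcm.measurableSet hc.measure_lt_top.ne]
      have h1 : μ.real (AffineMap.homothety x0 (1 - l) '' L) =
          (1 - l) ^ finrank ℝ E * μ.real L := by
        rw [Measure.real, Measure.addHaar_image_homothety, ENNReal.toReal_mul,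
          ENNReal.toReal_ofReal (abs_nonneg _), abs_of_nonneg (pow_nonneg (by linarith) _)]
        rfl
      rw [h1]
      have h2 := one_add_mul_le_pow (a := -l) (by linarith) (finrank ℝ E)
      have h3 : 2 * finrank ℝ E / r * η = finrank ℝ E * l := by rw [hldef]; field_simp
      rw [h3]
      have h4 : 0 ≤ μ.real L := measureReal_nonneg
      rw [← sub_eq_add_neg] at h2
      nlinarith
  · refine ⟨L, subset_rfl, fun u p _ _ y hy => hy.1, ?_⟩
    have h3 : 2 * finrank ℝ E / r * η = finrank ℝ E * (2 * η / r) := by field_simp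
    rw [h3]
    have h4 : 0 ≤ μ.real L := measureReal_nonneg
    have : 1 ≤ finrank ℝ E * (2 * η / r) := by nlinarith
    nlinarith

lemma vol_mac (L : Set E) (x : E) (s : ℝ) (hs : 0 ≤ s) :
    μ.real (mac L x s) = s ^ finrank ℝ E * μ.real (mac L x 1) := by
  rw [mac_eq, Measure.real, Measure.addHaar_image_homothety, ENNReal.toReal_mul,
    ENNReal.toReal_ofReal (abs_nonneg _), abs_of_nonneg (pow_nonneg hs _)]
  rfl

end Pool.Agent.H904Z.RP
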