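import Pool.Agent.H904Z.RP.Cover

set_option autoImplicit false

namespace Pool.Agent.H904Z.RP

open MeasureTheory Filter Topology Metric Set Module
open scoped RealInnerProductSpace

variable {E : Type*} [NormedAddCommGroup E] [InnerProductSpace ℝ E]
  [FiniteDimensional ℝ E] [MeasurableSpace E] [BorelSpace E] (μ : Measure E)
  [μ.IsAddHaarMeasure]

omit [MeasurableSpace E] [BorelSpace E] in
lemma john_cap (he : 1 ≤ finrank ℝ E) {L : Set E} (hc : IsCompact L) (hv : Convex ℝ L) {x0 : E}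
    {r R : ℝ} (hr0 : 0 < r) (hR0 : 0 < R) (hr : closedBall x0 r ⊆ L) (hR : L ⊆ closedBall x0 R)
    (i : E × E × ℝ) (hi : ‖i.1‖ = 1 ∧ IsApex L i.1 i.2.1 ∧ 0 < i.2.2 ∧ i.2.2 ≤ 2 * R) :
    ∃ (A : E →ₗ[ℝ] E) (x : E), LinearMap.det A ≠ 0 ∧
      (∀ z, ‖z‖ ≤ 1 → x + A z ∈ cap L i.1 i.2.1 i.2.2) ∧
      ∀ y ∈ cap L i.1 i.2.1 i.2.2,
        ∃ z, ‖z‖ ≤ finrank ℝ E * (2 * finrank ℝ E + 1) ∧ y = x + A z := by
  refine john he _ (cap_compact hc _ _ _) (cap_convex hv _ _ _) ?_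
  have h1 := cap_ball hv hR0 hr hR hi.1 hi.2.1.1 hi.2.2.1 hi.2.2.2
  have h2 : 0 < i.2.2 / (2 * R) * r := by have := hi.2.2.1; positivity
  exact ⟨_, mem_interior_iff_mem_nhds.2 (mem_of_superset (closedBall_mem_nhds _ h2) h1)⟩

lemma coverA (he : 1 ≤ finrank ℝ E) {L : Set E} (hc : IsCompact L) (hv : Convex ℝ L) {x0 : E}
    {r R : ℝ} (hr0 : 0 < r) (hR0 : 0 < R) (hr : closedBall x0 r ⊆ L) (hR : L ⊆ closedBall x0 R)
    (a : ℝ) (ha : 0 < a) :
    ∃ C : ℝ, 0 < C ∧ ∀ t h0 : ℝ, 0 < t → 0 < h0 → ∃ 𝒬 : Finset (Set E),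
      (∀ Q ∈ 𝒬, IsCompact Q ∧ μ.real Q ≤ C * t) ∧ (𝒬.card : ℝ) * t ≤ C * h0 ∧
      ∀ u p h, ‖u‖ = 1 → IsApex L u p → 0 < h → h ≤ 2 * R → h ≤ h0 →
        a * t ≤ μ.real (cap L u p h) → μ.real (cap L u p h) ≤ t → ∃ Q ∈ 𝒬, cap L u p h ⊆ Q := by
  classical
  set e := finrank ℝ E with hedef
  have he' : (1 : ℝ) ≤ e := by exact_mod_cast he
  set β : ℝ := e * (2 * e + 1) with hβ
  have hβ1 : 1 ≤ β := by nlinarith
  have hV : 0 ≤ μ.real L := measureReal_nonneg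
  refine ⟨(10 * β) ^ e * 2 ^ e + (2 * β) ^ e / a * (2 * e / r * 2 * μ.real L), by positivity,
    fun t h0 ht hh0 => ?_⟩
  let T : Set (E × E × ℝ) := {i | (‖i.1‖ = 1 ∧ IsApex L i.1 i.2.1 ∧ 0 < i.2.2 ∧ i.2.2 ≤ 2 * R) ∧
    i.2.2 ≤ h0 ∧ a * t ≤ μ.real (cap L i.1 i.2.1 i.2.2) ∧ μ.real (cap L i.1 i.2.1 i.2.2) ≤ t}
  choose! A x hdet hin hout using fun i (hi : i ∈ T) => john_cap he hc hv hr0 hR0 hr hR i hi.1
  have hx : ∀ i ∈ T, x i ∈ cap L i.1 i.2.1 i.2.2 := fun i hi => by simpa using hin i hi 0 (by simp)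
  obtain ⟨u, huT, hdisj, hcov⟩ := Vitali.exists_disjoint_subfamily_covering_enlargement
    (fun i => mac L (x i) (1 / 2)) T (fun _ => 1) 2 one_lt_two (fun _ _ => zero_le_one) 1
    (fun _ _ => le_rfl) (fun i hi => ⟨x i, 0, by simpa using (hx i hi).1, by simp⟩)
  obtain ⟨B, hBL, hB, hBv⟩ := layer μ he hc hv hr0 hr (2 * h0) (by positivity)
  have hlow : ∀ i ∈ T, a * t / (2 * β) ^ e ≤ μ.real (mac L (x i) (1 / 2)) := by
    intro i hi
    have h1 : (fun z => x i + A i z) '' closedBall 0 (1 / 2) ⊆ mac L (x i) (1 / 2) := by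
      rintro _ ⟨z, hz, rfl⟩
      have hz' : ‖(2 : ℝ) • z‖ ≤ 1 := by
        rw [mem_closedBall, dist_zero_right] at hz
        rw [norm_smul]; norm_num; linarith
      refine ⟨A i ((2 : ℝ) • z), ⟨(hin i hi _ hz').1, ?_⟩, by simp [smul_smul]⟩
      have := (hin i hi (-((2 : ℝ) • z)) (by rwa [norm_neg])).1
      rwa [map_neg, ← sub_eq_add_neg] at this
    have h2 := measureReal_mono (μ := μ) h1 (mac_compact hc _ _).measure_lt_top.ne
    rw [vol_ell μ _ _ _ (by norm_num)] at h2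
    have h3 : cap L i.1 i.2.1 i.2.2 ⊆ (fun z => x i + A i z) '' closedBall 0 β := by
      intro y hy
      obtain ⟨z, hz, rfl⟩ := hout i hi y hy
      exact ⟨z, by simpa using hz, rfl⟩
    have h4 := measureReal_mono (μ := μ) h3 (ell_compact _ _ _).measure_lt_top.ne
    rw [vol_ell μ _ _ _ (by linarith)] at h4
    refine le_trans ?_ h2
    rw [div_le_iff₀ (by positivity)]
    refine (hi.2.2.1.trans h4).trans (le_of_eq ?_)
    rw [← hedef, mul_pow 2 β, one_div, inv_pow]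
    field_simp
  obtain ⟨hfin, hcard⟩ := pack μ u (fun i => mac L (x i) (1 / 2))
    (fun i _ => (mac_compact hc _ _).measurableSet) hdisj B
    (fun i hi => (mac_half_sub hv (huT hi).1.2.1 (hx i (huT hi)) (by norm_num) (by norm_num)).trans
      ((cap_mono _ _ _ (by linarith [(huT hi).2.1])).trans (hB _ _ (huT hi).1.1 (huT hi).1.2.1)))
    (ne_top_of_le_ne_top hc.measure_lt_top.ne (measure_mono hBL)) _ (by positivity)
    (fun i hi => hlow i (huT hi))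
  refine ⟨hfin.toFinset.image fun i => mac L (x i) (10 * β), ?_, ?_, ?_⟩
  · intro Q hQ
    obtain ⟨i, hi, rfl⟩ := Finset.mem_image.1 hQ
    have hiT := huT (hfin.mem_toFinset.1 hi)
    refine ⟨mac_compact hc _ _, ?_⟩
    rw [vol_mac μ _ _ _ (by positivity)]
    have h1 := measureReal_mono (μ := μ) (mac_half_sub hv hiT.1.2.1 (hx i hiT) zero_le_one le_rfl)
      (cap_compact hc _ _ _).measure_lt_top.ne
    have h2 := cap_scale μ hc hv i.1 i.2.1 hiT.1.2.1.1 i.2.2 2 one_le_two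
    have h3 := hiT.2.2.2
    rw [← hedef] at h2 ⊢
    calc _ ≤ (10 * β) ^ e * (2 ^ e * t) := by
          gcongr
          exact h1.trans (h2.trans (by gcongr))
      _ = (10 * β) ^ e * 2 ^ e * t := by ring
      _ ≤ _ := by gcongr; exact le_add_of_nonneg_right (by positivity)
  · have h1 : ((hfin.toFinset.image fun i => mac L (x i) (10 * β)).card : ℝ) ≤ u.ncard := by
      rw [Set.ncard_eq_toFinset_card u hfin]
      exact_mod_cast Finset.card_image_le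
    have h2 : (u.ncard : ℝ) * t ≤ (2 * β) ^ e / a * (2 * e / r * 2 * μ.real L) * h0 := by
      have h3 := hcard.trans hBv
      rw [← hedef, ← mul_div_assoc, div_le_iff₀ (by positivity)] at h3
      rw [div_mul_eq_mul_div, div_mul_eq_mul_div, le_div_iff₀ ha]
      calc _ = u.ncard * (a * t) := by ring
        _ ≤ _ := h3
        _ = _ := by ring
    calc _ ≤ (u.ncard : ℝ) * t := by gcongr
      _ ≤ _ := h2
      _ ≤ _ := by gcongr; exact le_add_of_nonneg_left (by positivity)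
  · intro w p h h1 h2 h3 h4 h5 h6 h7
    have hiT : (w, p, h) ∈ T := ⟨⟨h1, h2, h3, h4⟩, h5, h6, h7⟩
    obtain ⟨j, hj, hint, -⟩ := hcov _ hiT
    refine ⟨_, Finset.mem_image.2 ⟨j, hfin.mem_toFinset.2 hj, rfl⟩, ?_⟩
    refine Subset.trans ?_ (mac_inter hv (hx _ hiT).1 (hx _ (huT hj)).1 hint hβ1)
    intro y hy
    obtain ⟨z, hz, rfl⟩ := hout _ hiT y hy
    have hβ0 : 0 < β := by linarith
    have hz' : ‖β⁻¹ • z‖ ≤ 1 := by
      rw [norm_smul, norm_inv, Real.norm_eq_abs, abs_of_pos hβ0, inv_mul_le_iff₀ hβ0, mul_one]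
      exact hz
    refine ⟨A (w, p, h) (β⁻¹ • z), ⟨(hin _ hiT _ hz').1, ?_⟩, by simp [smul_smul, hβ0.ne']⟩
    have := (hin _ hiT (-(β⁻¹ • z)) (by rwa [norm_neg])).1
    rwa [map_neg, ← sub_eq_add_neg] at this

lemma coverB (he : 1 ≤ finrank ℝ E) {L : Set E} (hc : IsCompact L) (hv : Convex ℝ L) {x0 : E}
    {r R : ℝ} (hr0 : 0 < r) (hR0 : 0 < R) (hr : closedBall x0 r ⊆ L) (hR : L ⊆ closedBall x0 R) :
    ∃ C : ℝ, 0 < C ∧ ∀ t h0 : ℝ, 0 < t → 0 < h0 → ∃ 𝒬 : Finset (Set E),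
      (∀ Q ∈ 𝒬, IsCompact Q ∧ μ.real Q ≤ C * t) ∧ (𝒬.card : ℝ) * h0 ^ finrank ℝ E ≤ C * t ∧
      ∀ u p h, ‖u‖ = 1 → IsApex L u p → 0 < h → h ≤ 2 * R → h0 ≤ h →
        μ.real (cap L u p h) ≤ t → ∃ Q ∈ 𝒬, cap L u p h ⊆ Q := by
  classical
  set e := finrank ℝ E with hedef
  have he' : (1 : ℝ) ≤ e := by exact_mod_cast he
  set β : ℝ := e * (2 * e + 1) with hβ
  have hβ1 : 1 ≤ β := by nlinarith
  have hβ0 : 0 < β := by linarith
  set ω := μ.real (closedBall (0 : E) 1) with hω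
  have hω0 : 0 < ω := ENNReal.toReal_pos (measure_closedBall_pos μ _ one_pos).ne'
    (isCompact_closedBall _ _).measure_lt_top.ne
  refine ⟨11 ^ e + (4 * β) ^ e * (1 + R / r) ^ e / ω, by positivity, fun t h0 ht hh0 => ?_⟩
  let T : Set (E × E × ℝ) := {i | (‖i.1‖ = 1 ∧ IsApex L i.1 i.2.1 ∧ 0 < i.2.2 ∧ i.2.2 ≤ 2 * R) ∧
    h0 ≤ i.2.2 ∧ μ.real (cap L i.1 i.2.1 i.2.2) ≤ t}
  choose! A x hdet hin hout using fun i (hi : i ∈ T) => john_cap he hc hv hr0 hR0 hr hR i hi.1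
  let U : E × E × ℝ → Set E := fun i =>
    {w | ‖LinearMap.adjoint (A i) (w - i.1)‖ ≤ i.2.2 / (4 * β)}
  have hU : ∀ i ∈ T, ∀ w ∈ U i, ∀ y ∈ cap L i.1 i.2.1 i.2.2, ∀ y' ∈ cap L i.1 i.2.1 i.2.2,
      |⟪w - i.1, y - y'⟫| ≤ i.2.2 / 2 := by
    intro i hi w hw y hy y' hy'
    obtain ⟨z, hz, rfl⟩ := hout i hi y hy
    obtain ⟨z', hz', rfl⟩ := hout i hi y' hy'
    rw [add_sub_add_left_eq_sub, ← map_sub, ← LinearMap.adjoint_inner_left]
    refine (abs_real_inner_le_norm _ _).trans ?_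
    have h1 : ‖z - z'‖ ≤ 2 * β := (norm_sub_le _ _).trans (by linarith)
    have h2 := hi.1.2.2.1
    calc _ ≤ i.2.2 / (4 * β) * (2 * β) := by gcongr; exact hw
      _ = _ := by field_simp; ring
  obtain ⟨u, huT, hdisj, hcov⟩ := Vitali.exists_disjoint_subfamily_covering_enlargement
    U T (fun i => i.2.2) 2 one_lt_two (fun i hi => hi.1.2.2.1.le) (2 * R)
    (fun i hi => hi.1.2.2.2) (fun i hi => ⟨i.1, by
      have := hi.1.2.2.1
      simp only [U, mem_ofPred_eq, sub_self, map_zero, norm_zero]; positivity⟩)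
  have hUB : ∀ i ∈ T, U i ⊆ closedBall 0 (1 + R / r) := by
    intro i hi w hw
    have hb := cap_ball hv hR0 hr hR hi.1.1 hi.1.2.1.1 hi.1.2.2.1 hi.1.2.2.2
    set c := i.2.1 + (i.2.2 / (2 * R)) • (x0 - i.2.1)
    have hh := hi.1.2.2.1
    set ρ := i.2.2 / (2 * R) * r with hρ
    have hρ0 : 0 < ρ := by positivity
    have h1 : ‖w - i.1‖ ≤ R / r := by
      rcases eq_or_ne (w - i.1) 0 with h0 | h0
      · rw [h0, norm_zero]; positivity
      have hn : 0 < ‖w - i.1‖ := norm_pos_iff.2 h0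
      have h2 := hU i hi w hw (c + (ρ * ‖w - i.1‖⁻¹) • (w - i.1))
        (hb (by simp [norm_smul, abs_of_pos hρ0, hn.ne'])) c (hb (mem_closedBall_self hρ0.le))
      rw [add_sub_cancel_left, inner_smul_right, real_inner_self_eq_norm_sq,
        abs_of_nonneg (by positivity)] at h2
      have h3 : ρ * ‖w - i.1‖⁻¹ * ‖w - i.1‖ ^ 2 = i.2.2 * (r * ‖w - i.1‖) / (2 * R) := by
        rw [hρ]; field_simp
      rw [h3, div_le_div_iff₀ (by positivity) (by positivity)] at h2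
      rw [le_div_iff₀ hr0]
      nlinarith
    rw [mem_closedBall, dist_zero_right]
    have : w = i.1 + (w - i.1) := by abel
    rw [this]
    exact (norm_add_le _ _).trans (by rw [hi.1.1]; linarith)
  have hlow : ∀ i ∈ T, ω ^ 2 * (h0 / (4 * β)) ^ e / t ≤ μ.real (U i) := by
    intro i hi
    have hh := hi.1.2.2.1
    have hd := abs_pos.2 (hdet i hi)
    have h1 : μ.real (U i) = |LinearMap.det (A i)|⁻¹ * (i.2.2 / (4 * β)) ^ e * ω := by
      rw [Measure.real, vol_polar μ _ (hdet i hi) _ _ (by positivity),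
        ENNReal.toReal_ofReal (by positivity)]
    have h2 : (fun z => x i + A i z) '' closedBall 0 1 ⊆ cap L i.1 i.2.1 i.2.2 := by
      rintro _ ⟨z, hz, rfl⟩
      exact hin i hi z (by simpa using hz)
    have h3 := measureReal_mono (μ := μ) h2 (cap_compact hc _ _ _).measure_lt_top.ne
    rw [vol_ell μ _ _ _ zero_le_one, one_pow, mul_one] at h3
    have h4 : |LinearMap.det (A i)| * ω ≤ t := h3.trans hi.2.2
    rw [h1, div_le_iff₀ ht]
    calc _ = |LinearMap.det (A i)|⁻¹ * (h0 / (4 * β)) ^ e * ω * (|LinearMap.det (A i)| * ω) := by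
          field_simp
      _ ≤ _ := by gcongr; exact hi.2.1
  obtain ⟨hfin, hcard⟩ := pack μ u U
    (fun i _ => (isClosed_le (((LinearMap.adjoint (A i)).continuous_of_finiteDimensional.comp
      (continuous_id.sub continuous_const)).norm) continuous_const).measurableSet) hdisj _
    (fun i hi => hUB i (huT hi)) (isCompact_closedBall _ _).measure_lt_top.ne _ (by positivity)
    (fun i hi => hlow i (huT hi))
  refine ⟨hfin.toFinset.image fun i => cap L i.1 i.2.1 (11 * i.2.2), ?_, ?_, ?_⟩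
  · intro Q hQ
    obtain ⟨i, hi, rfl⟩ := Finset.mem_image.1 hQ
    have hiT := huT (hfin.mem_toFinset.1 hi)
    refine ⟨cap_compact hc _ _ _, ?_⟩
    have h2 := cap_scale μ hc hv i.1 i.2.1 hiT.1.2.1.1 i.2.2 11 (by norm_num)
    have h3 := hiT.2.2
    rw [← hedef] at h2
    calc _ ≤ 11 ^ e * t := h2.trans (by gcongr)
      _ ≤ _ := by gcongr; exact le_add_of_nonneg_right (by positivity)
  · have h1 : ((hfin.toFinset.image fun i => cap L i.1 i.2.1 (11 * i.2.2)).card : ℝ)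
        ≤ u.ncard := by
      rw [Set.ncard_eq_toFinset_card u hfin]
      exact_mod_cast Finset.card_image_le
    have h2 : (u.ncard : ℝ) * h0 ^ e ≤ (4 * β) ^ e * (1 + R / r) ^ e / ω * t := by
      rw [Measure.addHaar_real_closedBall' μ _ (by positivity), ← hedef, ← hω, ← mul_div_assoc,
        div_le_iff₀ ht, div_pow] at hcard
      rw [div_mul_eq_mul_div, le_div_iff₀ hω0]
      have h3 : (u.ncard : ℝ) * h0 ^ e * ω =
          (u.ncard * (ω ^ 2 * (h0 ^ e / (4 * β) ^ e))) * ((4 * β) ^ e / ω) := by field_simp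
      rw [h3]
      calc _ ≤ ((1 + R / r) ^ e * ω * t) * ((4 * β) ^ e / ω) := by gcongr
        _ = _ := by field_simp
    calc _ ≤ (u.ncard : ℝ) * h0 ^ e := by gcongr
      _ ≤ _ := h2
      _ ≤ _ := by gcongr; exact le_add_of_nonneg_left (by positivity)
  · intro w p h h1 h2 h3 h4 h5 h7
    have hiT : (w, p, h) ∈ T := ⟨⟨h1, h2, h3, h4⟩, h5, h7⟩
    obtain ⟨j, hj, ⟨v, hv1, hv2⟩, hle⟩ := hcov _ hiT
    have hjT := huT hj
    refine ⟨_, Finset.mem_image.2 ⟨j, hfin.mem_toFinset.2 hj, rfl⟩, ?_⟩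
    exact depth_inter hv h2 hjT.1.2.1 h3 hjT.1.2.2.1 hle
      (fun y hy => hU _ hiT v hv1 y hy p ⟨h2.1, by simpa using h3.le⟩)
      (fun y hy => hU _ hjT v hv2 y hy _ ⟨hjT.1.2.1.1, by simpa using hjT.1.2.2.1.le⟩)

/-- the volume scale `2^{-k(e+1)}`. -/
noncomputable def tau (e k : ℕ) : ℝ := (2⁻¹ : ℝ) ^ (k * (e + 1))

lemma tau_pos (e k : ℕ) : 0 < tau e k := by unfold tau; positivity

lemma cover (he : 1 ≤ finrank ℝ E) {L : Set E} (hL : IsBody L) :
    ∃ C : ℝ, 0 < C ∧ ∀ k : ℕ, ∃ 𝒬 : Finset (Set E),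
      (∀ Q ∈ 𝒬, IsCompact Q ∧ μ.real Q ≤ C * tau (finrank ℝ E) k) ∧
      (𝒬.card : ℝ) * tau (finrank ℝ E) k ≤ C * (4⁻¹ : ℝ) ^ k ∧
      ∀ u p H, IsApex L u p → 0 < H →
        tau (finrank ℝ E) (k + 1) * μ.real L ≤ μ.real (cap L u p H) →
        μ.real (cap L u p H) ≤ tau (finrank ℝ E) k * μ.real L → ∃ Q ∈ 𝒬, cap L u p H ⊆ Q := by
  classical
  set e := finrank ℝ E with hedef
  have : Nontrivial E := Module.nontrivial_of_finrank_pos (R := ℝ) he
  obtain ⟨x0, r, R, hr0, hR0, hr, hR⟩ := body_balls hL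
  have hV : 0 < μ.real L := ENNReal.toReal_pos
    ((measure_closedBall_pos μ _ hr0).trans_le (measure_mono hr)).ne' hL.1.measure_lt_top.ne
  set V := μ.real L with hVdef
  obtain ⟨CA, hCA, hA⟩ := coverA μ he hL.1 hL.2.1 hr0 hR0 hr hR (tau e 1) (tau_pos _ _)
  obtain ⟨CB, hCB, hB⟩ := coverB μ he hL.1 hL.2.1 hr0 hR0 hr hR
  refine ⟨(CA + CB) * V + CA / V, by positivity, fun k => ?_⟩
  have hτ := tau_pos e k
  obtain ⟨QA, hA1, hA2, hA3⟩ := hA (tau e k * V) (4⁻¹ ^ k) (by positivity) (by positivity)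
  obtain ⟨QB, hB1, hB2, hB3⟩ := hB (tau e k * V) (4⁻¹ ^ k) (by positivity) (by positivity)
  refine ⟨QA ∪ QB, ?_, ?_, ?_⟩
  · intro Q hQ
    have h0 : 0 ≤ CA / V * tau e k := by positivity
    rcases Finset.mem_union.1 hQ with h | h
    · refine ⟨(hA1 Q h).1, (hA1 Q h).2.trans ?_⟩
      have : 0 ≤ CB * V * tau e k := by positivity
      nlinarith
    · refine ⟨(hB1 Q h).1, (hB1 Q h).2.trans ?_⟩
      have : 0 ≤ CA * V * tau e k := by positivity
      nlinarith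
  · have h1 : ((QA ∪ QB).card : ℝ) ≤ QA.card + QB.card := by
      exact_mod_cast Finset.card_union_le _ _
    have h2 : (QA.card : ℝ) * tau e k ≤ CA / V * 4⁻¹ ^ k := by
      rw [div_mul_eq_mul_div, le_div_iff₀ hV]; linarith
    have h3 : (QB.card : ℝ) * tau e k ≤ CB * V * 4⁻¹ ^ k := by
      have h4 : (0 : ℝ) < (4⁻¹ ^ k) ^ e := by positivity
      have h5 : tau e k * tau e k = (4⁻¹ ^ k) ^ e * 4⁻¹ ^ k := by
        unfold tau
        rw [← mul_pow, ← pow_succ, ← pow_mul]; norm_num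
      refine le_of_mul_le_mul_right ?_ h4
      calc _ = (QB.card * (4⁻¹ ^ k) ^ e) * tau e k := by ring
        _ ≤ CB * (tau e k * V) * tau e k := by gcongr
        _ = CB * V * (tau e k * tau e k) := by ring
        _ = _ := by rw [h5]; ring
    have h4 : 0 ≤ CA * V * 4⁻¹ ^ k := by positivity
    nlinarith
  · intro u p H hp hH h1 h2
    obtain ⟨u', p', h, h3, h4, h5, h6, h7⟩ := cap_normalize hL.1 hR0 hR hp hH
    rw [h7] at h1 h2 ⊢
    rcases le_total h (4⁻¹ ^ k) with h8 | h8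
    · obtain ⟨Q, hQ, hs⟩ := hA3 u' p' h h3 h4 h5 h6 h8 (by
        refine le_trans (le_of_eq ?_) h1
        unfold tau; ring) h2
      exact ⟨Q, Finset.mem_union_left _ hQ, hs⟩
    · obtain ⟨Q, hQ, hs⟩ := hB3 u' p' h h3 h4 h5 h6 h8 h2
      exact ⟨Q, Finset.mem_union_right _ hQ, hs⟩

end Pool.Agent.H904Z.RP
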