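import Pool.Agent.H904Z.RP.Defs

set_option autoImplicit false

namespace Pool.Agent.H904Z.RP

open MeasureTheory Filter Topology Metric Set
open scoped RealInnerProductSpace

section Taylor
variable {W : Type*} [NormedAddCommGroup W] [InnerProductSpace ℝ W] [FiniteDimensional ℝ W]

lemma hess_symm (f : W → ℝ) (h1 : ∀ᶠ v in 𝓝 (0 : W), DifferentiableAt ℝ f v)
    (h2 : DifferentiableAt ℝ (gradient f) 0) (v w : W) :
    ⟪fderiv ℝ (gradient f) 0 v, w⟫ = ⟪fderiv ℝ (gradient f) 0 w, v⟫ := by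
  have hf : ∀ᶠ y in 𝓝 (0 : W), HasFDerivAt f (innerSL ℝ (gradient f y)) y := by
    filter_upwards [h1] with y hy
    exact hy.hasGradientAt.hasFDerivAt
  have hx : HasFDerivAt (fun y => innerSL ℝ (gradient f y))
      ((innerSL ℝ : W →L[ℝ] W →L[ℝ] ℝ).comp (fderiv ℝ (gradient f) 0)) 0 :=
    (innerSL ℝ : W →L[ℝ] W →L[ℝ] ℝ).hasFDerivAt.comp 0 h2.hasFDerivAt
  simpa using second_derivative_symmetric_of_eventually hf hx v w

lemma taylor2 (f : W → ℝ) (h1 : ∀ᶠ v in 𝓝 (0 : W), DifferentiableAt ℝ f v)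
    (h2 : DifferentiableAt ℝ (gradient f) 0) (h0 : f 0 = 0) (hg : gradient f 0 = 0)
    (ε : ℝ) (hε : 0 < ε) :
    ∀ᶠ v in 𝓝 (0 : W), |f v - ⟪fderiv ℝ (gradient f) 0 v, v⟫ / 2| ≤ ε * ‖v‖ ^ 2 := by
  set A := fderiv ℝ (gradient f) 0 with hA
  have hsym : ∀ v w, ⟪A v, w⟫ = ⟪A w, v⟫ := hess_symm f h1 h2
  have ho := h2.hasFDerivAt.isLittleO
  rw [← hA] at ho
  have hb := ho.bound hε
  simp only [hg, sub_zero] at hb
  obtain ⟨δ, hδ, hball⟩ := Metric.eventually_nhds_iff_ball.1 (hb.and h1)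
  filter_upwards [Metric.ball_mem_nhds (0 : W) hδ] with v hv
  have hder : ∀ y ∈ closedBall (0 : W) ‖v‖, HasFDerivWithinAt (fun y => f y - ⟪A y, y⟫ / 2)
      (innerSL ℝ (gradient f y - A y)) (closedBall (0 : W) ‖v‖) y := by
    intro y hy
    have hy' : y ∈ ball (0 : W) δ := by
      simp only [mem_ball, mem_closedBall, dist_zero_right] at *; linarith
    have e1 : HasFDerivAt f (innerSL ℝ (gradient f y)) y :=
      (hball y hy').2.hasGradientAt.hasFDerivAt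
    have e2 := (A.hasFDerivAt (x := y)).inner ℝ (hasFDerivAt_id y)
    have e3 := e1.sub (e2.mul_const (2⁻¹ : ℝ))
    refine HasFDerivAt.hasFDerivWithinAt ?_
    have e4 : (fun y => f y - ⟪A y, y⟫ / 2) = f - fun t => ⟪A t, id t⟫ * (2⁻¹ : ℝ) := by
      ext t; simp [div_eq_mul_inv]
    rw [e4]
    refine e3.congr_fderiv ?_
    ext w
    simp [inner_sub_left, hsym w y]
    ring
  have hbd : ∀ y ∈ closedBall (0 : W) ‖v‖, ‖innerSL ℝ (gradient f y - A y)‖ ≤ ε * ‖v‖ := by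
    intro y hy
    have hy' : y ∈ ball (0 : W) δ := by
      simp only [mem_ball, mem_closedBall, dist_zero_right] at *; linarith
    rw [innerSL_apply_norm]
    refine (hball y hy').1.trans ?_
    simp only [mem_closedBall, dist_zero_right] at hy
    gcongr
  have := (convex_closedBall (0 : W) ‖v‖).norm_image_sub_le_of_norm_hasFDerivWithin_le hder hbd
    (mem_closedBall_self (norm_nonneg v)) (y := v) (by simp)
  simp only [h0, map_zero, inner_zero_left, zero_div, sub_zero, Real.norm_eq_abs] at this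
  calc _ ≤ ε * ‖v‖ * ‖v‖ := this
    _ = _ := by ring

lemma coercive_of_psd (A : W →L[ℝ] W) (hsym : ∀ v w, ⟪A v, w⟫ = ⟪A w, v⟫)
    (hpos : ∀ v, 0 ≤ ⟪A v, v⟫) (hdet : LinearMap.det (A : W →ₗ[ℝ] W) ≠ 0) :
    ∃ c : ℝ, 0 < c ∧ ∀ v, c * ‖v‖ ^ 2 ≤ ⟪A v, v⟫ := by
  have hpd : ∀ v, v ≠ 0 → 0 < ⟪A v, v⟫ := by
    intro v hv
    rcases (hpos v).lt_or_eq with h | h
    · exact h
    exfalso
    have hz : ∀ w, ⟪A v, w⟫ = 0 := by
      intro w
      have key : ∀ t : ℝ, 0 ≤ ⟪A w, w⟫ * (t * t) + 2 * ⟪A v, w⟫ * t + 0 := by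
        intro t
        have := hpos (v + t • w)
        simp only [map_add, map_smul, inner_add_left, inner_add_right, inner_smul_left,
          inner_smul_right, ← h, hsym w v, conj_trivial] at this
        nlinarith
      have := discrim_le_zero key
      simp only [discrim, mul_zero, sub_zero] at this
      nlinarith [sq_nonneg (⟪A v, w⟫)]
    have hAv : A v = 0 := by
      have := hz (A v)
      simpa using this
    have hinj := (LinearMap.equivOfDetNeZero _ hdet).injective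
    apply hv
    apply hinj
    simpa using hAv
  rcases subsingleton_or_nontrivial W with hW | hW
  · refine ⟨1, one_pos, fun v => ?_⟩
    rw [Subsingleton.elim v 0]; simp
  have hc : IsCompact (sphere (0 : W) 1) := isCompact_sphere 0 1
  obtain ⟨v0, hv0, hmin⟩ := hc.exists_isMinOn (NormedSpace.sphere_nonempty.2 zero_le_one)
    (f := fun v => ⟪A v, v⟫) (by fun_prop)
  have hv0' : v0 ≠ 0 := by
    rintro rfl; simp at hv0
  refine ⟨_, hpd v0 hv0', fun v => ?_⟩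
  rcases eq_or_ne v 0 with rfl | hv
  · simp
  have hn : 0 < ‖v‖ := norm_pos_iff.2 hv
  have h1 : ‖v‖⁻¹ • v ∈ sphere (0 : W) 1 := by
    simp [norm_smul, hn.ne']
  have h2 := hmin h1
  simp only [mem_ofPred_eq, map_smul, inner_smul_left, inner_smul_right, conj_trivial] at h2
  have : ⟪A v, v⟫ = ‖v‖ ^ 2 * (‖v‖⁻¹ * (‖v‖⁻¹ * ⟪A v, v⟫)) := by field_simp
  rw [this, mul_comm]
  gcongr

lemma quad_lower (f : W → ℝ) (h1 : ∀ᶠ v in 𝓝 (0 : W), DifferentiableAt ℝ f v)
    (h2 : DifferentiableAt ℝ (gradient f) 0) (h0 : f 0 = 0) (hg : gradient f 0 = 0)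
    (hdet : 0 < LinearMap.det ((fderiv ℝ (gradient f) 0 : W →L[ℝ] W) : W →ₗ[ℝ] W))
    (hnn : ∀ᶠ v in 𝓝 (0 : W), 0 ≤ f v) :
    ∃ c : ℝ, 0 < c ∧ ∀ᶠ v in 𝓝 (0 : W), c * ‖v‖ ^ 2 ≤ f v := by
  set A := fderiv ℝ (gradient f) 0 with hA
  have hpos : ∀ v, 0 ≤ ⟪A v, v⟫ := by
    intro v
    refine le_of_forall_pos_le_add fun η hη => ?_
    have hε : 0 < η / (2 * (‖v‖ ^ 2 + 1)) := by positivity
    have h3 := (taylor2 f h1 h2 h0 hg _ hε).and hnn
    have ht : Tendsto (fun t : ℝ => t • v) (𝓝[>] 0) (𝓝 0) := by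
      have : Tendsto (fun t : ℝ => t • v) (𝓝 0) (𝓝 ((0 : ℝ) • v)) :=
        (continuous_id.smul continuous_const).tendsto 0
      rw [zero_smul] at this
      exact this.mono_left nhdsWithin_le_nhds
    obtain ⟨t, ⟨h4, h5⟩, htpos⟩ := ((ht.eventually h3).and self_mem_nhdsWithin).exists
    have htp : 0 < t := htpos
    rw [← hA] at h4
    simp only [map_smul, inner_smul_left, inner_smul_right, conj_trivial, norm_smul,
      Real.norm_eq_abs, abs_of_pos htp] at h4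
    have h6 := (abs_le.1 h4).2
    have h7 : η / (2 * (‖v‖ ^ 2 + 1)) * (t * ‖v‖) ^ 2 ≤ t ^ 2 * (η / 2) := by
      have : η / (2 * (‖v‖ ^ 2 + 1)) * ‖v‖ ^ 2 ≤ η / 2 := by
        rw [div_mul_eq_mul_div, div_le_div_iff₀ (by positivity) (by positivity)]
        nlinarith [sq_nonneg ‖v‖]
      calc _ = t ^ 2 * (η / (2 * (‖v‖ ^ 2 + 1)) * ‖v‖ ^ 2) := by ring
        _ ≤ _ := by gcongr
    have h8 : 0 ≤ t ^ 2 * (⟪A v, v⟫ + η) := by nlinarith
    have h9 := nonneg_of_mul_nonneg_right h8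
    by_contra hcon
    push Not at hcon
    nlinarith [mul_neg_of_pos_of_neg (pow_pos htp 2) hcon]
  obtain ⟨c, hc, hco⟩ := coercive_of_psd A (hess_symm f h1 h2) hpos hdet.ne'
  refine ⟨c / 4, by positivity, ?_⟩
  filter_upwards [taylor2 f h1 h2 h0 hg (c / 4) (by positivity)] with v hv
  have := (abs_le.1 hv).1
  have h3 := hco v
  rw [← hA] at this
  nlinarith

end Taylor

variable {E : Type*} [NormedAddCommGroup E] [InnerProductSpace ℝ E]

/-- At every boundary point the body lies in a touching ball. -/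
def Hcond (K : Set E) : Prop :=
  ∀ p ∈ frontier K, ∃ u : E, ‖u‖ = 1 ∧ ∃ M : ℕ, ∀ y ∈ K, ‖y - p‖ ^ 2 ≤ M * ⟪u, p - y⟫

lemma hcond_ball : Hcond (closedBall (0 : E) 1) := by
  intro p hp
  have hp1 : ‖p‖ = 1 := by
    have := frontier_closedBall_subset_sphere hp
    simpa using this
  refine ⟨p, hp1, 2, fun y hy => ?_⟩
  have hy1 : ‖y‖ ≤ 1 := by simpa using hy
  rw [norm_sub_sq_real, inner_sub_right, real_inner_self_eq_norm_sq, hp1, real_inner_comm]
  have : ‖y‖ ^ 2 ≤ 1 := by nlinarith [norm_nonneg y]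
  push_cast
  linarith

lemma hcond_of_posCurv [FiniteDimensional ℝ E] (K : Set E) (hK : IsBody K) (h : PosCurv K) :
    Hcond K := by
  intro p hp
  obtain ⟨ν, f, U, hν, hU, hepi, h1, h2, h0, hg, hdet⟩ := h p hp
  have hpK : p ∈ K := hK.1.isClosed.frontier_subset hp
  -- decomposition
  have hdec : ∀ w : E, ∃ v : (ℝ ∙ ν)ᗮ, w = (v : E) + ⟪ν, w⟫ • ν ∧
      ‖w‖ ^ 2 = ‖v‖ ^ 2 + ⟪ν, w⟫ ^ 2 := by
    intro w
    have hνν : ⟪ν, ν⟫ = 1 := by rw [real_inner_self_eq_norm_sq, hν]; norm_num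
    refine ⟨⟨w - ⟪ν, w⟫ • ν, ?_⟩, by simp, ?_⟩
    · rw [Submodule.mem_orthogonal_singleton_iff_inner_right]
      simp [inner_sub_right, inner_smul_right, hν]
    · simp only [Submodule.coe_norm]
      rw [norm_sub_sq_real, norm_smul, hν, inner_smul_right, real_inner_comm w ν]
      simp only [Real.norm_eq_abs, mul_one, sq_abs]
      ring
  have hfd : HasFDerivAt f (0 : (ℝ ∙ ν)ᗮ →L[ℝ] ℝ) 0 := by
    have := h1.self_of_nhds.hasGradientAt.hasFDerivAt
    rw [hg] at this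
    simpa using this
  -- supporting hyperplane
  have hsupp : ∀ y ∈ K, 0 ≤ ⟪ν, y - p⟫ := by
    intro y hy
    obtain ⟨v, hv, -⟩ := hdec (y - p)
    set s := ⟪ν, y - p⟫ with hs
    by_contra hneg
    push Not at hneg
    have hline : HasDerivAt (fun t : ℝ => f (t • v)) 0 0 := by
      have e1 : HasDerivAt (fun t : ℝ => t • v) v 0 := by
        simpa using (hasDerivAt_id (0 : ℝ)).smul_const v
      have e2 : HasFDerivAt f (0 : (ℝ ∙ ν)ᗮ →L[ℝ] ℝ) ((0 : ℝ) • v) := by simpa using hfd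
      exact e2.comp_hasDerivAt (0 : ℝ) e1
    have hsl := hasDerivAt_iff_tendsto_slope_zero.1 hline
    simp only [zero_add, zero_smul, h0, sub_zero, smul_eq_mul] at hsl
    have hsl' : Tendsto (fun t : ℝ => t⁻¹ * f (t • v)) (𝓝[>] 0) (𝓝 0) :=
      hsl.mono_left (nhdsWithin_mono _ fun t ht => ne_of_gt ht)
    have ht : Tendsto (fun t : ℝ => p + t • (y - p)) (𝓝[>] 0) (𝓝 p) := by
      have : Tendsto (fun t : ℝ => p + t • (y - p)) (𝓝 0) (𝓝 (p + (0 : ℝ) • (y - p))) :=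
        (continuous_const.add (continuous_id.smul continuous_const)).tendsto 0
      simp only [zero_smul, add_zero] at this
      exact this.mono_left nhdsWithin_le_nhds
    have hev : ∀ᶠ t : ℝ in 𝓝[>] 0, t⁻¹ * f (t • v) ≤ s := by
      filter_upwards [ht.eventually hU, self_mem_nhdsWithin,
        Ioo_mem_nhdsGT (zero_lt_one' ℝ)] with t h3 h4 h5
      have htp : 0 < t := h4
      have e : p + t • (y - p) = p + ((t • v : (ℝ ∙ ν)ᗮ) : E) + (t * s) • ν := by
        conv_lhs => rw [hv]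
        simp [smul_add, mul_smul, add_assoc]
      have hin : p + t • (y - p) ∈ K := by
        have := hK.2.1.add_smul_sub_mem hpK hy ⟨htp.le, h5.2.le⟩
        exact this
      have := (hepi (t • v) (t * s) (e ▸ h3)).1 (e ▸ hin)
      rw [inv_mul_le_iff₀ htp]
      exact this
    have := le_of_tendsto hsl' hev
    linarith
  have hcont : ContinuousAt f 0 := h1.self_of_nhds.continuousAt
  have hnn : ∀ᶠ v in 𝓝 (0 : (ℝ ∙ ν)ᗮ), 0 ≤ f v := by
    have ht : Tendsto (fun v : (ℝ ∙ ν)ᗮ => p + (v : E) + f v • ν) (𝓝 0) (𝓝 p) := by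
      have : Tendsto (fun v : (ℝ ∙ ν)ᗮ => p + (v : E) + f v • ν) (𝓝 0)
          (𝓝 (p + ((0 : (ℝ ∙ ν)ᗮ) : E) + f 0 • ν)) :=
        (tendsto_const_nhds.add (continuous_subtype_val.tendsto _)).add
          (hcont.tendsto.smul tendsto_const_nhds)
      simpa [h0] using this
    filter_upwards [ht.eventually hU] with v hv
    have := hsupp _ ((hepi v (f v) hv).2 le_rfl)
    have hv0 : ⟪ν, (v : E)⟫ = 0 := Submodule.mem_orthogonal_singleton_iff_inner_right.1 v.2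
    have e : p + (v : E) + f v • ν - p = (v : E) + f v • ν := by abel
    rw [e, inner_add_right, hv0, inner_smul_right, real_inner_self_eq_norm_sq, hν] at this
    simpa using this
  obtain ⟨c, hc, hq⟩ := quad_lower f h1 h2 h0 hg hdet hnn
  obtain ⟨δ1, hδ1, hq1⟩ := Metric.eventually_nhds_iff_ball.1 hq
  obtain ⟨δ2, hδ2, hU2⟩ := Metric.mem_nhds_iff.1 hU
  obtain ⟨R, hR⟩ := hK.1.isBounded.subset_closedBall p
  set δ := min δ1 δ2 / 2 with hδ
  have hδp : 0 < δ := by positivity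
  have hδ1' : δ < δ1 := by have := min_le_left δ1 δ2; have : 0 < min δ1 δ2 := lt_min hδ1 hδ2; linarith
  have hδ2' : δ < δ2 := by have := min_le_right δ1 δ2; have : 0 < min δ1 δ2 := lt_min hδ1 hδ2; linarith
  -- local estimate
  have hloc : ∀ y ∈ K, ‖y - p‖ ≤ δ → ‖y - p‖ ^ 2 ≤ (c⁻¹ + δ) * ⟪ν, y - p⟫ := by
    intro y hy hyd
    obtain ⟨v, hv, hn⟩ := hdec (y - p)
    set s := ⟪ν, y - p⟫ with hs
    have hs0 : 0 ≤ s := hsupp y hy
    have e : y = p + (v : E) + s • ν := by rw [add_assoc, ← hv]; abel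
    have hyU : y ∈ U := hU2 (by rw [mem_ball, dist_eq_norm]; linarith)
    have h3 := (hepi v s (e ▸ hyU)).1 (e ▸ hy)
    have hvn : ‖v‖ ≤ ‖y - p‖ := by
      refine le_of_sq_le_sq ?_ (norm_nonneg _)
      nlinarith [sq_nonneg ‖v‖, sq_nonneg s]
    have h4 := hq1 v (by rw [mem_ball, dist_zero_right]; linarith)
    have hsn : s ≤ δ := by
      have : s ≤ ‖y - p‖ := by
        refine le_of_sq_le_sq ?_ (norm_nonneg _)
        nlinarith [sq_nonneg ‖v‖, sq_nonneg s]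
      linarith
    have h5 : ‖v‖ ^ 2 ≤ c⁻¹ * s := by
      rw [le_inv_mul_iff₀ hc]; linarith
    rw [hn]; nlinarith
  have hRp : 0 ≤ R := by simpa using hR hpK
  obtain ⟨M, hM⟩ := exists_nat_ge ((c⁻¹ + δ) * (1 + R / δ))
  refine ⟨-ν, by simpa using hν, M, fun y hy => ?_⟩
  have e : ⟪-ν, p - y⟫ = ⟪ν, y - p⟫ := by
    rw [inner_neg_left, ← inner_neg_right, neg_sub]
  rw [e]
  have hs0 := hsupp y hy
  have hcd : 0 < c⁻¹ + δ := by positivity
  rcases le_or_gt ‖y - p‖ δ with hle | hgt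
  · refine (hloc y hy hle).trans ?_
    gcongr
    refine le_trans ?_ hM
    have : 0 ≤ R / δ := by positivity
    nlinarith
  · have hn : 0 < ‖y - p‖ := hδp.trans hgt
    set t := δ / ‖y - p‖ with ht
    have ht0 : 0 < t := by positivity
    have ht1 : t ≤ 1 := by rw [ht, div_le_one hn]; exact hgt.le
    have hin : p + t • (y - p) ∈ K := hK.2.1.add_smul_sub_mem hpK hy ⟨ht0.le, ht1⟩
    have h3 := hloc _ hin (by simp [norm_smul, abs_of_pos hδp, ht, hn.ne'])
    simp only [add_sub_cancel_left, norm_smul, Real.norm_eq_abs, abs_of_pos ht0,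
      inner_smul_right] at h3
    have hyR : ‖y - p‖ ≤ R := by simpa [dist_eq_norm] using hR hy
    have h4 : t * ‖y - p‖ ^ 2 ≤ (c⁻¹ + δ) * ⟪ν, y - p⟫ := by
      have : t * (t * ‖y - p‖ ^ 2) ≤ t * ((c⁻¹ + δ) * ⟪ν, y - p⟫) := by nlinarith
      exact le_of_mul_le_mul_left this ht0
    have h5 : 1 ≤ t * (1 + R / δ) := by
      rw [ht, div_mul_eq_mul_div, le_div_iff₀ hn]
      have : δ * (1 + R / δ) = δ + R := by field_simp
      linarith
    calc ‖y - p‖ ^ 2 ≤ t * (1 + R / δ) * ‖y - p‖ ^ 2 := by nlinarith [sq_nonneg ‖y - p‖]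
      _ = (1 + R / δ) * (t * ‖y - p‖ ^ 2) := by ring
      _ ≤ (1 + R / δ) * ((c⁻¹ + δ) * ⟪ν, y - p⟫) := by gcongr
      _ = ((c⁻¹ + δ) * (1 + R / δ)) * ⟪ν, y - p⟫ := by ring
      _ ≤ _ := by gcongr

end Pool.Agent.H904Z.RP
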