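import Mathlib

set_option autoImplicit false

/-!
Definitions for random polytopes in products of smooth convex bodies (MP_5ec613_pr).
-/

namespace Pool.Agent.H904Z.RP

open MeasureTheory Filter Topology

/-- `K` is a convex body: compact, convex, with nonempty interior. -/
def IsBody {E : Type*} [NormedAddCommGroup E] [NormedSpace ℝ E] (K : Set E) : Prop :=
  IsCompact K ∧ Convex ℝ K ∧ (interior K).Nonempty

/-- The boundary of `K` is twice differentiable with positive Gaussian curvature at each of its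
points `p`: there is a unit vector `ν` (the inner normal) such that near `p` the set `K` is the
region above the graph of a function `f` on the tangent hyperplane `ν^⊥`, where `f` is
differentiable near `0`, its gradient is differentiable at `0`, `f 0 = 0`, `∇f 0 = 0`, and the
Gaussian curvature `det (Hess f)(0)` is positive. -/
def PosCurv {E : Type*} [NormedAddCommGroup E] [InnerProductSpace ℝ E] [FiniteDimensional ℝ E]
    (K : Set E) : Prop :=
  ∀ p ∈ frontier K, ∃ (ν : E) (f : (ℝ ∙ ν)ᗮ → ℝ) (U : Set E),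
    ‖ν‖ = 1 ∧ U ∈ 𝓝 p ∧
    (∀ (v : (ℝ ∙ ν)ᗮ) (s : ℝ), p + (v : E) + s • ν ∈ U → (p + (v : E) + s • ν ∈ K ↔ f v ≤ s)) ∧
    (∀ᶠ v in 𝓝 (0 : (ℝ ∙ ν)ᗮ), DifferentiableAt ℝ f v) ∧
    DifferentiableAt ℝ (gradient f) 0 ∧ f 0 = 0 ∧ gradient f 0 = 0 ∧
    0 < LinearMap.det ((fderiv ℝ (gradient f) 0 : (ℝ ∙ ν)ᗮ →L[ℝ] (ℝ ∙ ν)ᗮ) :
      (ℝ ∙ ν)ᗮ →ₗ[ℝ] (ℝ ∙ ν)ᗮ)

/-- The number `f_j(P)` of `j`-dimensional faces of a polytope `P`: nonempty exposed subsets
whose affine hull has dimension `j`. -/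
noncomputable def faceNum {V : Type*} [NormedAddCommGroup V] [NormedSpace ℝ V] (j : ℕ)
    (P : Set V) : ℕ :=
  {F : Set V | F.Nonempty ∧ IsExposed ℝ P F ∧ Module.finrank ℝ (vectorSpan ℝ F) = j}.ncard

/-- The law of `n` independent points, each uniformly distributed in `L`. -/
noncomputable def sample {V : Type*} [MeasureSpace V] (L : Set V) (n : ℕ) :
    Measure (Fin n → V) :=
  Measure.pi fun _ => ProbabilityTheory.cond volume L

/-- `E f_j(P_n(L))`, where `P_n(L)` is the convex hull of `n` independent uniform points of `L`. -/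
noncomputable def expFaces {V : Type*} [NormedAddCommGroup V] [NormedSpace ℝ V] [MeasureSpace V]
    (L : Set V) (j n : ℕ) : ℝ :=
  ∫ x, (faceNum j (convexHull ℝ (Set.range x)) : ℝ) ∂(sample L n)

/-- The expected missed volume `Vol(L) - E Vol(P_n(L))`. -/
noncomputable def expDeficit {V : Type*} [NormedAddCommGroup V] [NormedSpace ℝ V] [MeasureSpace V]
    (L : Set V) (n : ℕ) : ℝ :=
  (volume L).toReal - ∫ x, (volume (convexHull ℝ (Set.range x))).toReal ∂(sample L n)

/-- `a_n ≍ b_n` for sequences that are positive from some index on. -/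
def Asymp (a b : ℕ → ℝ) : Prop :=
  ∃ c C : ℝ, 0 < c ∧ c ≤ C ∧ ∃ n₀ : ℕ, ∀ n ≥ n₀,
    0 < a n ∧ 0 < b n ∧ c * b n ≤ a n ∧ a n ≤ C * b n

end Pool.Agent.H904Z.RP
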