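import Pool.Agent.H904Z.RP.Defs

set_option autoImplicit false

namespace Pool.Agent.H904Z.RP

open Filter Topology Set Module

variable {V : Type*} [NormedAddCommGroup V] [NormedSpace ℝ V] {ι : Type*}

/-- general position -/
def GP (x : ι → V) : Prop :=
  ∀ S : Finset ι, S.card ≤ finrank ℝ V + 1 → AffineIndependent ℝ (fun s : S => x s)

/-- the points with index in `S` lie on a supporting hyperplane -/
def Supp (x : ι → V) (S : Finset ι) : Prop :=
  ∃ l : V →L[ℝ] ℝ, l ≠ 0 ∧ ∀ s ∈ S, ∀ k, l (x k) ≤ l (x s)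

lemma Supp.mono {x : ι → V} {S T : Finset ι} (h : Supp x T) (hST : S ⊆ T) : Supp x S := by
  obtain ⟨l, h0, h1⟩ := h
  exact ⟨l, h0, fun s hs => h1 s (hST hs)⟩

lemma range_restrict' (x : ι → V) (S : Finset ι) : range (fun s : S => x s) = x '' S := by
  ext y; simp

lemma vectorSpan_le_ker (x : ι → V) (S : Set ι) (l : V →ₗ[ℝ] ℝ) (c : ℝ)
    (h : ∀ s ∈ S, l (x s) = c) : vectorSpan ℝ (x '' S) ≤ LinearMap.ker l := by
  rw [vectorSpan_def, Submodule.span_le]
  rintro _ ⟨_, ⟨a, ha, rfl⟩, _, ⟨b, hb, rfl⟩, rfl⟩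
  simp [h a ha, h b hb]

lemma mem_conv_range [Fintype ι] (x : ι → V) (y : V) :
    y ∈ convexHull ℝ (range x) ↔
      ∃ w : ι → ℝ, (∀ i, 0 ≤ w i) ∧ ∑ i, w i = 1 ∧ ∑ i, w i • x i = y := by
  classical
  constructor
  · intro hy
    refine convexHull_min (t := {y | ∃ w : ι → ℝ, (∀ i, 0 ≤ w i) ∧ ∑ i, w i = 1 ∧
      ∑ i, w i • x i = y}) ?_ ?_ hy
    · rintro _ ⟨i, rfl⟩
      refine ⟨Pi.single i 1, fun j => ?_, by simp, ?_⟩
      · rcases eq_or_ne j i with rfl | h <;> simp [*]
      · rw [Finset.sum_eq_single i] <;> simp +contextual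
    · rintro _ ⟨w, h1, h2, rfl⟩ _ ⟨w', h1', h2', rfl⟩ a b ha hb hab
      refine ⟨fun i => a * w i + b * w' i, fun i => by have := h1 i; have := h1' i; positivity,
        ?_, ?_⟩
      · rw [Finset.sum_add_distrib, ← Finset.mul_sum, ← Finset.mul_sum, h2, h2']; linarith
      · simp only [add_smul, Finset.sum_add_distrib, Finset.smul_sum, smul_smul]
  · rintro ⟨w, h1, h2, rfl⟩
    exact (convex_convexHull ℝ _).sum_mem (fun i _ => h1 i) h2
      fun i _ => subset_convexHull ℝ _ (mem_range_self i)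

lemma le_of_mem_conv {x : ι → V} {l : V →L[ℝ] ℝ} {c : ℝ} {S : Set ι} (h : ∀ k ∈ S, l (x k) ≤ c)
    {y : V} (hy : y ∈ convexHull ℝ (x '' S)) : l y ≤ c := by
  refine convexHull_min (t := {y | l y ≤ c}) ?_ ?_ hy
  · rintro _ ⟨k, hk, rfl⟩; exact h k hk
  · exact convex_halfSpace_le (l : V →ₗ[ℝ] ℝ).isLinear c

lemma face_eq [Fintype ι] (x : ι → V) (l : V →L[ℝ] ℝ) (S : Set ι)
    (hS : ∀ k, k ∈ S ↔ ∀ k', l (x k') ≤ l (x k)) :
    {y ∈ convexHull ℝ (range x) | ∀ z ∈ convexHull ℝ (range x), l z ≤ l y} =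
      convexHull ℝ (x '' S) := by
  classical
  apply Subset.antisymm
  · rintro y ⟨hy, hmax⟩
    obtain ⟨w, h1, h2, h3⟩ := (mem_conv_range x y).1 hy
    have h4 : ∀ k, l (x k) ≤ l y := fun k => hmax _ (subset_convexHull ℝ _ (mem_range_self k))
    have h5 : ∑ i, w i * (l y - l (x i)) = 0 := by
      simp only [mul_sub, Finset.sum_sub_distrib, ← Finset.sum_mul, h2, one_mul]
      conv_lhs => rw [← h3]
      simp
    have h6 := (Finset.sum_eq_zero_iff_of_nonneg
      (fun i _ => mul_nonneg (h1 i) (sub_nonneg.2 (h4 i)))).1 h5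
    have h7 : ∀ i, w i ≠ 0 → i ∈ S := by
      intro i hi
      have := (mul_eq_zero.1 (h6 i (Finset.mem_univ _))).resolve_left hi
      rw [hS]; intro k'
      linarith [h4 k']
    rw [← h3, ← Finset.sum_filter_of_ne (p := fun i => w i ≠ 0)
      (fun i _ hi h0 => hi (by simp [h0]))]
    refine (convex_convexHull ℝ _).sum_mem (fun i _ => h1 i) ?_ fun i hi => ?_
    · rw [Finset.sum_filter_of_ne (fun i _ hi => hi), h2]
    · exact subset_convexHull ℝ _ (mem_image_of_mem _ (h7 i (Finset.mem_filter.1 hi).2))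
  · refine convexHull_min ?_ ?_
    · rintro _ ⟨s, hs, rfl⟩
      refine ⟨subset_convexHull ℝ _ (mem_range_self s), fun z hz => ?_⟩
      rw [← image_univ] at hz
      exact le_of_mem_conv (fun k _ => (hS s).1 hs k) hz
    · intro a ha b hb s t hs ht hst
      refine ⟨convex_convexHull ℝ _ ha.1 hb.1 hs ht hst, fun z hz => ?_⟩
      have h1 := ha.2 z hz
      have h2 := hb.2 z hz
      simp only [map_add, map_smul, smul_eq_mul]
      have : l z = s * l z + t * l z := by rw [← add_mul, hst, one_mul]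
      rw [this]; gcongr

lemma exists_functional {κ : Type*} (p : κ → V) (hp : AffineIndependent ℝ p) (i0 : κ)
    (c : κ → ℝ) : ∃ g : V →ₗ[ℝ] ℝ, ∀ i, i ≠ i0 → g (p i - p i0) = c i := by
  have hli := (affineIndependent_iff_linearIndependent_vsub ℝ p i0).1 hp
  obtain ⟨g, hg⟩ := LinearMap.exists_extend
    ((Finsupp.linearCombination ℝ (fun i : {i // i ≠ i0} => c i)) ∘ₗ hli.repr)
  refine ⟨g, fun i hi => ?_⟩
  have h1 : p i - p i0 ∈ Submodule.span ℝ (range fun i : {i // i ≠ i0} => (p i -ᵥ p i0 : V)) :=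
    Submodule.subset_span ⟨⟨i, hi⟩, rfl⟩
  have := congrArg (fun f => f ⟨_, h1⟩) hg
  simp only [LinearMap.comp_apply, Submodule.subtype_apply] at this
  rw [this, hli.repr_eq_single ⟨i, hi⟩ _ rfl]
  simp

variable [FiniteDimensional ℝ V]

lemma GP.card_le {x : ι → V} (hx : GP x) {l : V →ₗ[ℝ] ℝ} (hl : l ≠ 0) {S : Finset ι} {c : ℝ}
    (h : ∀ s ∈ S, l (x s) = c) : S.card ≤ finrank ℝ V := by
  by_contra hcon
  obtain ⟨T, hT, hc⟩ := Finset.exists_subset_card_eq (s := S) (n := finrank ℝ V + 1) (by omega)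
  have h1 := (hx T hc.le).vectorSpan_eq_top_of_card_eq_finrank_add_one (by simpa using hc)
  rw [range_restrict'] at h1
  have h2 := vectorSpan_le_ker x T l c fun s hs => h s (hT hs)
  rw [h1, top_le_iff, LinearMap.ker_eq_top] at h2
  exact hl h2

lemma coe_ne_zero {l : V →L[ℝ] ℝ} (hl : l ≠ 0) : (l : V →ₗ[ℝ] ℝ) ≠ 0 := by
  intro h; apply hl; ext v; exact congrArg (fun f : V →ₗ[ℝ] ℝ => f v) h

lemma Supp.insert [Fintype ι] [DecidableEq ι] {x : ι → V} (hx : GP x)
    (hι : finrank ℝ V + 1 ≤ Fintype.card ι) {S : Finset ι} (hS : Supp x S) (hne : S.Nonempty)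
    (hc : S.card < finrank ℝ V) : ∃ i ∉ S, Supp x (insert i S) := by
  classical
  obtain ⟨l, hl, hmax⟩ := hS
  obtain ⟨s0, hs0⟩ := hne
  obtain ⟨v, hv⟩ : ∃ v, l v ≠ 0 := by
    by_contra h; push Not at h; exact hl (ContinuousLinearMap.ext h)
  have hW : finrank ℝ (vectorSpan ℝ (x '' S)) ≤ S.card - 1 := by
    have := finrank_vectorSpan_image_finset_le ℝ x S (n := S.card - 1)
      (by have := Finset.card_pos.2 ⟨s0, hs0⟩; omega)
    rwa [Finset.coe_image] at this
  have hlt : vectorSpan ℝ (x '' S) ⊔ Submodule.span ℝ {v} < ⊤ := by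
    rw [lt_top_iff_ne_top]
    intro htop
    have h1 := Submodule.finrank_add_le_finrank_add_finrank (vectorSpan ℝ (x '' S))
      (Submodule.span ℝ {v})
    rw [htop, finrank_top] at h1
    have h2 : finrank ℝ (Submodule.span ℝ {v}) ≤ 1 := by
      simpa using finrank_span_le_card ({v} : Set V)
    have := Finset.card_pos.2 ⟨s0, hs0⟩
    omega
  obtain ⟨g0, hg0, hker0⟩ := Submodule.exists_le_ker_of_lt_top _ hlt
  obtain ⟨g, hker, i1, hi1⟩ : ∃ g : V →ₗ[ℝ] ℝ,
      vectorSpan ℝ (x '' S) ⊔ Submodule.span ℝ {v} ≤ LinearMap.ker g ∧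
        ∃ i, g (x s0) < g (x i) := by
    obtain ⟨i, hi⟩ : ∃ i, g0 (x i) ≠ g0 (x s0) := by
      by_contra h; push Not at h
      have := hx.card_le hg0 (S := Finset.univ) fun s _ => h s
      rw [Finset.card_univ] at this
      omega
    rcases lt_or_gt_of_ne hi with h | h
    · exact ⟨-g0, by rwa [LinearMap.ker_neg], i, by simpa using h⟩
    · exact ⟨g0, hker0, i, h⟩
  have hgS : ∀ s ∈ S, g (x s) = g (x s0) := by
    intro s hs
    have : x s -ᵥ x s0 ∈ vectorSpan ℝ (x '' S) :=
      vsub_mem_vectorSpan ℝ (mem_image_of_mem _ hs) (mem_image_of_mem _ hs0)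
    have := hker (Submodule.mem_sup_left this)
    simpa [sub_eq_zero] using this
  have hgv : g v = 0 := hker (Submodule.mem_sup_right (Submodule.mem_span_singleton_self v))
  obtain ⟨i0, hi0, hmin⟩ := Finset.exists_min_image
    (Finset.univ.filter fun i => g (x s0) < g (x i))
    (fun i => (l (x s0) - l (x i)) / (g (x i) - g (x s0))) ⟨i1, by simpa using hi1⟩
  have hi0' : g (x s0) < g (x i0) := by simpa using hi0
  set τ := (l (x s0) - l (x i0)) / (g (x i0) - g (x s0)) with hτ
  have hτ0 : 0 ≤ τ := div_nonneg (sub_nonneg.2 (hmax s0 hs0 i0)) (by linarith)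
  have hkey : ∀ k, l (x k) + τ * g (x k) ≤ l (x s0) + τ * g (x s0) := by
    intro k
    rcases lt_or_ge (g (x s0)) (g (x k)) with h | h
    · have := hmin k (by simpa using h)
      rw [le_div_iff₀ (by linarith)] at this
      linarith
    · have := hmax s0 hs0 k
      nlinarith
  refine ⟨i0, fun h => by linarith [hgS i0 h], l + τ • LinearMap.toContinuousLinearMap g, ?_, ?_⟩
  · intro h
    have := congrArg (fun f : V →L[ℝ] ℝ => f v) h
    simp [hgv, hv] at this
  · intro s hs k
    simp only [ContinuousLinearMap.add_apply, ContinuousLinearMap.smul_apply,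
      LinearMap.coe_toContinuousLinearMap', smul_eq_mul]
    refine (hkey k).trans (le_of_eq ?_)
    rcases Finset.mem_insert.1 hs with rfl | hs
    · have : τ * (g (x s) - g (x s0)) = l (x s0) - l (x s) := by
        rw [hτ, div_mul_cancel₀ _ (by linarith)]
      linarith
    · rw [hgS s hs, le_antisymm (hmax s hs s0) (hmax s0 hs0 s)]

lemma Supp.extend [Fintype ι] [DecidableEq ι] {x : ι → V} (hx : GP x)
    (hι : finrank ℝ V + 1 ≤ Fintype.card ι) {S : Finset ι} (hS : Supp x S) (hne : S.Nonempty)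
    (hc : S.card ≤ finrank ℝ V) : ∃ T, S ⊆ T ∧ T.card = finrank ℝ V ∧ Supp x T := by
  obtain ⟨k, hk⟩ : ∃ k, S.card + k = finrank ℝ V := ⟨finrank ℝ V - S.card, by omega⟩
  induction k generalizing S with
  | zero => exact ⟨S, subset_rfl, by omega, hS⟩
  | succ k ih =>
    obtain ⟨i, hi, h⟩ := hS.insert hx hι hne (by omega)
    have hci := Finset.card_insert_of_notMem hi
    obtain ⟨T, h1, h2, h3⟩ := ih h (Finset.insert_nonempty _ _) (by omega) (by omega)
    exact ⟨T, (Finset.subset_insert _ _).trans h1, h2, h3⟩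

lemma Supp.exact [Fintype ι] {x : ι → V} (hx : GP x) {S : Finset ι} (hS : Supp x S)
    (hne : S.Nonempty) :
    ∃ l : V →L[ℝ] ℝ, ∀ k, k ∈ (S : Set ι) ↔ ∀ k', l (x k') ≤ l (x k) := by
  classical
  obtain ⟨l, hl, hmax⟩ := hS
  obtain ⟨s0, hs0⟩ := hne
  let T := Finset.univ.filter fun k => l (x k) = l (x s0)
  have hT : T.card ≤ finrank ℝ V :=
    hx.card_le (coe_ne_zero hl) (c := l (x s0)) fun s hs => (Finset.mem_filter.1 hs).2
  have hST : ∀ s ∈ S, s ∈ T := fun s hs =>
    Finset.mem_filter.2 ⟨Finset.mem_univ _, le_antisymm (hmax s0 hs0 s) (hmax s hs s0)⟩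
  obtain ⟨g, hg⟩ := exists_functional _ (hx T (by omega)) ⟨s0, hST s0 hs0⟩
    fun t => if (t : ι) ∈ S then 0 else -1
  have hg1 : ∀ s ∈ S, g (x s) = g (x s0) := by
    intro s hs
    rcases eq_or_ne s s0 with rfl | h
    · rfl
    have := hg ⟨s, hST s hs⟩ (fun h' => h (congrArg Subtype.val h'))
    simpa [hs, sub_eq_zero] using this
  have hg2 : ∀ t ∈ T, t ∉ S → g (x t) = g (x s0) - 1 := by
    intro t ht hts
    have := hg ⟨t, ht⟩ (fun h' => hts (by rw [show t = s0 from congrArg Subtype.val h']; exact hs0))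
    simp only [hts, if_false, map_sub] at this
    linarith
  have hev : ∀ᶠ ε : ℝ in 𝓝[>] 0, ∀ k, k ∉ T →
      l (x k) + ε * g (x k) < l (x s0) + ε * g (x s0) := by
    refine eventually_all.2 fun k => ?_
    by_cases hk : k ∈ T
    · simp [hk]
    have h1 : l (x k) < l (x s0) :=
      lt_of_le_of_ne (hmax s0 hs0 k) (by simpa [T] using hk)
    have h2 : ∀ᶠ ε : ℝ in 𝓝 0, l (x k) + ε * g (x k) < l (x s0) + ε * g (x s0) :=
      ContinuousAt.eventually_lt (by fun_prop) (by fun_prop) (by simpa using h1)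
    exact (h2.filter_mono nhdsWithin_le_nhds).mono fun ε h _ => h
  obtain ⟨ε, h1, h2⟩ := (hev.and self_mem_nhdsWithin).exists
  have hε : 0 < ε := h2
  have hlt : ∀ k, k ∉ S → l (x k) + ε * g (x k) < l (x s0) + ε * g (x s0) := by
    intro k hk
    by_cases hT' : k ∈ T
    · rw [hg2 k hT' hk, (Finset.mem_filter.1 hT').2]; linarith
    · exact h1 k hT'
  have heq : ∀ k, k ∈ S → l (x k) + ε * g (x k) = l (x s0) + ε * g (x s0) := by
    intro k hk
    rw [hg1 k hk, (Finset.mem_filter.1 (hST k hk)).2]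
  refine ⟨l + ε • LinearMap.toContinuousLinearMap g, fun k => ?_⟩
  simp only [ContinuousLinearMap.add_apply, ContinuousLinearMap.smul_apply,
    LinearMap.coe_toContinuousLinearMap', smul_eq_mul, Finset.mem_coe]
  constructor
  · intro hk k'
    rw [heq k hk]
    by_cases hk' : k' ∈ S
    · exact (heq k' hk').le
    · exact (hlt k' hk').le
  · intro h
    by_contra hk
    linarith [hlt k hk, h s0]

lemma dim_conv {x : ι → V} (hx : GP x) {S : Finset ι} {j : ℕ} (hc : S.card = j + 1)
    (hj : j ≤ finrank ℝ V) : finrank ℝ (vectorSpan ℝ (convexHull ℝ (x '' S))) = j := by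
  rw [← direction_affineSpan, affineSpan_convexHull, direction_affineSpan, ← range_restrict']
  exact (hx S (by omega)).finrank_vectorSpan (by simpa using hc)

open Classical in
lemma faceNum_eq [Fintype ι] {x : ι → V} (hx : GP x) (hι : finrank ℝ V + 1 ≤ Fintype.card ι)
    {j : ℕ} (hj : j < finrank ℝ V) :
    faceNum j (convexHull ℝ (range x)) =
      ((Finset.univ.powersetCard (j + 1)).filter (Supp x)).card := by
  rw [faceNum, ← Set.ncard_coe_finset,
    ← Set.ncard_image_of_injOn (f := fun S : Finset ι => convexHull ℝ (x '' S))]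
  · congr 1
    ext F
    simp only [mem_ofPred_eq, mem_image, Finset.coe_filter, Finset.mem_powersetCard,
      Finset.subset_univ, true_and]
    constructor
    · rintro ⟨hne, hexp, hdim⟩
      obtain ⟨l, hl⟩ := hexp hne
      let S := Finset.univ.filter fun k => ∀ k', l (x k') ≤ l (x k)
      have hF : F = convexHull ℝ (x '' S) := by
        rw [hl]; exact face_eq x l S (by simp [S])
      have hSne : S.Nonempty := by
        rw [hF] at hne
        have := (convexHull_nonempty_iff.1 hne).of_image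
        exact_mod_cast this
      have hl0 : l ≠ 0 := by
        rintro rfl
        obtain ⟨T, -, hT⟩ := Finset.exists_subset_card_eq (s := (Finset.univ : Finset ι))
          (n := finrank ℝ V + 1) (by simpa using hι)
        have h1 := dim_conv hx hT le_rfl
        have h2 : vectorSpan ℝ (convexHull ℝ (x '' T)) ≤ vectorSpan ℝ F := by
          apply vectorSpan_mono
          rw [hF]
          exact convexHull_mono (image_mono (by simp [S]))
        have := Submodule.finrank_mono h2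
        omega
      obtain ⟨s0, hs0⟩ := hSne
      have hs0' := (Finset.mem_filter.1 hs0).2
      have hcard : S.card ≤ finrank ℝ V := hx.card_le (coe_ne_zero hl0) (c := l (x s0))
        fun s hs => le_antisymm (hs0' s) ((Finset.mem_filter.1 hs).2 s0)
      have hpos := Finset.card_pos.2 ⟨s0, hs0⟩
      have h3 := dim_conv hx (S := S) (j := S.card - 1) (by omega) (by omega)
      rw [← hF, hdim] at h3
      exact ⟨S, ⟨by omega, l, hl0, fun s hs => (Finset.mem_filter.1 hs).2⟩, hF.symm⟩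
    · rintro ⟨S, ⟨hc, hS⟩, rfl⟩
      have hne : S.Nonempty := Finset.card_pos.1 (by omega)
      obtain ⟨l, hl⟩ := hS.exact hx hne
      refine ⟨convexHull_nonempty_iff.2 ((Finset.coe_nonempty.2 hne).image x),
        fun _ => ⟨l, (face_eq x l S hl).symm⟩, dim_conv hx hc hj.le⟩
  · have key : ∀ S S' : Finset ι, S.card = j + 1 →
        convexHull ℝ (x '' S') ⊆ convexHull ℝ (x '' S) → S' ⊆ S := by
      intro S S' hc hsub i hi
      by_contra hiS
      have h1 : x i ∈ affineSpan ℝ (x '' S) :=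
        convexHull_subset_affineSpan _ (hsub (subset_convexHull ℝ _ (mem_image_of_mem _ hi)))
      have h2 := hx (insert i S) (by rw [Finset.card_insert_of_notMem hiS]; omega)
      have h3 := (h2.mem_affineSpan_iff ⟨i, Finset.mem_insert_self _ _⟩
        {s | (s : ι) ∈ S}).1 (by
          convert h1 using 2
          ext y
          simp only [mem_image, mem_ofPred_eq, Subtype.exists, Finset.mem_coe]
          exact ⟨fun ⟨a, _, h, e⟩ => ⟨a, h, e⟩,
            fun ⟨a, h, e⟩ => ⟨a, Finset.mem_insert_of_mem h, h, e⟩⟩)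
      exact hiS h3
    intro S hS S' hS' h
    simp only [Finset.coe_filter, Finset.mem_powersetCard, mem_ofPred_eq] at hS hS'
    exact Finset.Subset.antisymm (key S' S hS'.1.2 h.le) (key S S' hS.1.2 h.ge)

end Pool.Agent.H904Z.RP
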