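import Pool.Agent.H904Z.RP.Faces

set_option autoImplicit false

namespace Pool.Agent.H904Z.RP

open MeasureTheory Filter Topology Set Module Metric
open scoped ENNReal

variable {V : Type*} [NormedAddCommGroup V] [NormedSpace ℝ V] [FiniteDimensional ℝ V] {ι : Type*}

lemma isClosed_supp (S : Finset ι) : IsClosed {x : ι → V | Supp x S} := by
  have hcs : CompactSpace (sphere (0 : V →L[ℝ] ℝ) 1) :=
    isCompact_iff_compactSpace.1 (isCompact_sphere _ _)
  have h1 : IsClosed {q : (ι → V) × sphere (0 : V →L[ℝ] ℝ) 1 |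
      ∀ s ∈ S, ∀ k, q.2.1 (q.1 k) ≤ q.2.1 (q.1 s)} := by
    have : {q : (ι → V) × sphere (0 : V →L[ℝ] ℝ) 1 | ∀ s ∈ S, ∀ k, q.2.1 (q.1 k) ≤ q.2.1 (q.1 s)}
        = ⋂ s ∈ S, ⋂ k, {q | q.2.1 (q.1 k) ≤ q.2.1 (q.1 s)} := by
      ext q; simp
    rw [this]
    exact isClosed_biInter fun s _ => isClosed_iInter fun k =>
      isClosed_le (by fun_prop) (by fun_prop)
  convert isClosedMap_fst_of_compactSpace _ h1 using 1
  ext x
  simp only [mem_ofPred_eq, mem_image, Prod.exists, exists_and_right, exists_eq_right]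
  constructor
  · rintro ⟨l, hl, h⟩
    have hn : 0 < ‖l‖ := norm_pos_iff.2 hl
    refine ⟨⟨‖l‖⁻¹ • l, by simp [norm_smul, hn.ne']⟩, fun s hs k => ?_⟩
    simp only [ContinuousLinearMap.smul_apply, smul_eq_mul]
    gcongr
    exact h s hs k
  · rintro ⟨l, h⟩
    refine ⟨l.1, fun h0 => ?_, h⟩
    have := l.2
    simp [h0] at this

omit [FiniteDimensional ℝ V] in
lemma isClosed_conv [Fintype ι] :
    IsClosed {q : V × (ι → V) | q.1 ∈ convexHull ℝ (range q.2)} := by
  have hcs : CompactSpace (stdSimplex ℝ ι) :=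
    isCompact_iff_compactSpace.1 (isCompact_stdSimplex ℝ ι)
  have h1 : IsClosed {q : (V × (ι → V)) × stdSimplex ℝ ι | ∑ i, q.2.1 i • q.1.2 i = q.1.1} :=
    isClosed_eq (continuous_finsetSum _ fun i _ =>
      ((continuous_apply i).comp (continuous_subtype_val.comp continuous_snd)).smul
        (by fun_prop)) (by fun_prop)
  convert isClosedMap_fst_of_compactSpace _ h1 using 1
  ext q
  simp only [mem_ofPred_eq, mem_image, mem_conv_range]
  constructor
  · rintro ⟨w, h1, h2, h3⟩
    exact ⟨(q, ⟨w, h1, h2⟩), h3, rfl⟩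
  · rintro ⟨⟨q', w⟩, h, rfl⟩
    exact ⟨w.1, w.2.1, w.2.2, h⟩

variable [MeasurableSpace V] [BorelSpace V]

omit [NormedAddCommGroup V] [NormedSpace ℝ V] [FiniteDimensional ℝ V] [BorelSpace V] in
lemma pi_null_of_update [Fintype ι] [DecidableEq ι] (ν : Measure V) [IsProbabilityMeasure ν]
    (A : Set (ι → V)) (hA : MeasurableSet A) (i : ι)
    (h : ∀ x : ι → V, ν {y | Function.update x i y ∈ A} = 0) :
    Measure.pi (fun _ : ι => ν) A = 0 := by
  have hne : Nonempty V := MeasureTheory.nonempty_of_isProbabilityMeasure ν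
  rw [← lintegral_indicator_one hA, lintegral_eq_lmarginal_univ (fun _ => Classical.arbitrary V),
    lmarginal_erase' _ (measurable_one.indicator hA) (Finset.mem_univ i)]
  have : (fun x : ι → V => ∫⁻ y, A.indicator (1 : (ι → V) → ℝ≥0∞) (Function.update x i y) ∂ν)
      = fun _ => 0 := by
    ext x
    have hm : MeasurableSet {y | Function.update x i y ∈ A} := measurable_update x hA
    rw [← h x, ← lintegral_indicator_one hm]
    rfl
  rw [this]
  simp [lmarginal]

lemma ae_gp [Fintype ι] (ν : Measure V) [IsProbabilityMeasure ν]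
    (hnull : ∀ s : AffineSubspace ℝ V, s ≠ ⊤ → ν s = 0) :
    ∀ᵐ x ∂(Measure.pi fun _ : ι => ν), GP x := by
  classical
  have hopen : ∀ S : Finset ι, IsOpen {x : ι → V | AffineIndependent ℝ (fun s : S => x s)} :=
    fun S => isOpen_setOfPred_affineIndependent.preimage
      (f := fun (x : ι → V) (s : S) => x s) (by fun_prop)
  refine ae_all_iff.2 fun S => ?_
  induction S using Finset.induction_on with
  | empty => exact Eventually.of_forall fun x _ => affineIndependent_of_subsingleton ℝ _
  | insert i S hi ih =>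
    by_cases hc : (insert i S).card ≤ finrank ℝ V + 1
    swap
    · exact Eventually.of_forall fun x h => absurd h hc
    rw [Finset.card_insert_of_notMem hi] at hc
    have h0 := pi_null_of_update ν ({x : ι → V | AffineIndependent ℝ (fun s : S => x s)} \
      {x : ι → V | AffineIndependent ℝ (fun s : (insert i S : Finset ι) => x s)})
      ((hopen S).measurableSet.diff (hopen _).measurableSet) i (fun x => by
        rcases S.eq_empty_or_nonempty with rfl | hne
        · have : {y | Function.update x i y ∈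
              {x : ι → V | AffineIndependent ℝ (fun s : (∅ : Finset ι) => x s)} \
              {x : ι → V | AffineIndependent ℝ (fun s : (insert i ∅ : Finset ι) => x s)}} = ∅ := by
            ext y
            simp only [mem_diff, mem_ofPred_eq, mem_empty_iff_false, iff_false, not_and, not_not]
            intro _
            have : Subsingleton (insert i ∅ : Finset ι) := ⟨fun a b => Subtype.ext (by
              have ha := a.2; have hb := b.2
              simp only [Finset.mem_insert, Finset.notMem_empty, or_false] at ha hb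
              rw [ha, hb])⟩
            exact affineIndependent_of_subsingleton ℝ _
          rw [this, measure_empty]
        have hne' : affineSpan ℝ (x '' S) ≠ ⊤ := by
          intro htop
          have h1 := finrank_vectorSpan_image_finset_le ℝ x S (n := S.card - 1)
            (by have := Finset.card_pos.2 hne; omega)
          rw [Finset.coe_image, ← direction_affineSpan, htop, AffineSubspace.direction_top,
            finrank_top] at h1
          have := Finset.card_pos.2 hne
          omega
        refine measure_mono_null (fun y hy => ?_) (hnull _ hne')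
        by_contra hy'
        apply hy.2
        have hS : ∀ s ∈ S, Function.update x i y s = x s := fun s hs =>
          Function.update_of_ne (fun h : s = i => hi (h ▸ hs)) _ _
        refine AffineIndependent.affineIndependent_of_notMem_span
          (i := ⟨i, Finset.mem_insert_self _ _⟩) ?_ ?_
        · have hmem : ∀ a : {a : (insert i S : Finset ι) // a ≠ ⟨i, Finset.mem_insert_self _ _⟩},
              (a.1 : ι) ∈ S := fun a =>
            (Finset.mem_insert.1 a.1.2).resolve_left fun h => a.2 (Subtype.ext h)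
          exact hy.1.comp_embedding ⟨fun a => ⟨a.1.1, hmem a⟩, fun a b h =>
            Subtype.ext (Subtype.ext (Subtype.mk.inj h))⟩
        · simp only [Function.update_self]
          have : (fun s : (insert i S : Finset ι) => Function.update x i y s) ''
              {a | a ≠ ⟨i, Finset.mem_insert_self _ _⟩} = x '' S := ?_
          · rw [this]; exact hy'
          ext z
          simp only [mem_image, mem_ofPred_eq, Subtype.exists, Finset.mem_coe]
          constructor
          · rintro ⟨a, ha, h1, rfl⟩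
            have : a ∈ S := (Finset.mem_insert.1 ha).resolve_left fun h => h1 (Subtype.ext h)
            exact ⟨a, this, (hS a this).symm⟩
          · rintro ⟨a, ha, rfl⟩
            exact ⟨a, Finset.mem_insert_of_mem ha,
              fun h => hi (by rw [← show a = i from congrArg Subtype.val h]; exact ha), hS a ha⟩)
    filter_upwards [ih, measure_eq_zero_iff_ae_notMem.1 h0] with x h1 h2 _
    by_contra h3
    exact h2 ⟨h1 (by omega), h3⟩

omit [MeasurableSpace V] [BorelSpace V] in
lemma functional_unique {κ : Type*} [Fintype κ] (z : κ → V) (hz : AffineIndependent ℝ z)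
    (hc : Fintype.card κ = finrank ℝ V) (hd : 1 ≤ finrank ℝ V) {l l0 : V →L[ℝ] ℝ} (hl : l ≠ 0)
    (hl0 : l0 ≠ 0) {c c0 : ℝ} (h : ∀ s, l (z s) = c) (h0 : ∀ s, l0 (z s) = c0) :
    ∃ t : ℝ, t ≠ 0 ∧ ∀ y, l y = t * l0 y := by
  have hW := hz.finrank_vectorSpan (n := finrank ℝ V - 1) (by omega)
  have key : ∀ (f : V →L[ℝ] ℝ) (a : ℝ), f ≠ 0 → (∀ s, f (z s) = a) →
      vectorSpan ℝ (range z) = LinearMap.ker (f : V →ₗ[ℝ] ℝ) := by
    intro f a hf ha
    have h1 := vectorSpan_le_ker z univ (f : V →ₗ[ℝ] ℝ) a fun s _ => ha s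
    rw [image_univ] at h1
    refine Submodule.eq_of_le_of_finrank_le h1 ?_
    have h2 : LinearMap.ker (f : V →ₗ[ℝ] ℝ) < ⊤ := by
      rw [lt_top_iff_ne_top, Ne, LinearMap.ker_eq_top]; exact coe_ne_zero hf
    have := Submodule.finrank_lt_finrank_of_lt h2
    rw [finrank_top] at this
    omega
  have hker := (key l0 c0 hl0 h0).symm.trans (key l c hl h)
  obtain ⟨v, hv⟩ : ∃ v, l0 v ≠ 0 := by
    by_contra h; push Not at h; exact hl0 (ContinuousLinearMap.ext h)
  have hall : ∀ y, l y = l v / l0 v * l0 y := by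
    intro y
    have h1 : y - (l0 y / l0 v) • v ∈ LinearMap.ker (l0 : V →ₗ[ℝ] ℝ) := by
      simp [hv]
    rw [hker] at h1
    simp only [LinearMap.mem_ker, ContinuousLinearMap.coe_coe, map_sub, map_smul, smul_eq_mul,
      sub_eq_zero] at h1
    rw [h1]; field_simp
  refine ⟨_, fun h => hl ?_, hall⟩
  ext y; rw [hall y, h]; simp

lemma supp_bound [Fintype ι] (ν : Measure V) [IsProbabilityMeasure ν]
    (hnull : ∀ s : AffineSubspace ℝ V, s ≠ ⊤ → ν s = 0) (hd : 1 ≤ finrank ℝ V)
    (p : ι → Prop) [DecidablePred p] (hp : Fintype.card {i // p i} = finrank ℝ V)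
    (F : ({i // p i} → V) → ℝ≥0∞)
    (hF : ∀ᵐ z ∂(Measure.pi fun _ : {i // p i} => ν), ∀ (l : V →L[ℝ] ℝ) (c : ℝ), l ≠ 0 →
        (∀ s, l (z s) = c) → ν {y | l y ≤ c} ^ (Fintype.card {i // ¬ p i}) ≤ F z) :
    Measure.pi (fun _ : ι => ν) {x | Supp x (Finset.univ.filter p)} ≤
      2 * ∫⁻ z, F z ∂(Measure.pi fun _ : {i // p i} => ν) := by
  have hmp := measurePreserving_piEquivPiSubtypeProd (fun _ : ι => ν) p
  set e := MeasurableEquiv.piEquivPiSubtypeProd (fun _ : ι => V) p with he
  have hA : MeasurableSet {x : ι → V | Supp x (Finset.univ.filter p)} :=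
    (isClosed_supp _).measurableSet
  rw [← (hmp.symm e).measure_preimage hA.nullMeasurableSet,
    Measure.prod_apply (e.symm.measurable hA), ← lintegral_const_mul' _ _ (by simp)]
  refine lintegral_mono_ae ?_
  filter_upwards [hF, ae_gp ν hnull] with z hz hgp
  have hai : AffineIndependent ℝ z := by
    have := (hgp Finset.univ (by simp [hp])).comp_embedding
      (⟨fun a => ⟨a, Finset.mem_univ _⟩, fun a b h => Subtype.mk.inj h⟩ :
        {i // p i} ↪ (Finset.univ : Finset {i // p i}))
    exact this
  have hne : Nonempty {i // p i} := Fintype.card_pos_iff.1 (by omega)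
  obtain ⟨s0⟩ := hne
  have hsec : ∀ w ∈ Prod.mk z ⁻¹' (e.symm ⁻¹' {x : ι → V | Supp x (Finset.univ.filter p)}),
      ∃ (l : V →L[ℝ] ℝ) (c : ℝ), l ≠ 0 ∧ (∀ s, l (z s) = c) ∧ ∀ k, l (w k) ≤ c := by
    rintro w ⟨l, hl, h⟩
    have h1 : ∀ s : {i // p i}, e.symm (z, w) s = z s := fun s => by
      simp [he, MeasurableEquiv.piEquivPiSubtypeProd, Equiv.piEquivPiSubtypeProd, s.2]
    have h2 : ∀ s : {i // ¬ p i}, e.symm (z, w) s = w s := fun s => by
      simp [he, MeasurableEquiv.piEquivPiSubtypeProd, Equiv.piEquivPiSubtypeProd, s.2]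
    have h3 : ∀ s : {i // p i}, (s : ι) ∈ Finset.univ.filter p := fun s => by simpa using s.2
    refine ⟨l, l (z s0), hl, fun s => ?_, fun k => ?_⟩
    · rw [← h1, ← h1]
      exact le_antisymm (h _ (h3 s0) _) (h _ (h3 s) _)
    · rw [← h1, ← h2]
      exact h _ (h3 s0) _
  by_cases hex : ∃ (l : V →L[ℝ] ℝ) (c : ℝ), l ≠ 0 ∧ ∀ s, l (z s) = c
  swap
  · have : Prod.mk z ⁻¹' (e.symm ⁻¹' {x : ι → V | Supp x (Finset.univ.filter p)}) = ∅ := by
      refine eq_empty_of_forall_notMem fun w hw => hex ?_
      obtain ⟨l, c, h1, h2, -⟩ := hsec w hw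
      exact ⟨l, c, h1, h2⟩
    rw [this, measure_empty]
    exact zero_le
  obtain ⟨l0, c0, hl0, h0⟩ := hex
  have hsub : Prod.mk z ⁻¹' (e.symm ⁻¹' {x : ι → V | Supp x (Finset.univ.filter p)}) ⊆
      (Set.pi univ fun _ => {y | l0 y ≤ c0}) ∪ (Set.pi univ fun _ => {y | (-l0) y ≤ -c0}) := by
    intro w hw
    obtain ⟨l, c, h1, h2, h3⟩ := hsec w hw
    obtain ⟨t, ht, h4⟩ := functional_unique z hai hp hd h1 hl0 h2 h0
    have hc : c = t * c0 := by rw [← h2 s0, h4, h0]
    rcases lt_or_gt_of_ne ht with h | h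
    · right
      intro k _
      have := h3 k
      rw [h4, hc] at this
      simp only [mem_ofPred_eq, ContinuousLinearMap.neg_apply]
      nlinarith
    · left
      intro k _
      have := h3 k
      rw [h4, hc] at this
      exact le_of_mul_le_mul_left this h
  refine (measure_mono hsub).trans ((measure_union_le _ _).trans ?_)
  rw [Measure.pi_pi, Measure.pi_pi, two_mul]
  simp only [Finset.prod_const, Finset.card_univ]
  exact add_le_add (hz l0 c0 hl0 h0) (hz (-l0) (-c0) (neg_ne_zero.2 hl0) (by simp [h0]))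

end Pool.Agent.H904Z.RP
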