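import Pool.Agent.H904Z.RP.Curv

set_option autoImplicit false

namespace Pool.Agent.H904Z.RP

open MeasureTheory Filter Topology Metric Set Module
open scoped RealInnerProductSpace

variable {E : Type*} [NormedAddCommGroup E] [InnerProductSpace ℝ E] [FiniteDimensional ℝ E]

lemma john (he : 1 ≤ finrank ℝ E) (C : Set E) (hc : IsCompact C) (hv : Convex ℝ C)
    (hi : (interior C).Nonempty) :
    ∃ (A : E →ₗ[ℝ] E) (x : E), LinearMap.det A ≠ 0 ∧ (∀ z, ‖z‖ ≤ 1 → x + A z ∈ C) ∧
      ∀ y ∈ C, ∃ z, ‖z‖ ≤ finrank ℝ E * (2 * finrank ℝ E + 1) ∧ y = x + A z := by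
  classical
  set e := finrank ℝ E with hedef
  let b : OrthonormalBasis (Fin e) ℝ E := stdOrthonormalBasis ℝ E
  obtain ⟨p, hp⟩ := hi
  obtain ⟨ρ, hρ, hball⟩ := Metric.nhds_basis_closedBall.mem_iff.1 (mem_interior_iff_mem_nhds.1 hp)
  have hpC : p ∈ C := interior_subset hp
  let Y : Set (Fin e → E) := Set.pi univ fun _ => (fun w => w - p) '' C
  have hY : IsCompact Y := isCompact_univ_pi fun _ => hc.image (by fun_prop)
  have hYm : ∀ y : Fin e → E, y ∈ Y ↔ ∀ i, p + y i ∈ C := by
    intro y
    simp only [Y, Set.mem_pi, mem_univ, forall_true_left, mem_image]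
    refine forall_congr' fun i => ⟨?_, fun h => ⟨_, h, by simp⟩⟩
    rintro ⟨w, hw, hw'⟩
    rw [← hw']; simpa using hw
  have hY0 : (fun i => ρ • b i) ∈ Y := by
    rw [hYm]; intro i
    apply hball
    simp [norm_smul, abs_of_pos hρ]
  have hcont : Continuous fun y : Fin e → E => |b.toBasis.det y| := by
    refine Continuous.abs (f := fun y : Fin e → E => b.toBasis.det y) ?_
    simp only [Basis.det_apply]
    refine Continuous.matrix_det ?_
    refine continuous_pi fun i => continuous_pi fun j => ?_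
    simp only [Basis.toMatrix_apply, OrthonormalBasis.coe_toBasis_repr_apply,
      OrthonormalBasis.repr_apply_apply]
    fun_prop
  obtain ⟨y, hyY, hmax⟩ := hY.exists_isMaxOn ⟨_, hY0⟩ hcont.continuousOn
  have hdet0 : b.toBasis.det y ≠ 0 := by
    have h1 := hmax hY0
    simp only [mem_ofPred_eq] at h1
    have h2 : b.toBasis.det (fun i => ρ • b i) = ρ ^ e := by
      have := b.toBasis.det.map_smul_univ (fun _ => ρ) b.toBasis
      simp only [Basis.det_self, Finset.prod_const, Finset.card_univ, Fintype.card_fin,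
        smul_eq_mul, mul_one, OrthonormalBasis.coe_toBasis] at this
      rw [this]
      have := b.toBasis.det_self
      simp only [OrthonormalBasis.coe_toBasis] at this
      simp [this]
    rw [h2, abs_of_pos (pow_pos hρ e)] at h1
    exact abs_pos.1 ((pow_pos hρ e).trans_le h1)
  let A0 : E →ₗ[ℝ] E := b.toBasis.constr ℝ y
  have hA0 : ∀ z, A0 z = ∑ i, ⟪b i, z⟫ • y i := by
    intro z
    simp [A0, Basis.constr_apply_fintype, OrthonormalBasis.repr_apply_apply]
  have hA0det : LinearMap.det A0 = b.toBasis.det y := by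
    have := b.toBasis.det_comp A0 b.toBasis
    rw [Basis.det_self, mul_one] at this
    rw [← this]
    congr 1
    ext i
    simp [A0]
  have hepos : (0 : ℝ) < e := by exact_mod_cast he
  refine ⟨(2 * e : ℝ)⁻¹ • A0, p + ∑ i, (2 * e : ℝ)⁻¹ • y i, ?_, ?_, ?_⟩
  · rw [LinearMap.det_smul, hA0det]
    exact mul_ne_zero (pow_ne_zero _ (by positivity)) hdet0
  · intro z hz
    have e1 : p + ∑ i, (2 * e : ℝ)⁻¹ • y i + ((2 * e : ℝ)⁻¹ • A0) z
        = ∑ i : Fin e, (e : ℝ)⁻¹ • (p + ((1 + ⟪b i, z⟫) / 2) • y i) := by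
      simp only [LinearMap.smul_apply, hA0, smul_add, Finset.sum_add_distrib, Finset.smul_sum,
        smul_smul, Finset.sum_const, Finset.card_univ, Fintype.card_fin]
      rw [← Nat.cast_smul_eq_nsmul ℝ, smul_smul, mul_inv_cancel₀ hepos.ne', one_smul, add_assoc,
        ← Finset.sum_add_distrib]
      congr 1
      refine Finset.sum_congr rfl fun i _ => ?_
      rw [← add_smul]; congr 1; field_simp
    rw [e1]
    refine hv.sum_mem (fun i _ => by positivity) (by simp [hepos.ne']) fun i _ => ?_
    have h1 : |⟪b i, z⟫| ≤ 1 := by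
      refine (abs_real_inner_le_norm _ _).trans ?_
      simpa using hz
    have h2 := abs_le.1 h1
    exact hv.add_smul_mem hpC ((hYm y).1 hyY i) ⟨by linarith [h2.1], by linarith [h2.2]⟩
  · intro w hw
    have hsurj : Function.Surjective A0 :=
      (LinearMap.equivOfDetNeZero A0 (hA0det ▸ hdet0)).surjective
    obtain ⟨c, hc'⟩ := hsurj (w - p)
    have hci : ∀ i, |⟪b i, c⟫| ≤ 1 := by
      intro i
      have h1 : Function.update y i (w - p) ∈ Y := by
        rw [hYm]; intro j
        rcases eq_or_ne j i with rfl | hj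
        · simpa using hw
        · rw [Function.update_of_ne hj]; exact (hYm y).1 hyY j
      have h2 := hmax h1
      simp only [mem_ofPred_eq] at h2
      have h3 : b.toBasis.det (Function.update y i (w - p)) = ⟪b i, c⟫ * b.toBasis.det y := by
        rw [← hc', hA0]
        have := map_sum (b.toBasis.det.toMultilinearMap.toLinearMap y i)
          (fun j => ⟪b j, c⟫ • y j) Finset.univ
        simp only [MultilinearMap.toLinearMap_apply, AlternatingMap.coe_multilinearMap,
          map_smul, smul_eq_mul] at this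
        rw [this, Finset.sum_eq_single i]
        · simp
        · intro j _ hj
          rw [b.toBasis.det.map_update_self y hj.symm, mul_zero]
        · simp
      rw [h3, abs_mul] at h2
      have := abs_pos.2 hdet0
      nlinarith
    refine ⟨∑ i, (2 * e * ⟪b i, c⟫ - 1) • b i, ?_, ?_⟩
    · refine (norm_sum_le _ _).trans ?_
      refine (Finset.sum_le_card_nsmul _ _ (2 * e + 1 : ℝ) fun i _ => ?_).trans (by simp [mul_add])
      rw [norm_smul, b.orthonormal.1 i, mul_one, Real.norm_eq_abs]
      have h2 := abs_le.1 (hci i)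
      rw [abs_le]; constructor <;> nlinarith [h2.1, h2.2]
    · have hb : ∀ i, A0 (b i) = y i := by intro i; simp [A0]
      simp only [LinearMap.smul_apply, map_sum, map_smul, hb, Finset.smul_sum, smul_smul]
      rw [add_assoc, ← Finset.sum_add_distrib, ← sub_eq_iff_eq_add', ← hc', hA0]
      refine Finset.sum_congr rfl fun i _ => ?_
      rw [← add_smul]; congr 1; field_simp; ring

lemma det_adj (A : E →ₗ[ℝ] E) : LinearMap.det (LinearMap.adjoint A) = LinearMap.det A := by
  classical
  let b := stdOrthonormalBasis ℝ E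
  rw [← LinearMap.det_toMatrix b.toBasis, ← LinearMap.det_toMatrix b.toBasis A,
    LinearMap.toMatrix_adjoint, Matrix.det_conjTranspose]
  simp

variable [MeasurableSpace E] [BorelSpace E] (μ : Measure E) [μ.IsAddHaarMeasure]

lemma vol_ell (A : E →ₗ[ℝ] E) (x : E) (r : ℝ) (hr : 0 ≤ r) :
    μ.real ((fun z => x + A z) '' closedBall 0 r) =
      |LinearMap.det A| * r ^ finrank ℝ E * μ.real (closedBall (0 : E) 1) := by
  have : (fun z => x + A z) '' closedBall 0 r = (fun w => x + w) '' (A '' closedBall 0 r) := by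
    rw [image_image]
  rw [this, Measure.real, image_add_left, measure_preimage_add, Measure.addHaar_image_linearMap,
    Measure.addHaar_closedBall' μ 0 hr]
  simp only [ENNReal.toReal_mul, Measure.real]
  rw [ENNReal.toReal_ofReal (abs_nonneg _), ENNReal.toReal_ofReal (by positivity), mul_assoc]

lemma ell_compact (A : E →ₗ[ℝ] E) (x : E) (r : ℝ) :
    IsCompact ((fun z => x + A z) '' closedBall 0 r) :=
  (isCompact_closedBall 0 r).image (continuous_const.add A.continuous_of_finiteDimensional)

lemma vol_polar (A : E →ₗ[ℝ] E) (hA : LinearMap.det A ≠ 0) (u : E) (r : ℝ) (hr : 0 ≤ r) :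
    μ {w | ‖LinearMap.adjoint A (w - u)‖ ≤ r} =
      ENNReal.ofReal (|LinearMap.det A|⁻¹ * r ^ finrank ℝ E * μ.real (closedBall (0 : E) 1)) := by
  have : {w | ‖LinearMap.adjoint A (w - u)‖ ≤ r} =
      (fun w => w + -u) ⁻¹' ((LinearMap.adjoint A) ⁻¹' closedBall 0 r) := by
    ext w; simp [sub_eq_add_neg]
  rw [this, measure_preimage_add_right, Measure.addHaar_preimage_linearMap _ (by rwa [det_adj]),
    det_adj, Measure.addHaar_closedBall' μ 0 hr, abs_inv, mul_assoc,
    ENNReal.ofReal_mul (by positivity), ENNReal.ofReal_mul (by positivity), Measure.real,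
    ENNReal.ofReal_toReal (isCompact_closedBall _ _).measure_lt_top.ne]

omit [NormedAddCommGroup E] [InnerProductSpace ℝ E] [FiniteDimensional ℝ E] [BorelSpace E]
  [μ.IsAddHaarMeasure] in
lemma pack {ι : Type*} (u : Set ι) (M : ι → Set E) (hm : ∀ i ∈ u, MeasurableSet (M i))
    (hd : u.PairwiseDisjoint M) (B : Set E) (hB : ∀ i ∈ u, M i ⊆ B) (hBf : μ B ≠ ⊤) (a : ℝ)
    (ha0 : 0 < a) (ha : ∀ i ∈ u, a ≤ μ.real (M i)) :
    u.Finite ∧ (u.ncard : ℝ) * a ≤ μ.real B := by
  have key : ∀ F : Finset ι, (F : Set ι) ⊆ u → (F.card : ℝ) * a ≤ μ.real B := by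
    intro F hF
    have h1 : μ.real (⋃ i ∈ F, M i) = ∑ i ∈ F, μ.real (M i) :=
      measureReal_biUnion_finset (hd.subset hF) (fun i hi => hm i (hF hi))
        (fun i hi => ne_top_of_le_ne_top hBf (measure_mono (hB i (hF hi))))
    have h2 : μ.real (⋃ i ∈ F, M i) ≤ μ.real B :=
      measureReal_mono (iUnion₂_subset fun i hi => hB i (hF hi)) hBf
    have h3 : (F.card : ℝ) * a ≤ ∑ i ∈ F, μ.real (M i) := by
      have := Finset.card_nsmul_le_sum F (fun i => μ.real (M i)) a fun i hi => ha i (hF hi)
      simpa using this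
    linarith
  have hfin : u.Finite := by
    by_contra hinf
    obtain ⟨n, hn⟩ := exists_nat_gt (μ.real B / a)
    obtain ⟨F, hF, hc⟩ := Set.Infinite.exists_subset_card_eq hinf n
    have := key F hF
    rw [hc] at this
    rw [div_lt_iff₀ ha0] at hn
    linarith
  refine ⟨hfin, ?_⟩
  have := key hfin.toFinset (by simp)
  rwa [Set.ncard_eq_toFinset_card u hfin]

/-- The cap of `L` with normal `u`, apex `p` and height `h`. -/
def cap (L : Set E) (u p : E) (h : ℝ) : Set E := {y ∈ L | ⟪u, p - y⟫ ≤ h}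

omit [FiniteDimensional ℝ E] [MeasurableSpace E] [BorelSpace E] in
lemma cap_compact {L : Set E} (hL : IsCompact L) (u p : E) (h : ℝ) : IsCompact (cap L u p h) :=
  hL.inter_right (isClosed_le (f := fun y => ⟪u, p - y⟫) (by fun_prop) continuous_const)

omit [FiniteDimensional ℝ E] [MeasurableSpace E] [BorelSpace E] in
lemma cap_convex {L : Set E} (hL : Convex ℝ L) (u p : E) (h : ℝ) : Convex ℝ (cap L u p h) := by
  intro x hx y hy a b ha hb hab
  refine ⟨hL hx.1 hy.1 ha hb hab, ?_⟩
  have : p - (a • x + b • y) = a • (p - x) + b • (p - y) := by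
    rw [smul_sub, smul_sub, sub_add_sub_comm, ← add_smul, hab, one_smul]
  rw [this, inner_add_right, inner_smul_right, inner_smul_right]
  have h1 := hx.2
  have h2 := hy.2
  have : h = a * h + b * h := by rw [← add_mul, hab, one_mul]
  rw [this]
  gcongr

omit [FiniteDimensional ℝ E] [MeasurableSpace E] [BorelSpace E] in
lemma cap_mono (L : Set E) (u p : E) {h h' : ℝ} (hh : h ≤ h') : cap L u p h ⊆ cap L u p h' :=
  fun _ hy => ⟨hy.1, hy.2.trans hh⟩

lemma cap_scale {L : Set E} (hLc : IsCompact L) (hL : Convex ℝ L) (u p : E) (hp : p ∈ L) (h : ℝ)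
    (s : ℝ) (hs : 1 ≤ s) :
    μ.real (cap L u p (s * h)) ≤ s ^ finrank ℝ E * μ.real (cap L u p h) := by
  have hs0 : 0 < s := by linarith
  have hsub : cap L u p (s * h) ⊆ AffineMap.homothety p s '' cap L u p h := by
    intro y hy
    refine ⟨p + s⁻¹ • (y - p), ⟨hL.add_smul_sub_mem hp hy.1 ⟨by positivity, ?_⟩, ?_⟩, ?_⟩
    · exact inv_le_one_of_one_le₀ hs
    · have : p - (p + s⁻¹ • (y - p)) = s⁻¹ • (p - y) := by
        rw [← neg_sub p y, smul_neg]; abel
      rw [this, inner_smul_right, inv_mul_le_iff₀ hs0]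
      exact hy.2
    · simp [AffineMap.homothety_apply, smul_smul, hs0.ne']
  have h1 := measure_mono (μ := μ) hsub
  rw [Measure.addHaar_image_homothety, abs_of_pos (by positivity)] at h1
  have hf := (cap_compact hLc u p h).measure_lt_top (μ := μ)
  have := ENNReal.toReal_mono (ENNReal.mul_ne_top ENNReal.ofReal_ne_top hf.ne) h1
  rwa [ENNReal.toReal_mul, ENNReal.toReal_ofReal (by positivity)] at this

end Pool.Agent.H904Z.RP
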