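import Pool.Agent.H904Z.RP.Cover2

set_option autoImplicit false

namespace Pool.Agent.H904Z.RP

open MeasureTheory Filter Topology Metric Set Module
open scoped RealInnerProductSpace

variable {E : Type*} [NormedAddCommGroup E] [InnerProductSpace ℝ E]

lemma exists_frontier_ray {L : Set E} (hc : IsCompact L) {x0 y : E} (hy : y ∈ L) (hne : y ≠ x0) :
    ∃ p ∈ frontier L, ∃ ρ ∈ Icc (0 : ℝ) 1, y = x0 + ρ • (p - x0) := by
  obtain ⟨R, hR⟩ := hc.isBounded.subset_closedBall x0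
  have hn : 0 < ‖y - x0‖ := norm_pos_iff.2 (sub_ne_zero.2 hne)
  let S : Set ℝ := {τ | 1 ≤ τ ∧ x0 + τ • (y - x0) ∈ L}
  have hS1 : (1 : ℝ) ∈ S := ⟨le_rfl, by simpa using hy⟩
  have hScl : IsClosed S := (isClosed_le continuous_const continuous_id).inter
    (hc.isClosed.preimage (f := fun τ : ℝ => x0 + τ • (y - x0)) (by fun_prop))
  have hSb : BddAbove S := by
    refine ⟨R / ‖y - x0‖, fun τ hτ => ?_⟩
    have := hR hτ.2
    rw [mem_closedBall, dist_eq_norm, add_sub_cancel_left, norm_smul, Real.norm_eq_abs,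
      abs_of_pos (by linarith [hτ.1])] at this
    rwa [le_div_iff₀ hn]
  have hmem := hScl.csSup_mem ⟨1, hS1⟩ hSb
  set τ := sSup S with hτ
  have hτ1 : 1 ≤ τ := hmem.1
  refine ⟨x0 + τ • (y - x0), ⟨subset_closure hmem.2, fun hint => ?_⟩, τ⁻¹,
    ⟨by positivity, inv_le_one_of_one_le₀ hτ1⟩, ?_⟩
  · have ht : Tendsto (fun s : ℝ => x0 + s • (y - x0)) (𝓝[>] τ) (𝓝 (x0 + τ • (y - x0))) :=
      (Continuous.tendsto (f := fun s : ℝ => x0 + s • (y - x0)) (by fun_prop) τ).mono_left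
        nhdsWithin_le_nhds
    obtain ⟨s, h1, h2⟩ := ((ht.eventually (mem_interior_iff_mem_nhds.1 hint)).and
      self_mem_nhdsWithin).exists
    have h3 : τ < s := h2
    have : s ≤ τ := le_csSup hSb ⟨by linarith, h1⟩
    linarith
  · rw [add_sub_cancel_left, smul_smul, inv_mul_cancel₀ (by linarith), one_smul]; abel

variable [FiniteDimensional ℝ E] [MeasurableSpace E] [BorelSpace E] (μ : Measure E)
  [μ.IsAddHaarMeasure]

lemma cap_vol_le {L : Set E} {u p : E} (hu : ‖u‖ = 1) {M R : ℝ} (hM : 0 ≤ M) (hR : 0 ≤ R)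
    (hq : ∀ y ∈ L, ‖y - p‖ ^ 2 ≤ M * ⟪u, p - y⟫) (hap : IsApex L u p) (s : ℝ) (hs0 : 0 < s)
    (hs1 : s ≤ 1) :
    μ.real (cap L u p (s ^ 2 * R)) ≤
      s ^ (finrank ℝ E + 1) * ((1 + M * R + R) ^ finrank ℝ E * μ.real (closedBall (0 : E) 1)) := by
  let T : E →ₗ[ℝ] E := s • LinearMap.transvection ((innerSL ℝ u : E →L[ℝ] ℝ) : E →ₗ[ℝ] ℝ)
    ((s - 1) • u)
  have huu : ⟪u, u⟫ = 1 := by rw [real_inner_self_eq_norm_sq, hu]; norm_num
  have hdet : LinearMap.det T = s ^ (finrank ℝ E + 1) := by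
    simp only [T]
    rw [LinearMap.det_smul, LinearMap.transvection.det]
    simp only [ContinuousLinearMap.coe_coe, innerSL_apply_apply, inner_smul_right, huu]
    ring
  have hsub : cap L u p (s ^ 2 * R) ⊆ (fun z => p + T z) '' closedBall 0 (1 + M * R + R) := by
    intro y hy
    have h1 := hq y hy.1
    have h2 := hap.2 y hy.1
    have h3 := hy.2
    have h4 : ⟪u, y - p⟫ = -⟪u, p - y⟫ := by rw [← inner_neg_right, neg_sub]
    refine ⟨s⁻¹ • ((y - p) + ((s⁻¹ - 1) * ⟪u, y - p⟫) • u), ?_, ?_⟩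
    · rw [mem_closedBall, dist_zero_right, norm_smul, norm_inv, Real.norm_eq_abs, abs_of_pos hs0,
        inv_mul_le_iff₀ hs0]
      refine (norm_add_le _ _).trans ?_
      have h5 : ‖y - p‖ ≤ s * (1 + M * R) := by
        refine le_of_sq_le_sq (h1.trans ?_) (by positivity)
        have h6 : M * ⟪u, p - y⟫ ≤ M * (s ^ 2 * R) := by gcongr
        have h7 : M * R ≤ (1 + M * R) ^ 2 := by nlinarith [mul_nonneg hM hR]
        calc _ ≤ s ^ 2 * (M * R) := by linarith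
          _ ≤ s ^ 2 * (1 + M * R) ^ 2 := by gcongr
          _ = _ := by ring
      have h6 : ‖((s⁻¹ - 1) * ⟪u, y - p⟫) • u‖ ≤ s * R := by
        have h7 : 1 ≤ s⁻¹ := one_le_inv_iff₀.2 ⟨hs0, hs1⟩
        rw [norm_smul, hu, mul_one, Real.norm_eq_abs, abs_mul, h4, abs_neg, abs_of_nonneg h2,
          abs_of_nonneg (by linarith)]
        calc _ ≤ s⁻¹ * (s ^ 2 * R) := by gcongr; linarith
          _ = _ := by field_simp
      linarith
    · simp only [T, LinearMap.smul_apply, LinearMap.transvection.apply, ContinuousLinearMap.coe_coe,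
        innerSL_apply_apply, inner_smul_right, inner_add_right, huu]
      generalize ⟪u, y - p⟫ = a
      match_scalars <;> field_simp <;> ring
  have := measureReal_mono (μ := μ) hsub (ell_compact _ _ _).measure_lt_top.ne
  rw [vol_ell μ _ _ _ (by positivity), hdet, abs_of_pos (by positivity), mul_assoc] at this
  exact this

lemma lower (he : 1 ≤ finrank ℝ E) {L : Set E} (hL : IsBody L) (hH : Hcond L) :
    ∃ c C : ℝ, 0 < c ∧ 0 < C ∧ ∃ G : ℕ → Set E, (∀ k, MeasurableSet (G k)) ∧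
      Pairwise (Function.onFun Disjoint G) ∧ (∀ k, G k ⊆ L) ∧
      (∀ k, c * (4⁻¹ : ℝ) ^ k ≤ μ.real (G k)) ∧
      ∀ k, ∀ y ∈ G k, ∃ u p h, u ≠ 0 ∧ IsApex L u p ∧ 0 < h ∧ y ∈ cap L u p h ∧
        μ.real (cap L u p h) ≤ C * tau (finrank ℝ E) k := by
  set e := finrank ℝ E with hedef
  have : Nontrivial E := Module.nontrivial_of_finrank_pos (R := ℝ) he
  obtain ⟨x0, r, R, hr0, hR0, hr, hR⟩ := body_balls hL
  have hx0 : x0 ∈ L := hr (mem_closedBall_self hr0.le)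
  have hV : 0 < μ L := (measure_closedBall_pos μ _ hr0).trans_le (measure_mono hr)
  let Z : ℕ → Set (E × E) := fun M =>
    {q | q.1 ∈ L ∧ ‖q.2‖ = 1 ∧ ∀ y ∈ L, ‖y - q.1‖ ^ 2 ≤ M * ⟪q.2, q.1 - y⟫}
  have hZ : ∀ M, IsCompact (Z M) := by
    intro M
    refine (hL.1.prod (isCompact_sphere (0 : E) 1)).of_isClosed_subset ?_ ?_
    · refine (hL.1.isClosed.preimage continuous_fst).inter
        ((isClosed_eq (f := fun q : E × E => ‖q.2‖) (by fun_prop) continuous_const).inter ?_)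
      have : {q : E × E | ∀ y ∈ L, ‖y - q.1‖ ^ 2 ≤ M * ⟪q.2, q.1 - y⟫} =
          ⋂ y ∈ L, {q : E × E | ‖y - q.1‖ ^ 2 ≤ M * ⟪q.2, q.1 - y⟫} := by
        ext q; simp
      show IsClosed {q : E × E | ∀ y ∈ L, ‖y - q.1‖ ^ 2 ≤ M * ⟪q.2, q.1 - y⟫}
      rw [this]
      exact isClosed_biInter fun y _ => isClosed_le (by fun_prop) (by fun_prop)
    · intro q hq
      exact ⟨hq.1, by simpa using hq.2.1⟩
  let cone : ℕ → ℝ → Set E := fun M s =>
    (fun w : (E × E) × ℝ => x0 + w.2 • (w.1.1 - x0)) '' (Z M ×ˢ Icc 0 s)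
  have hcone : ∀ M s, IsCompact (cone M s) := fun M s =>
    ((hZ M).prod isCompact_Icc).image (by fun_prop)
  have hcov : L ⊆ {x0} ∪ ⋃ M, cone M 1 := by
    intro y hy
    rcases eq_or_ne y x0 with rfl | hne
    · exact Or.inl rfl
    obtain ⟨p, hp, ρ, hρ, rfl⟩ := exists_frontier_ray hL.1 hy hne
    obtain ⟨u, hu, M, hM⟩ := hH p hp
    exact Or.inr (mem_iUnion.2 ⟨M, ((p, u), ρ), ⟨⟨hL.1.isClosed.frontier_subset hp, hu, hM⟩, hρ⟩,
      rfl⟩)
  obtain ⟨M, hM⟩ : ∃ M, μ (cone M 1) ≠ 0 := by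
    by_contra hcon
    push Not at hcon
    have h1 : μ ({x0} ∪ ⋃ M, cone M 1) = 0 :=
      measure_union_null (measure_singleton _) (measure_iUnion_null hcon)
    exact hV.ne' (measure_mono_null hcov h1)
  set v := μ.real (cone M 1) with hv
  have hv0 : 0 < v := ENNReal.toReal_pos hM (hcone M 1).measure_lt_top.ne
  have hvol : ∀ s, 0 ≤ s → μ.real (cone M s) = s ^ e * v := by
    intro s hs
    have : cone M s = AffineMap.homothety x0 s '' cone M 1 := by
      ext y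
      simp only [cone, image_image, mem_image, AffineMap.homothety_apply, vsub_eq_sub,
        vadd_eq_add, add_sub_cancel_left, smul_smul]
      constructor
      · rintro ⟨⟨q, ρ⟩, ⟨h1, h2⟩, rfl⟩
        rcases hs.eq_or_lt with rfl | hs'
        · have : ρ = 0 := le_antisymm h2.2 h2.1
          exact ⟨(q, 0), ⟨h1, by simp⟩, by simp [this]⟩
        · refine ⟨(q, ρ / s), ⟨h1, div_nonneg h2.1 hs, (div_le_one hs').2 h2.2⟩, ?_⟩
          simp only
          rw [mul_div_cancel₀ _ hs'.ne', add_comm]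
      · rintro ⟨⟨q, ρ⟩, ⟨h1, h2⟩, rfl⟩
        exact ⟨(q, s * ρ), ⟨h1, mul_nonneg hs h2.1, mul_le_of_le_one_right hs h2.2⟩, add_comm _ _⟩
    rw [this, Measure.real, Measure.addHaar_image_homothety, ENNReal.toReal_mul,
      ENNReal.toReal_ofReal (abs_nonneg _), abs_of_nonneg (pow_nonneg hs _)]
    rfl
  have hmono : ∀ s s', s ≤ s' → cone M s ⊆ cone M s' := fun s s' h =>
    image_mono (prod_mono subset_rfl (Icc_subset_Icc le_rfl h))
  have hq1 : ∀ k : ℕ, (4⁻¹ : ℝ) ^ k ≤ 1 := fun k => pow_le_one₀ (by norm_num) (by norm_num)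
  have hqa : ∀ k l : ℕ, k ≤ l → 1 - (4⁻¹ : ℝ) ^ k ≤ 1 - (4⁻¹ : ℝ) ^ l := fun k l h => by
    have := pow_le_pow_of_le_one (by norm_num : (0 : ℝ) ≤ 4⁻¹) (by norm_num) h
    linarith
  have hω0 : 0 < μ.real (closedBall (0 : E) 1) :=
    ENNReal.toReal_pos (measure_closedBall_pos μ _ one_pos).ne'
      (isCompact_closedBall _ _).measure_lt_top.ne
  refine ⟨(3 / 4) ^ e * v, (1 + M * R + R) ^ e * μ.real (closedBall (0 : E) 1), by positivity,
    by positivity, fun k => cone M (1 - 4⁻¹ ^ (k + 1)) \ cone M (1 - 4⁻¹ ^ k), ?_, ?_, ?_, ?_, ?_⟩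
  · exact fun k => (hcone _ _).measurableSet.diff (hcone _ _).measurableSet
  · refine (Std.Symm.pairwise_on _).2 ?_
    intro k l hkl
    exact Set.disjoint_left.2 fun y h1 h2 => h2.2 (hmono _ _ (hqa _ _ hkl) h1.1)
  · rintro k _ ⟨⟨⟨q, ρ⟩, ⟨h1, h2⟩, rfl⟩, -⟩
    refine hL.2.1.add_smul_sub_mem hx0 h1.1 ⟨h2.1, h2.2.trans ?_⟩
    have : (0 : ℝ) < 4⁻¹ ^ (k + 1) := by positivity
    linarith
  · intro k
    rw [measureReal_diff (hmono _ _ (hqa _ _ (Nat.le_succ k))) (hcone _ _).measurableSet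
      (hcone _ _).measure_lt_top.ne, hvol _ (sub_nonneg.2 (hq1 _)),
      hvol _ (by linarith [hq1 k]), ← sub_mul, mul_right_comm]
    gcongr
    obtain ⟨e', he'⟩ : ∃ e', e = e' + 1 := ⟨e - 1, by omega⟩
    rw [he']
    set a : ℝ := 1 - 4⁻¹ ^ (k + 1) with ha
    set b : ℝ := 1 - 4⁻¹ ^ k with hb
    have h1 : b ≤ a := hqa _ _ (Nat.le_succ k)
    have h2 : 0 ≤ b := by linarith [hq1 k]
    have h3 : 3 / 4 ≤ a := by have := hq1 k; rw [ha, pow_succ]; linarith
    have h4 : b ^ e' ≤ a ^ e' := pow_le_pow_left₀ h2 h1 _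
    have h5 : (3 / 4 : ℝ) ^ e' ≤ a ^ e' := pow_le_pow_left₀ (by norm_num) h3 _
    have h6 : a - b = 3 / 4 * 4⁻¹ ^ k := by rw [ha, hb, pow_succ]; ring
    have h7 : (0 : ℝ) < 4⁻¹ ^ k := by positivity
    calc _ = (3 / 4 : ℝ) ^ e' * (a - b) := by rw [h6]; ring
      _ ≤ a ^ e' * (a - b) := by gcongr
      _ ≤ _ := by rw [pow_succ, pow_succ]; nlinarith
  · rintro k _ ⟨⟨⟨⟨p, u⟩, ρ⟩, ⟨h1, h2⟩, rfl⟩, h3⟩
    have h4 : 1 - 4⁻¹ ^ k < ρ := by
      by_contra hcon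
      push Not at hcon
      exact h3 ⟨((p, u), ρ), ⟨h1, h2.1, hcon⟩, rfl⟩
    obtain ⟨hp, hu, hq⟩ := h1
    simp only at hp hu hq h2 ⊢
    have hap : IsApex L u p := by
      refine ⟨hp, fun y hy => ?_⟩
      by_contra hneg
      push Not at hneg
      have h5 := hq y hy
      have h6 : (M : ℝ) * ⟪u, p - y⟫ ≤ 0 := mul_nonpos_of_nonneg_of_nonpos (by positivity) hneg.le
      have h7 : ‖y - p‖ = 0 := by nlinarith [norm_nonneg (y - p)]
      rw [norm_eq_zero, sub_eq_zero] at h7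
      simp [h7] at hneg
    have hρ1 : ρ ≤ 1 := by
      have : (0 : ℝ) < 4⁻¹ ^ (k + 1) := by positivity
      linarith [h2.2]
    refine ⟨u, p, (2⁻¹ ^ k) ^ 2 * R, by rintro rfl; simp at hu, hap, by positivity,
      ⟨hL.2.1.add_smul_sub_mem hx0 hp ⟨h2.1, hρ1⟩, ?_⟩, ?_⟩
    · have e1 : p - (x0 + ρ • (p - x0)) = (1 - ρ) • (p - x0) := by module
      rw [e1, inner_smul_right]
      have h5 : ⟪u, p - x0⟫ ≤ R := by
        refine (real_inner_le_norm _ _).trans ?_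
        rw [hu, one_mul]
        simpa [dist_eq_norm] using hR hp
      have h6 : ((2 : ℝ)⁻¹ ^ k) ^ 2 = 4⁻¹ ^ k := by
        rw [← pow_mul, mul_comm, pow_mul]; norm_num
      rw [h6]
      have h7 := hap.2 x0 hx0
      gcongr
      linarith
    · refine (cap_vol_le μ hu (by positivity) hR0.le hq hap _ (by positivity)
        (pow_le_one₀ (by norm_num) (by norm_num))).trans (le_of_eq ?_)
      rw [← hedef, tau, pow_mul, mul_comm]

end Pool.Agent.H904Z.RP
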