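import Pool.Agent.H904Z.RP.Prod

set_option autoImplicit false

namespace Pool.Agent.H904Z.RP

open MeasureTheory Filter Topology Set Module Metric
open scoped ENNReal RealInnerProductSpace

lemma deficit_eq {V : Type*} [NormedAddCommGroup V] [NormedSpace ℝ V] [FiniteDimensional ℝ V]
    [MeasureSpace V] [BorelSpace V] (L : Set V) (hc : MeasurableSet L) (hv : Convex ℝ L)
    (h0 : volume L ≠ 0) (hf : volume L ≠ ⊤) (n : ℕ) :
    expDeficit L n = (volume L).toReal * (Dn (ProbabilityTheory.cond volume L) n).toReal := by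
  have hP : IsProbabilityMeasure (ProbabilityTheory.cond volume L) :=
    ProbabilityTheory.cond_isProbabilityMeasure_of_finite h0 hf
  set ν := ProbabilityTheory.cond volume L with hν
  have hm := meas_notconv (V := V) n
  have hf' := measurable_measure_prodMk_right (μ := ν) hm
  have h1 : (fun x : Fin n → V => (volume (convexHull ℝ (range x))).toReal) =ᵐ[sample L n]
      fun x => (volume L).toReal * (1 - (ν ((fun y => (y, x)) ⁻¹'
        {q : V × (Fin n → V) | q.1 ∉ convexHull ℝ (range q.2)})).toReal) := by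
    have h2 : ∀ᵐ x ∂(sample L n), ∀ i, x i ∈ L :=
      ae_all_iff.2 fun i => (Measure.tendsto_eval_ae_ae (i := i)).eventually
        (ProbabilityTheory.ae_cond_mem hc)
    filter_upwards [h2] with x hx
    have h3 : convexHull ℝ (range x) ⊆ L := convexHull_min (range_subset_iff.2 hx) hv
    have h4 : MeasurableSet (convexHull ℝ (range x)) :=
      ((finite_range _).isCompact_convexHull ℝ).measurableSet
    have h5 : ((fun y => (y, x)) ⁻¹' {q : V × (Fin n → V) | q.1 ∉ convexHull ℝ (range q.2)}) =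
        (convexHull ℝ (range x))ᶜ := rfl
    rw [h5, ← measureReal_def ν, probReal_compl_eq_one_sub h4, sub_sub_cancel, Measure.real, hν,
      ProbabilityTheory.cond_apply hc, inter_eq_self_of_subset_right h3, ENNReal.toReal_mul,
      ENNReal.toReal_inv, mul_inv_cancel_left₀ (ENNReal.toReal_ne_zero.2 ⟨h0, hf⟩)]
  have hPs : IsProbabilityMeasure (sample L n) := by unfold sample; infer_instance
  rw [expDeficit, integral_congr_ae h1, integral_const_mul, integral_sub (integrable_const _),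
    integral_toReal hf'.aemeasurable (Eventually.of_forall fun x => measure_lt_top _ _), Dn,
    Measure.prod_apply_symm hm]
  · simp only [integral_const, probReal_univ, smul_eq_mul, mul_one]
    rw [sample]; ring
  · refine Integrable.of_bound hf'.ennreal_toReal.aestronglyMeasurable 1
      (Eventually.of_forall fun x => ?_)
    rw [Real.norm_eq_abs, abs_of_nonneg ENNReal.toReal_nonneg]
    exact measureReal_le_one

theorem prod_main {m : ℕ} {d : Fin m → ℕ} (hm : 1 ≤ m) (hd : ∀ i, 1 ≤ d i)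
    {K : ∀ i, Set (Ed d i)} (hK : ∀ i, IsBody (K i)) (hH : ∀ i, Hcond (K i)) :
    ∃ c C : ℝ, 0 < c ∧ 0 < C ∧ ∀ n : ℕ, 2 * ∑ i, d i ≤ n → 0 < (Sf (tauP d) wP n).toReal ∧
      (∀ j < ∑ i, d i, c * (n * (Sf (tauP d) wP n).toReal) ≤ expFaces (Set.pi univ K) j n ∧
        expFaces (Set.pi univ K) j n ≤ C * (n * (Sf (tauP d) wP n).toReal)) ∧
      c * (Sf (tauP d) wP n).toReal ≤ expDeficit (Set.pi univ K) n ∧
      expDeficit (Set.pi univ K) n ≤ C * (Sf (tauP d) wP n).toReal := by
  have hb := pi_body hK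
  have hvol := hb.1.measure_lt_top (μ := volume)
  have h0 : volume (Set.pi univ K) ≠ 0 := (Measure.measure_pos_of_nonempty_interior _ hb.2.2).ne'
  have hP : IsProbabilityMeasure (ProbabilityTheory.cond volume (Set.pi univ K)) :=
    ProbabilityTheory.cond_isProbabilityMeasure_of_finite h0 hvol.ne
  have hrk : finrank ℝ (∀ i, Ed d i) = ∑ i, d i := by
    rw [Module.finrank_pi_fintype]; simp [Ed]
  have hd1 : 1 ≤ ∑ i, d i :=
    (hd ⟨0, hm⟩).trans (Finset.single_le_sum (fun i _ => Nat.zero_le _) (Finset.mem_univ _))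
  obtain ⟨c, C, hc, hC, h⟩ := abstract_main (ProbabilityTheory.cond volume (Set.pi univ K))
    (fun s hs => ProbabilityTheory.cond_absolutelyContinuous
      (Measure.addHaar_affineSubspace volume s hs)) (by omega) (scales hm d) (up_prod hm hd hK)
    (lo_prod hm hd hK hH)
  rw [hrk] at h
  set v := (volume (Set.pi univ K)).toReal with hv
  have hv0 : 0 < v := ENNReal.toReal_pos h0 hvol.ne
  refine ⟨c * min 1 v, C * max 1 v, by positivity, by positivity, fun n hn => ?_⟩
  obtain ⟨h1, h2, h3, h4⟩ := h n hn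
  have e1 : c * min 1 v ≤ c := mul_le_of_le_one_right hc.le (min_le_left _ _)
  have e2 : C ≤ C * max 1 v := le_mul_of_one_le_right hC.le (le_max_left _ _)
  refine ⟨h1, fun j hj => ⟨le_trans (by gcongr) (h2 j hj).1, (h2 j hj).2.trans (by gcongr)⟩, ?_, ?_⟩
  · rw [deficit_eq _ hb.1.measurableSet hb.2.1 h0 hvol.ne, ← hv]
    calc _ = min 1 v * (c * (Sf (tauP d) wP n).toReal) := by ring
      _ ≤ _ := by gcongr; exact min_le_right _ _
  · rw [deficit_eq _ hb.1.measurableSet hb.2.1 h0 hvol.ne, ← hv]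
    calc _ ≤ max 1 v * (C * (Sf (tauP d) wP n).toReal) := by gcongr; exact le_max_right _ _
      _ = _ := by ring

lemma asymp_of {a b s : ℕ → ℝ} {c C c' C' : ℝ} (hc : 0 < c) (hC : 0 < C) (hc' : 0 < c')
    (hC' : 0 < C') (n0 : ℕ) (h : ∀ n ≥ n0, 0 < s n ∧ c * s n ≤ a n ∧ a n ≤ C * s n ∧
      c' * s n ≤ b n ∧ b n ≤ C' * s n) : Asymp a b := by
  refine ⟨c / C', max (c / C') (C / c'), by positivity, le_max_left _ _, n0, fun n hn => ?_⟩
  obtain ⟨h0, h1, h2, h3, h4⟩ := h n hn
  have hb : 0 < b n := lt_of_lt_of_le (by positivity) h3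
  refine ⟨lt_of_lt_of_le (by positivity) h1, hb, ?_, ?_⟩
  · calc _ ≤ c / C' * (C' * s n) := by gcongr
      _ = c * s n := by field_simp
      _ ≤ _ := h1
  · calc _ ≤ C / c' * (c' * s n) := by rw [← mul_assoc, div_mul_cancel₀ _ hc'.ne']; exact h2
      _ ≤ _ := by gcongr; exact le_max_right _ _

theorem main (m : ℕ) (hm : 1 ≤ m) (d : Fin m → ℕ) (hd : ∀ i, 1 ≤ d i)
    (K : ∀ i, Set (EuclideanSpace ℝ (Fin (d i)))) (hK : ∀ i, IsBody (K i))
    (hc : ∀ i, PosCurv (K i)) :
    (∀ j < ∑ i, d i, Asymp (expFaces (Set.pi univ K) j)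
      (expFaces (Set.pi univ fun i => closedBall (0 : EuclideanSpace ℝ (Fin (d i))) 1) j)) ∧
    Asymp (expDeficit (Set.pi univ K))
      (expDeficit (Set.pi univ fun i => closedBall (0 : EuclideanSpace ℝ (Fin (d i))) 1)) := by
  obtain ⟨c, C, h1, h2, h3⟩ := prod_main hm hd hK fun i => hcond_of_posCurv _ (hK i) (hc i)
  obtain ⟨c', C', h1', h2', h3'⟩ := prod_main hm hd
    (K := fun i => closedBall (0 : EuclideanSpace ℝ (Fin (d i))) 1)
    (fun i => ⟨isCompact_closedBall _ _, convex_closedBall _ _,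
      ⟨0, mem_interior_iff_mem_nhds.2 (closedBall_mem_nhds _ one_pos)⟩⟩) fun i => hcond_ball
  have hd1 : 1 ≤ ∑ i, d i :=
    (hd ⟨0, hm⟩).trans (Finset.single_le_sum (fun i _ => Nat.zero_le _) (Finset.mem_univ _))
  refine ⟨fun j hj => asymp_of (s := fun n => n * (Sf (tauP d) wP n).toReal) h1 h2 h1' h2'
    (2 * ∑ i, d i) fun n hn => ?_,
    asymp_of (s := fun n => (Sf (tauP d) wP n).toReal) h1 h2 h1' h2' (2 * ∑ i, d i) fun n hn => ?_⟩
  · have hn0 : (0 : ℝ) < n := by
      have : 0 < n := by omega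
      exact_mod_cast this
    exact ⟨mul_pos hn0 (h3 n hn).1, ((h3 n hn).2.1 j hj).1, ((h3 n hn).2.1 j hj).2,
      ((h3' n hn).2.1 j hj).1, ((h3' n hn).2.1 j hj).2⟩
  · exact ⟨(h3 n hn).1, (h3 n hn).2.2.1, (h3 n hn).2.2.2, (h3' n hn).2.2.1, (h3' n hn).2.2.2⟩

end Pool.Agent.H904Z.RP
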