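import Pool.Agent.H904Z.RP.GP

set_option autoImplicit false

namespace Pool.Agent.H904Z.RP

open MeasureTheory Filter Topology Set Module Metric
open scoped ENNReal

section S
variable {A : Type*}

noncomputable def Sf (τ w : A → ℝ) (a : ℝ) : ℝ≥0∞ :=
  ∑' k, ENNReal.ofReal (w k * Real.exp (-(a * τ k)))

structure Scales (τ w : A → ℝ) : Prop where
  τ0 : ∀ k, 0 < τ k
  τ1 : ∀ k, τ k ≤ 1
  w0 : ∀ k, 0 < w k
  shift : ∀ M : ℕ, ∃ (σ : A → A) (c : ℝ), 0 < c ∧ Function.Injective σ ∧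
    ∀ k, τ (σ k) ≤ (2⁻¹ : ℝ) ^ M * τ k ∧ c * w k ≤ w (σ k)

lemma Sf_anti {τ w : A → ℝ} (h : Scales τ w) {a b : ℝ} (hab : a ≤ b) : Sf τ w b ≤ Sf τ w a := by
  refine ENNReal.tsum_le_tsum fun k => ENNReal.ofReal_le_ofReal ?_
  have := h.τ0 k
  have := h.w0 k
  gcongr

lemma Sf_doubling {τ w : A → ℝ} (h : Scales τ w) (ε : ℝ) (hε : 0 < ε) :
    ∃ C : ℝ, 0 < C ∧ ∀ a, 0 ≤ a → Sf τ w (ε * a) ≤ ENNReal.ofReal C * Sf τ w a := by
  obtain ⟨M, hM⟩ := exists_pow_lt_of_lt_one hε (by norm_num : (2⁻¹ : ℝ) < 1)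
  obtain ⟨σ, c, hc, hσ, h1⟩ := h.shift M
  refine ⟨c⁻¹, by positivity, fun a ha => ?_⟩
  have h2 := ENNReal.tsum_comp_le_tsum_of_injective hσ
    (fun k => ENNReal.ofReal (w k * Real.exp (-(a * τ k))))
  refine le_trans ?_ (mul_le_mul_right h2 _)
  rw [← ENNReal.tsum_mul_left]
  refine ENNReal.tsum_le_tsum fun k => ?_
  rw [← ENNReal.ofReal_mul (by positivity)]
  refine ENNReal.ofReal_le_ofReal ?_
  have h3 := h.τ0 k
  have h4 := h.w0 k
  have h5 : a * τ (σ k) ≤ ε * a * τ k := by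
    calc _ ≤ a * (ε * τ k) := by
          gcongr
          exact (h1 k).1.trans (by gcongr)
      _ = _ := by ring
  rw [le_inv_mul_iff₀ hc, ← mul_assoc]
  exact mul_le_mul (h1 k).2 (by gcongr) (by positivity) (h.w0 _).le

lemma Sf_pos [Nonempty A] {τ w : A → ℝ} (h : Scales τ w) (a : ℝ) : 0 < Sf τ w a := by
  obtain ⟨k⟩ := ‹Nonempty A›
  refine lt_of_lt_of_le ?_ (ENNReal.le_tsum k)
  have := h.w0 k
  exact ENNReal.ofReal_pos.2 (by positivity)

end S

variable {V : Type*} [NormedAddCommGroup V] [NormedSpace ℝ V] [FiniteDimensional ℝ V]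
  [MeasurableSpace V] [BorelSpace V] {A : Type*} [Countable A]

def UP (ν : Measure V) (τ w : A → ℝ) : Prop :=
  ∃ c0 C : ℝ, 0 < c0 ∧ 0 < C ∧ ∃ 𝒬 : A → Finset (Set V),
    (∀ k, ∀ Q ∈ 𝒬 k, MeasurableSet Q ∧ ν.real Q ≤ C * τ k) ∧
    (∀ k, ((𝒬 k).card : ℝ) * τ k ≤ C * w k) ∧
    ∃ K0 : Set V, (∀ᵐ y ∂ν, y ∈ K0) ∧ ∀ (l : V →L[ℝ] ℝ) (c : ℝ), l ≠ 0 → (∃ y ∈ K0, c ≤ l y) →
      ∃ k, ∃ Q ∈ 𝒬 k, (∀ y ∈ K0, c ≤ l y → y ∈ Q) ∧ c0 * τ k ≤ ν.real {y | c ≤ l y}

def LO (ν : Measure V) (τ w : A → ℝ) : Prop :=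
  ∃ c C : ℝ, 0 < c ∧ 0 < C ∧ ∃ G : A → Set V, (∀ k, MeasurableSet (G k)) ∧
    Pairwise (Function.onFun Disjoint G) ∧ (∀ k, c * w k ≤ ν.real (G k)) ∧
    ∀ k, ∀ y ∈ G k, ∃ l : V →L[ℝ] ℝ, ν.real {v | l y ≤ l v} ≤ C * τ k

/-- probability that a further point is outside the convex hull of `n` points -/
noncomputable def Dn (ν : Measure V) (n : ℕ) : ℝ≥0∞ :=
  (ν.prod (Measure.pi fun _ : Fin n => ν)) {q | q.1 ∉ convexHull ℝ (range q.2)}

lemma meas_notconv (n : ℕ) :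
    MeasurableSet {q : V × (Fin n → V) | q.1 ∉ convexHull ℝ (range q.2)} :=
  (isClosed_conv (V := V) (ι := Fin n)).measurableSet.compl

lemma Dn_lower (ν : Measure V) [IsProbabilityMeasure ν] {τ w : A → ℝ} (h : Scales τ w)
    (hLO : LO ν τ w) :
    ∃ c : ℝ, 0 < c ∧ ∀ n : ℕ, ENNReal.ofReal c * Sf τ w n ≤ Dn ν n := by
  obtain ⟨c, C, hc, hC, G, hGm, hGd, hGv, hG⟩ := hLO
  obtain ⟨M, hM⟩ := exists_pow_lt_of_lt_one (by positivity : 0 < (2 * C)⁻¹)
    (by norm_num : (2⁻¹ : ℝ) < 1)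
  obtain ⟨σ, c', hc', hσ, h1⟩ := h.shift M
  refine ⟨c * c', by positivity, fun n => ?_⟩
  rw [Dn, Measure.prod_apply (meas_notconv n)]
  refine le_trans ?_ (setLIntegral_le_lintegral (⋃ k, G (σ k)) _)
  rw [lintegral_iUnion (s := fun k => G (σ k)) (fun k => hGm _)
    (fun a b hab => hGd (hσ.ne hab)), Sf,
    ← ENNReal.tsum_mul_left]
  refine ENNReal.tsum_le_tsum fun k => ?_
  have hτ := h.τ0 k
  have hw := h.w0 k
  have key : ∀ y ∈ G (σ k), ENNReal.ofReal (Real.exp (-(n * τ k))) ≤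
      (Measure.pi fun _ : Fin n => ν)
        (Prod.mk y ⁻¹' {q : V × (Fin n → V) | q.1 ∉ convexHull ℝ (range q.2)}) := by
    intro y hy
    obtain ⟨l, hl⟩ := hG _ y hy
    have hsub : (Set.pi univ fun _ : Fin n => {v | l y ≤ l v}ᶜ) ⊆
        Prod.mk y ⁻¹' {q : V × (Fin n → V) | q.1 ∉ convexHull ℝ (range q.2)} := by
      intro x hx hmem
      have : convexHull ℝ (range x) ⊆ {v | l v < l y} := by
        refine convexHull_min ?_ (convex_halfSpace_lt (l : V →ₗ[ℝ] ℝ).isLinear _)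
        rintro _ ⟨i, rfl⟩
        simpa using hx i (mem_univ _)
      exact lt_irrefl (l y) (this hmem)
    refine le_trans ?_ (measure_mono hsub)
    rw [Measure.pi_pi]
    simp only [Finset.prod_const, Finset.card_univ, Fintype.card_fin]
    have hm : MeasurableSet {v | l y ≤ l v} :=
      (isClosed_le continuous_const l.continuous).measurableSet
    rw [← ofReal_measureReal (measure_ne_top _ _), probReal_compl_eq_one_sub hm,
      ← ENNReal.ofReal_pow (sub_nonneg.2 measureReal_le_one)]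
    refine ENNReal.ofReal_le_ofReal ?_
    rw [← mul_neg, Real.exp_nat_mul]
    gcongr
    have h2 : C * τ (σ k) ≤ τ k / 2 := by
      calc _ ≤ C * ((2 * C)⁻¹ * τ k) := by
            gcongr
            exact (h1 k).1.trans (by gcongr)
        _ = _ := by field_simp
    have h3 := Real.add_one_le_exp (τ k)
    have h4 := h.τ1 k
    rw [Real.exp_neg, inv_le_iff_one_le_mul₀ (Real.exp_pos _)]
    calc (1 : ℝ) ≤ (1 - τ k / 2) * (τ k + 1) := by nlinarith
      _ ≤ _ := by gcongr <;> linarith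
  refine le_trans ?_ (setLIntegral_mono' (hGm _) key)
  rw [setLIntegral_const, ← ofReal_measureReal (measure_ne_top _ _),
    ← ENNReal.ofReal_mul (by positivity), ← ENNReal.ofReal_mul (by positivity)]
  refine ENNReal.ofReal_le_ofReal ?_
  have h2 := hGv (σ k)
  have h3 := (h1 k).2
  calc _ = Real.exp (-(n * τ k)) * (c * (c' * w k)) := by ring
    _ ≤ _ := by gcongr; exact le_trans (by gcongr) h2

lemma supp_upper' (ν : Measure V) [IsProbabilityMeasure ν]
    (hnull : ∀ s : AffineSubspace ℝ V, s ≠ ⊤ → ν s = 0) (hd : 1 ≤ finrank ℝ V)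
    {τ w : A → ℝ} (h : Scales τ w) (hUP : UP ν τ w) :
    ∃ C : ℝ, 0 < C ∧ ∀ n : ℕ, 2 * finrank ℝ V ≤ n → ∀ (p : Fin n → Prop) [DecidablePred p],
      Fintype.card {i // p i} = finrank ℝ V →
      (n : ℝ≥0∞) ^ (finrank ℝ V - 1) *
        Measure.pi (fun _ : Fin n => ν) {x | Supp x (Finset.univ.filter p)} ≤
        ENNReal.ofReal C * Sf τ w n := by
  classical
  obtain ⟨c0, C, hc0, hC, 𝒬, hQ, hcard, K0, hK0, hcov⟩ := hUP
  set d := finrank ℝ V with hddef
  obtain ⟨C1, hC1, hdb⟩ := Sf_doubling h (c0 / 4) (by positivity)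
  set C2 : ℝ := C ^ (d + 1) * ((d - 1).factorial * (4 / c0) ^ (d - 1)) with hC2
  refine ⟨2 * C2 * C1, by positivity, fun n hn p _ hp => ?_⟩
  have hN : Fintype.card {i // ¬ p i} = n - d := by
    rw [Fintype.card_subtype_compl, hp, Fintype.card_fin]
  set N := n - d with hNdef
  let F : ({i // p i} → V) → ℝ≥0∞ := fun z => ∑' k, ∑ Q ∈ 𝒬 k,
    (Set.pi univ fun _ => Q).indicator (fun _ => ENNReal.ofReal (Real.exp (-(c0 * N * τ k)))) z
  have h1 := supp_bound ν hnull hd p hp F (by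
    have h2 : ∀ᵐ z ∂(Measure.pi fun _ : {i // p i} => ν), ∀ s, z s ∈ K0 :=
      ae_all_iff.2 fun s => (Measure.tendsto_eval_ae_ae (i := s)).eventually hK0
    refine h2.mono fun z hz l c hl hlc => ?_
    obtain ⟨s0⟩ : Nonempty {i // p i} := Fintype.card_pos_iff.1 (by omega)
    obtain ⟨k, Q, hQk, h3, h4⟩ := hcov l c hl ⟨z s0, hz s0, (hlc s0).ge⟩
    refine le_trans ?_ (ENNReal.le_tsum k)
    refine le_trans ?_ (Finset.single_le_sum (fun _ _ => zero_le) hQk)
    rw [indicator_of_mem (show z ∈ Set.pi univ fun _ => Q from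
      fun s _ => h3 _ (hz s) (hlc s).ge)]
    have h5 : ν {y | l y = c} = 0 := by
      obtain ⟨v, hv⟩ : ∃ v, l v ≠ 0 := by
        by_contra h; push Not at h; exact hl (ContinuousLinearMap.ext h)
      refine measure_mono_null (t := (AffineSubspace.mk' (z s0) (LinearMap.ker (l : V →ₗ[ℝ] ℝ))))
        (fun y hy => ?_) (hnull _ fun htop => ?_)
      · have : l y = c := hy
        simp [AffineSubspace.mem_mk', this, hlc s0]
      · have : z s0 + v ∈ AffineSubspace.mk' (z s0) (LinearMap.ker (l : V →ₗ[ℝ] ℝ)) := by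
          rw [htop]; trivial
        simp [AffineSubspace.mem_mk', hv] at this
    have hm : MeasurableSet {y | c ≤ l y} :=
      (isClosed_le continuous_const l.continuous).measurableSet
    have h6 : ν {y | l y ≤ c} ≤ ENNReal.ofReal (Real.exp (-(c0 * τ k))) := by
      have h7 : {y | l y ≤ c} ⊆ {y | c ≤ l y}ᶜ ∪ {y | l y = c} := fun y hy => by
        rcases (show l y ≤ c from hy).lt_or_eq with h | h
        · left; simpa using h
        · right; exact h
      refine (measure_mono h7).trans ((measure_union_le _ _).trans ?_)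
      rw [h5, add_zero, ← ofReal_measureReal (measure_ne_top _ _), probReal_compl_eq_one_sub hm]
      refine ENNReal.ofReal_le_ofReal ?_
      linarith [Real.add_one_le_exp (-(c0 * τ k))]
    rw [hN]
    refine (pow_le_pow_left' h6 N).trans (le_of_eq ?_)
    rw [← ENNReal.ofReal_pow (Real.exp_pos _).le, ← Real.exp_nat_mul]
    congr 2; ring)
  have h2 : (n : ℝ≥0∞) ^ (d - 1) *
      ∫⁻ z, F z ∂(Measure.pi fun _ : {i // p i} => ν) ≤
      ENNReal.ofReal C2 * Sf τ w (c0 / 4 * n) := by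
    have hmeas : ∀ k, ∀ Q ∈ 𝒬 k, MeasurableSet (Set.pi univ fun _ : {i // p i} => Q) :=
      fun k Q hQk => MeasurableSet.univ_pi fun _ => (hQ k Q hQk).1
    rw [lintegral_tsum (fun k => (Finset.measurable_sum _ fun Q hQk =>
      measurable_const.indicator (hmeas k Q hQk)).aemeasurable), Sf, ← ENNReal.tsum_mul_left,
      ← ENNReal.tsum_mul_left]
    refine ENNReal.tsum_le_tsum fun k => ?_
    rw [lintegral_finsetSum _ fun Q hQk => measurable_const.indicator (hmeas k Q hQk)]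
    have hτ := h.τ0 k
    have hw := h.w0 k
    have h3 : ∀ Q ∈ 𝒬 k, ∫⁻ z, (Set.pi univ fun _ : {i // p i} => Q).indicator
        (fun _ => ENNReal.ofReal (Real.exp (-(c0 * N * τ k)))) z
        ∂(Measure.pi fun _ : {i // p i} => ν) ≤
        ENNReal.ofReal (Real.exp (-(c0 * N * τ k)) * (C * τ k) ^ d) := by
      intro Q hQk
      rw [lintegral_indicator_const (hmeas k Q hQk), Measure.pi_pi,
        ENNReal.ofReal_mul (Real.exp_pos _).le, ENNReal.ofReal_pow (by positivity)]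
      simp only [Finset.prod_const, Finset.card_univ]
      rw [hp]
      gcongr
      rw [← ofReal_measureReal (measure_ne_top _ _)]
      exact ENNReal.ofReal_le_ofReal (hQ k Q hQk).2
    refine (mul_le_mul_right (Finset.sum_le_card_nsmul _ _ _ h3) _).trans ?_
    rw [nsmul_eq_mul, ← ENNReal.ofReal_natCast n, ← ENNReal.ofReal_natCast (𝒬 k).card,
      ← ENNReal.ofReal_pow (by positivity), ← ENNReal.ofReal_mul (by positivity),
      ← ENNReal.ofReal_mul (by positivity), ← ENNReal.ofReal_mul (by positivity)]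
    refine ENNReal.ofReal_le_ofReal ?_
    obtain ⟨d', hd'⟩ : ∃ d', d = d' + 1 := ⟨d - 1, by omega⟩
    have hd'' : d - 1 = d' := by omega
    have h4 := Real.pow_div_factorial_le_exp (c0 / 4 * n * τ k) (by positivity) d'
    rw [div_le_iff₀ (by positivity)] at h4
    have h5 : (n : ℝ) ≤ 2 * N := by
      have : n ≤ 2 * N := by omega
      exact_mod_cast this
    have h6 : Real.exp (c0 / 4 * n * τ k) * Real.exp (-(c0 * N * τ k)) ≤
        Real.exp (-(c0 / 4 * n * τ k)) := by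
      rw [← Real.exp_add]
      gcongr
      have : c0 * τ k * n ≤ c0 * τ k * (2 * N) := by gcongr
      nlinarith
    have h7 := hcard k
    rw [hC2, hd'', hd']
    calc _ = ((𝒬 k).card * τ k) * C ^ (d' + 1) * (4 / c0) ^ d' * (c0 / 4 * n * τ k) ^ d' *
          Real.exp (-(c0 * N * τ k)) := by
          have e1 : (4 / c0) ^ d' * (c0 / 4 * n * τ k) ^ d' = n ^ d' * τ k ^ d' := by
            rw [← mul_pow, ← mul_pow]; congr 1; field_simp
          rw [mul_assoc _ ((4 / c0) ^ d'), e1, mul_pow, pow_succ (τ k)]; ring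
      _ ≤ (C * w k) * C ^ (d' + 1) * (4 / c0) ^ d' *
          (Real.exp (c0 / 4 * n * τ k) * d'.factorial) * Real.exp (-(c0 * N * τ k)) := by gcongr
      _ = C ^ (d' + 1 + 1) * (d'.factorial * (4 / c0) ^ d') * (w k *
          (Real.exp (c0 / 4 * n * τ k) * Real.exp (-(c0 * N * τ k)))) := by ring
      _ ≤ _ := by gcongr
  calc _ ≤ (n : ℝ≥0∞) ^ (d - 1) * (2 *
        ∫⁻ z, F z ∂(Measure.pi fun _ : {i // p i} => ν)) := by gcongr
    _ = 2 * ((n : ℝ≥0∞) ^ (d - 1) *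
        ∫⁻ z, F z ∂(Measure.pi fun _ : {i // p i} => ν)) := by ring
    _ ≤ 2 * (ENNReal.ofReal C2 * (ENNReal.ofReal C1 * Sf τ w n)) := by
        exact mul_le_mul_right (h2.trans (mul_le_mul_right (hdb n (by positivity)) _)) _
    _ = _ := by
        rw [ENNReal.ofReal_mul (p := 2 * C2) (by positivity),
          ENNReal.ofReal_mul (p := 2) (by positivity)]
        simp only [ENNReal.ofReal_ofNat]; ring

lemma supp_upper (ν : Measure V) [IsProbabilityMeasure ν]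
    (hnull : ∀ s : AffineSubspace ℝ V, s ≠ ⊤ → ν s = 0) (hd : 1 ≤ finrank ℝ V)
    {τ w : A → ℝ} (h : Scales τ w) (hUP : UP ν τ w) :
    ∃ C : ℝ, 0 < C ∧ ∀ n : ℕ, 2 * finrank ℝ V ≤ n → ∀ T : Finset (Fin n), T.card = finrank ℝ V →
      (n : ℝ≥0∞) ^ (finrank ℝ V - 1) * Measure.pi (fun _ : Fin n => ν) {x | Supp x T} ≤
        ENNReal.ofReal C * Sf τ w n := by
  obtain ⟨C, hC, h1⟩ := supp_upper' ν hnull hd h hUP
  refine ⟨C, hC, fun n hn T hT => ?_⟩
  have hTf : Finset.univ.filter (fun i => i ∈ T) = T := by ext; simp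
  have := h1 n hn (fun i => i ∈ T) (by rw [Fintype.card_subtype, hTf, hT])
  rwa [hTf] at this

end Pool.Agent.H904Z.RP
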