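import Pool.Agent.H904Z.RP.Prob

set_option autoImplicit false

namespace Pool.Agent.H904Z.RP

open MeasureTheory Filter Topology Set Module Metric
open scoped ENNReal

variable {V : Type*} [NormedAddCommGroup V] [NormedSpace ℝ V] [FiniteDimensional ℝ V]
  [MeasurableSpace V] [BorelSpace V] {A : Type*} [Countable A]

noncomputable def Pn (ν : Measure V) (n : ℕ) (S : Finset (Fin n)) : ℝ≥0∞ :=
  Measure.pi (fun _ : Fin n => ν) {x | Supp x S}

lemma card_super (n d : ℕ) (S : Finset (Fin n)) :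
    ((Finset.univ.powersetCard d).filter (fun T : Finset (Fin n) => S ⊆ T)).card ≤
      n ^ (d - S.card) := by
  refine le_trans (Finset.card_le_card_of_injOn (t := Finset.univ.powersetCard (d - S.card))
    (fun T => T \ S) ?_ ?_) ?_
  · intro T hT
    simp only [Finset.coe_filter, Finset.mem_powersetCard, Finset.subset_univ, true_and,
      mem_ofPred_eq] at hT
    simp [Finset.mem_powersetCard, Finset.card_sdiff_of_subset hT.2, hT.1]
  · intro T hT T' hT' h
    simp only [Finset.coe_filter, mem_ofPred_eq] at hT hT'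
    rw [← Finset.sdiff_union_of_subset hT.2, ← Finset.sdiff_union_of_subset hT'.2]
    exact congrArg (· ∪ S) h
  · rw [Finset.card_powersetCard, Finset.card_univ, Fintype.card_fin]
    exact Nat.choose_le_pow _ _

lemma Pn_le_of (ν : Measure V) [IsProbabilityMeasure ν]
    (hnull : ∀ s : AffineSubspace ℝ V, s ≠ ⊤ → ν s = 0) {n : ℕ} (hn : finrank ℝ V + 1 ≤ n)
    (S : Finset (Fin n)) (hne : S.Nonempty) (hS : S.card ≤ finrank ℝ V) (a B : ℝ≥0∞)
    (hB : ∀ T : Finset (Fin n), T.card = finrank ℝ V → a * Pn ν n T ≤ B) :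
    a * Pn ν n S ≤ (n : ℝ≥0∞) ^ (finrank ℝ V - S.card) * B := by
  set 𝒯 := (Finset.univ.powersetCard (finrank ℝ V)).filter (fun T : Finset (Fin n) => S ⊆ T)
  have h1 : Pn ν n S ≤ ∑ T ∈ 𝒯, Pn ν n T := by
    refine le_trans (measure_mono_ae ?_) (measure_biUnion_finset_le 𝒯 fun T => {x | Supp x T})
    filter_upwards [ae_gp ν hnull] with x hx hs
    obtain ⟨T, h1, h2, h3⟩ := Supp.extend hx (by simpa using hn) hs hne hS
    exact mem_iUnion₂.2 ⟨T, by simp [𝒯, Finset.mem_powersetCard, h1, h2], h3⟩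
  refine (mul_le_mul_right h1 _).trans ?_
  rw [Finset.mul_sum]
  refine (Finset.sum_le_card_nsmul _ _ B fun T hT => hB T ?_).trans ?_
  · simp only [𝒯, Finset.mem_filter, Finset.mem_powersetCard] at hT
    exact hT.1.2
  · rw [nsmul_eq_mul]
    gcongr
    exact_mod_cast card_super n _ S

lemma Dn_eq (ν : Measure V) [IsProbabilityMeasure ν] (n : ℕ) (i : Fin (n + 1)) :
    Dn ν n = Measure.pi (fun _ : Fin (n + 1) => ν)
      {x | x i ∉ convexHull ℝ (range fun j => x (i.succAbove j))} := by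
  have hmp := measurePreserving_piFinSuccAbove (fun _ : Fin (n + 1) => ν) i
  rw [Dn, ← hmp.measure_preimage (meas_notconv n).nullMeasurableSet]
  rfl

lemma Dn_le_Pn (ν : Measure V) [IsProbabilityMeasure ν] (n : ℕ) (hn : 1 ≤ n) (i : Fin (n + 1)) :
    Dn ν n ≤ Pn ν (n + 1) {i} := by
  rw [Dn_eq ν n i]
  refine measure_mono fun x hx => ?_
  obtain ⟨f, u, h1, h2⟩ := geometric_hahn_banach_closed_point (convex_convexHull ℝ _)
    ((finite_range _).isCompact_convexHull ℝ).isClosed hx
  have h3 : ∀ j, f (x (i.succAbove j)) < u := fun j =>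
    h1 _ (subset_convexHull ℝ _ (mem_range_self j))
  refine ⟨f, ?_, fun s hs k => ?_⟩
  · rintro rfl
    have := h3 ⟨0, hn⟩
    simp only [ContinuousLinearMap.zero_apply] at this h2
    linarith
  · rw [Finset.mem_singleton.1 hs]
    rcases Fin.eq_self_or_eq_succAbove i k with rfl | ⟨j, rfl⟩
    · exact le_rfl
    · exact ((h3 j).trans h2).le

lemma sum_Pn_single (ν : Measure V) [IsProbabilityMeasure ν]
    (hnull : ∀ s : AffineSubspace ℝ V, s ≠ ⊤ → ν s = 0) {n : ℕ} (hn : finrank ℝ V + 1 ≤ n)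
    {j : ℕ} (hj : j < finrank ℝ V) :
    ∑ i : Fin n, Pn ν n {i} ≤ (j + 1 : ℕ) * ∑ S ∈ Finset.univ.powersetCard (j + 1), Pn ν n S := by
  have h1 : ∀ i : Fin n, Pn ν n {i} ≤
      ∑ S ∈ Finset.univ.powersetCard (j + 1), if i ∈ S then Pn ν n S else 0 := by
    intro i
    rw [← Finset.sum_filter]
    refine le_trans (measure_mono_ae ?_) (measure_biUnion_finset_le _ fun T => {x | Supp x T})
    filter_upwards [ae_gp ν hnull] with x hx hs
    obtain ⟨T, h1, h2, h3⟩ := Supp.extend hx (by simpa using hn) hs (Finset.singleton_nonempty _)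
      (by simp; omega)
    obtain ⟨S, h4, h5, h6⟩ := Finset.exists_subsuperset_card_eq h1 (n := j + 1) (by simp) (by omega)
    exact mem_iUnion₂.2 ⟨S, by simp [Finset.mem_powersetCard, h6, h4 (Finset.mem_singleton_self i)],
      h3.mono h5⟩
  refine (Finset.sum_le_sum fun i _ => h1 i).trans (le_of_eq ?_)
  rw [Finset.sum_comm, Finset.mul_sum]
  refine Finset.sum_congr rfl fun S hS => ?_
  rw [← Finset.sum_filter, Finset.sum_const, nsmul_eq_mul]
  congr 2
  rw [← (Finset.mem_powersetCard.1 hS).2]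
  congr 1; ext; simp

lemma integral_faceNum (ν : Measure V) [IsProbabilityMeasure ν]
    (hnull : ∀ s : AffineSubspace ℝ V, s ≠ ⊤ → ν s = 0) {n : ℕ} (hn : finrank ℝ V + 1 ≤ n)
    {j : ℕ} (hj : j < finrank ℝ V) :
    ∫ x, (faceNum j (convexHull ℝ (range x)) : ℝ) ∂(Measure.pi fun _ : Fin n => ν) =
      (∑ S ∈ Finset.univ.powersetCard (j + 1), Pn ν n S).toReal := by
  classical
  have h1 : (fun x : Fin n → V => (faceNum j (convexHull ℝ (range x)) : ℝ))
      =ᵐ[Measure.pi fun _ : Fin n => ν] fun x =>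
        ∑ S ∈ Finset.univ.powersetCard (j + 1), {x | Supp x S}.indicator (1 : (Fin n → V) → ℝ) x := by
    filter_upwards [ae_gp ν hnull] with x hx
    rw [faceNum_eq hx (by simpa using hn) hj, Finset.card_filter]
    push_cast
    refine Finset.sum_congr rfl fun S _ => ?_
    by_cases h : Supp x S <;> simp [h, indicator]
  rw [integral_congr_ae h1, integral_finsetSum _
    (f := fun S => {x | Supp x S}.indicator (1 : (Fin n → V) → ℝ)) fun S _ =>
    (integrable_const (1 : ℝ)).indicator (isClosed_supp S).measurableSet,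
    ENNReal.toReal_sum (f := Pn ν n) fun S _ => measure_ne_top _ _]
  refine Finset.sum_congr rfl fun S _ => ?_
  rw [integral_indicator_one (isClosed_supp S).measurableSet]
  rfl

theorem abstract_main [Nonempty A] (ν : Measure V) [IsProbabilityMeasure ν]
    (hnull : ∀ s : AffineSubspace ℝ V, s ≠ ⊤ → ν s = 0) (hd : 1 ≤ finrank ℝ V)
    {τ w : A → ℝ} (h : Scales τ w) (hUP : UP ν τ w) (hLO : LO ν τ w) :
    ∃ c C : ℝ, 0 < c ∧ 0 < C ∧ ∀ n : ℕ, 2 * finrank ℝ V ≤ n → 0 < (Sf τ w n).toReal ∧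
      (∀ j < finrank ℝ V,
        c * (n * (Sf τ w n).toReal) ≤
          ∫ x, (faceNum j (convexHull ℝ (range x)) : ℝ) ∂(Measure.pi fun _ : Fin n => ν) ∧
        ∫ x, (faceNum j (convexHull ℝ (range x)) : ℝ) ∂(Measure.pi fun _ : Fin n => ν) ≤
          C * (n * (Sf τ w n).toReal)) ∧
      c * (Sf τ w n).toReal ≤ (Dn ν n).toReal ∧ (Dn ν n).toReal ≤ C * (Sf τ w n).toReal := by
  set d := finrank ℝ V with hddef
  obtain ⟨c, hc, hlow⟩ := Dn_lower ν h hLO
  obtain ⟨C, hC, hup⟩ := supp_upper ν hnull hd h hUP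
  have hd' : (1 : ℝ) ≤ d := by exact_mod_cast hd
  have hDfin : ∀ n, Dn ν n ≠ ⊤ := fun n => measure_ne_top _ _
  have hSfin : ∀ n : ℕ, Sf τ w n ≠ ⊤ := by
    intro n htop
    have := hlow n
    rw [htop, ENNReal.mul_top (by simpa using hc), top_le_iff] at this
    exact hDfin n this
  refine ⟨c / d, C, by positivity, hC, fun n hn => ⟨ENNReal.toReal_pos (Sf_pos h _).ne' (hSfin n),
    fun j hj => ?_, ?_, ?_⟩⟩
  · rw [integral_faceNum ν hnull (by omega) hj]
    have hfin : ∑ S ∈ Finset.univ.powersetCard (j + 1), Pn ν n S ≠ ⊤ :=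
      ENNReal.sum_ne_top.2 fun S _ => measure_ne_top _ _
    constructor
    · obtain ⟨n', rfl⟩ : ∃ n', n = n' + 1 := ⟨n - 1, by omega⟩
      have h1 := sum_Pn_single ν hnull (n := n' + 1) (by omega) hj
      have h2 : ((n' + 1 : ℕ) : ℝ≥0∞) * (ENNReal.ofReal c * Sf τ w (n' + 1 : ℕ)) ≤
          ∑ i : Fin (n' + 1), Pn ν (n' + 1) {i} := by
        have := Finset.card_nsmul_le_sum Finset.univ (fun i : Fin (n' + 1) => Pn ν (n' + 1) {i})
          (ENNReal.ofReal c * Sf τ w (n' + 1 : ℕ)) fun i _ =>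
            le_trans (mul_le_mul_right (Sf_anti h (by push_cast; linarith)) _)
              ((hlow n').trans (Dn_le_Pn ν n' (by omega) i))
        simpa using this
      have h3 := ENNReal.toReal_mono (ENNReal.mul_ne_top (by simp) hfin) (h2.trans h1)
      rw [ENNReal.toReal_mul, ENNReal.toReal_mul, ENNReal.toReal_mul, ENNReal.toReal_natCast,
        ENNReal.toReal_natCast, ENNReal.toReal_ofReal hc.le] at h3
      have h4 : ((j + 1 : ℕ) : ℝ) ≤ d := by exact_mod_cast hj
      rw [div_mul_eq_mul_div, div_le_iff₀ (by positivity)]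
      have h5 := ENNReal.toReal_nonneg
        (a := ∑ S ∈ Finset.univ.powersetCard (j + 1), Pn ν (n' + 1) S)
      nlinarith
    · have hn0 : (n : ℝ≥0∞) ≠ 0 := by simp; omega
      have h1 : (n : ℝ≥0∞) ^ (d - 1) * ∑ S ∈ Finset.univ.powersetCard (j + 1), Pn ν n S ≤
          (n : ℝ≥0∞) ^ (d - 1) * (n * (ENNReal.ofReal C * Sf τ w n)) := by
        rw [Finset.mul_sum]
        refine (Finset.sum_le_card_nsmul _ _
          ((n : ℝ≥0∞) ^ (d - (j + 1)) * (ENNReal.ofReal C * Sf τ w n)) fun S hS => ?_).trans ?_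
        · have hc := (Finset.mem_powersetCard.1 hS).2
          have := Pn_le_of ν hnull (by omega) S (Finset.card_pos.1 (by omega)) (by omega) _ _
            (hup n hn)
          rwa [hc] at this
        · rw [nsmul_eq_mul, Finset.card_powersetCard, Finset.card_univ, Fintype.card_fin,
            ← mul_assoc, ← mul_assoc ((n : ℝ≥0∞) ^ (d - 1))]
          refine mul_le_mul_left ?_ _
          calc _ ≤ (n : ℝ≥0∞) ^ (j + 1) * (n : ℝ≥0∞) ^ (d - (j + 1)) := by
                gcongr; exact_mod_cast Nat.choose_le_pow _ _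
            _ = _ := by rw [← pow_add, ← pow_succ]; congr 1; omega
      have h2 := (ENNReal.mul_le_mul_iff_right (pow_ne_zero _ hn0) (by simp)).1 h1
      have h3 := ENNReal.toReal_mono (ENNReal.mul_ne_top (by simp)
        (ENNReal.mul_ne_top ENNReal.ofReal_ne_top (hSfin n))) h2
      rw [ENNReal.toReal_mul, ENNReal.toReal_mul, ENNReal.toReal_natCast,
        ENNReal.toReal_ofReal hC.le] at h3
      linarith
  · have h3 := ENNReal.toReal_mono (hDfin n) (hlow n)
    rw [ENNReal.toReal_mul, ENNReal.toReal_ofReal hc.le] at h3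
    refine le_trans ?_ h3
    gcongr
    exact div_le_self hc.le hd'
  · have h1 := Pn_le_of ν hnull (n := n + 1) (by omega) {0} (Finset.singleton_nonempty _)
      (by simpa using hd) _ _ (hup (n + 1) (by omega))
    rw [Finset.card_singleton] at h1
    have h2 := (ENNReal.mul_le_mul_iff_right (pow_ne_zero _ (by simp)) (by simp)).1 h1
    have h3 : Dn ν n ≤ ENNReal.ofReal C * Sf τ w n :=
      ((Dn_le_Pn ν n (by omega) 0).trans h2).trans
        (mul_le_mul_right (Sf_anti h (by push_cast; linarith)) _)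
    have h4 := ENNReal.toReal_mono (ENNReal.mul_ne_top ENNReal.ofReal_ne_top (hSfin n)) h3
    rwa [ENNReal.toReal_mul, ENNReal.toReal_ofReal hC.le] at h4

end Pool.Agent.H904Z.RP
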