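import Pool.Agent.H904Z.RP.Prob2
import Pool.Agent.H904Z.RP.Lower

set_option autoImplicit false

namespace Pool.Agent.H904Z.RP

open MeasureTheory Filter Topology Set Module Metric
open scoped ENNReal RealInnerProductSpace

section Factor
variable {E : Type*} [NormedAddCommGroup E] [InnerProductSpace ℝ E]
  [FiniteDimensional ℝ E] [MeasurableSpace E] [BorelSpace E] (μ : Measure E)
  [μ.IsAddHaarMeasure]

lemma body_vol_pos {L : Set E} (hL : IsBody L) : 0 < μ.real L := by
  obtain ⟨x0, r, R, hr0, hR0, hr, hR⟩ := body_balls hL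
  exact ENNReal.toReal_pos
    ((measure_closedBall_pos μ _ hr0).trans_le (measure_mono hr)).ne' hL.1.measure_lt_top.ne

lemma cap_vol_pos (he : 1 ≤ finrank ℝ E) {L : Set E} (hL : IsBody L) {u p : E}
    (hp : IsApex L u p) {H : ℝ} (hH : 0 < H) : 0 < μ.real (cap L u p H) := by
  have : Nontrivial E := Module.nontrivial_of_finrank_pos (R := ℝ) he
  obtain ⟨x0, r, R, hr0, hR0, hr, hR⟩ := body_balls hL
  obtain ⟨u', p', h, h3, h4, h5, h6, h7⟩ := cap_normalize hL.1 hR0 hR hp hH
  rw [h7]
  exact ENNReal.toReal_pos ((measure_closedBall_pos μ _ (by positivity)).trans_le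
    (measure_mono (cap_ball hL.2.1 hR0 hr hR h3 h4.1 h5 h6))).ne'
    (cap_compact hL.1 _ _ _).measure_lt_top.ne

end Factor

lemma exists_scale (e : ℕ) {a V : ℝ} (ha : 0 < a) (hV : a ≤ V) :
    ∃ k, tau e (k + 1) * V ≤ a ∧ a ≤ tau e k * V := by
  have hV0 : 0 < V := ha.trans_le hV
  obtain ⟨k, h1, h2⟩ := exists_nat_pow_near_of_lt_one (x := a / V) (y := (2⁻¹ : ℝ) ^ (e + 1))
    (by positivity) ((div_le_one hV0).2 hV) (by positivity)
    (pow_lt_one₀ (by norm_num) (by norm_num) (by omega))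
  rw [← pow_mul, mul_comm] at h1 h2
  exact ⟨k, ((lt_div_iff₀ hV0).1 h1).le, (div_le_iff₀ hV0).1 h2⟩

lemma tau_add (e k l : ℕ) : tau e (k + l) = tau e k * tau e l := by
  unfold tau; rw [add_mul, pow_add]

lemma tau_le (e k : ℕ) : tau e k ≤ (2⁻¹ : ℝ) ^ k :=
  pow_le_pow_of_le_one (by norm_num) (by norm_num) (by nlinarith)

lemma tau_le_one (e k : ℕ) : tau e k ≤ 1 := pow_le_one₀ (by norm_num) (by norm_num)

noncomputable def tauP {m : ℕ} (d : Fin m → ℕ) (k : Fin m → ℕ) : ℝ := ∏ i, tau (d i) (k i)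

noncomputable def wP {m : ℕ} (k : Fin m → ℕ) : ℝ := ∏ i, (4⁻¹ : ℝ) ^ (k i)

lemma scales {m : ℕ} (hm : 1 ≤ m) (d : Fin m → ℕ) : Scales (tauP d) wP where
  τ0 k := Finset.prod_pos fun i _ => tau_pos _ _
  τ1 k := Finset.prod_le_one (fun i _ => (tau_pos _ _).le) fun i _ => tau_le_one _ _
  w0 k := Finset.prod_pos fun i _ => by positivity
  shift M := by
    refine ⟨fun k i => k i + M, ∏ _i : Fin m, (4⁻¹ : ℝ) ^ M,
      Finset.prod_pos fun i _ => by positivity, fun a b h => ?_, fun k => ⟨?_, ?_⟩⟩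
    · ext i; simpa using congrFun h i
    · simp only [tauP, tau_add, Finset.prod_mul_distrib]
      rw [mul_comm]
      have h0 : 0 ≤ ∏ i, tau (d i) (k i) := Finset.prod_nonneg fun i _ => (tau_pos _ _).le
      gcongr
      rw [← Finset.mul_prod_erase _ _ (Finset.mem_univ (⟨0, hm⟩ : Fin m))]
      refine le_trans (mul_le_of_le_one_right (tau_pos _ _).le ?_) (tau_le _ _)
      exact Finset.prod_le_one (fun i _ => (tau_pos _ _).le) fun i _ => tau_le_one _ _
    · simp only [wP, pow_add, Finset.prod_mul_distrib]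
      rw [mul_comm]

variable {m : ℕ} {d : Fin m → ℕ}

abbrev Ed (d : Fin m → ℕ) (i : Fin m) : Type := EuclideanSpace ℝ (Fin (d i))

lemma vol_pi (q : ∀ i, Set (Ed d i)) :
    (volume : Measure (∀ i, Ed d i)).real (Set.pi univ q) = ∏ i, volume.real (q i) := by
  rw [Measure.real, volume_pi_pi, ENNReal.toReal_prod]; rfl

lemma cond_real {K : ∀ i, Set (Ed d i)} (hK : ∀ i, IsBody (K i)) (s : Set (∀ i, Ed d i)) :
    (ProbabilityTheory.cond volume (Set.pi univ K)).real s =
      (∏ i, volume.real (K i))⁻¹ * volume.real (Set.pi univ K ∩ s) := by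
  rw [Measure.real, ProbabilityTheory.cond_apply
    (MeasurableSet.univ_pi fun i => (hK i).1.measurableSet), ENNReal.toReal_mul,
    ENNReal.toReal_inv, ← vol_pi]
  rfl

lemma pi_body {K : ∀ i, Set (Ed d i)} (hK : ∀ i, IsBody (K i)) : IsBody (Set.pi univ K) := by
  refine ⟨isCompact_univ_pi fun i => (hK i).1, convex_pi fun i _ => (hK i).2.1, ?_⟩
  rw [interior_pi_set finite_univ]
  exact univ_pi_nonempty_iff.2 fun i => (hK i).2.2

lemma up_prod (hm : 1 ≤ m) (hd : ∀ i, 1 ≤ d i) {K : ∀ i, Set (Ed d i)} (hK : ∀ i, IsBody (K i)) :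
    UP (ProbabilityTheory.cond volume (Set.pi univ K)) (tauP d) wP := by
  classical
  have hrk : ∀ i, finrank ℝ (Ed d i) = d i := fun i => by simp [Ed]
  have he : ∀ i, 1 ≤ finrank ℝ (Ed d i) := fun i => by rw [hrk]; exact hd i
  choose C hC 𝒬 hQ hcard hcov using fun i => cover volume (he i) (hK i)
  simp only [hrk] at hQ hcard hcov
  have hV : ∀ i, 0 < volume.real (K i) := fun i => body_vol_pos volume (hK i)
  have hVK : 0 < ∏ i, volume.real (K i) := Finset.prod_pos fun i _ => hV i
  have hCP : 0 < ∏ i, C i := Finset.prod_pos fun i _ => hC i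
  have hm' : (1 : ℝ) ≤ m := by exact_mod_cast hm
  have hb := pi_body hK
  refine ⟨∏ i, ((m : ℝ)⁻¹ ^ d i * tau (d i) 1), (∏ i, C i) * (1 + (∏ i, volume.real (K i))⁻¹),
    Finset.prod_pos fun i _ => mul_pos (by positivity) (tau_pos _ _), by positivity,
    fun k => (Fintype.piFinset fun i => 𝒬 i (k i)).image (Set.pi univ), ?_, ?_,
    interior (Set.pi univ K), ?_, ?_⟩
  · intro k Q hQk
    obtain ⟨q, hq, rfl⟩ := Finset.mem_image.1 hQk
    have hq' := Fintype.mem_piFinset.1 hq
    refine ⟨MeasurableSet.univ_pi fun i => (hQ i _ _ (hq' i)).1.measurableSet, ?_⟩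
    rw [cond_real hK]
    have h1 := measureReal_mono (μ := volume) (inter_subset_right (s := Set.pi univ K)
      (t := Set.pi univ q)) (isCompact_univ_pi fun i => (hQ i _ _ (hq' i)).1).measure_lt_top.ne
    rw [vol_pi] at h1
    have h2 : ∏ i, volume.real (q i) ≤ (∏ i, C i) * tauP d k := by
      rw [tauP, ← Finset.prod_mul_distrib]
      exact Finset.prod_le_prod (fun i _ => measureReal_nonneg) fun i _ => (hQ i _ _ (hq' i)).2
    have h3 := (scales hm d).τ0 k
    calc _ ≤ (∏ i, volume.real (K i))⁻¹ * ((∏ i, C i) * tauP d k) := by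
          gcongr; exact h1.trans h2
      _ ≤ (1 + (∏ i, volume.real (K i))⁻¹) * ((∏ i, C i) * tauP d k) := by gcongr; linarith
      _ = _ := by ring
  · intro k
    have h1 : ((((Fintype.piFinset fun i => 𝒬 i (k i)).image (Set.pi univ)).card : ℕ) : ℝ) ≤
        ∏ i, ((𝒬 i (k i)).card : ℝ) := by
      rw [← Nat.cast_prod, ← Fintype.card_piFinset]
      exact_mod_cast Finset.card_image_le
    have h3 := (scales hm d).τ0 k
    have h4 := (scales hm d).w0 k
    calc _ ≤ (∏ i, ((𝒬 i (k i)).card : ℝ)) * tauP d k := by gcongr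
      _ ≤ (∏ i, C i) * wP k := by
          rw [tauP, wP, ← Finset.prod_mul_distrib, ← Finset.prod_mul_distrib]
          exact Finset.prod_le_prod (fun i _ => mul_nonneg (by positivity) (tau_pos _ _).le)
            fun i _ => hcard i _
      _ ≤ _ := by
          gcongr
          exact le_mul_of_one_le_right hCP.le (le_add_of_nonneg_right (by positivity))
  · have h1 : ∀ᵐ y ∂(ProbabilityTheory.cond volume (Set.pi univ K)), y ∈ Set.pi univ K :=
      ProbabilityTheory.ae_cond_mem hb.1.measurableSet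
    have h2 : ∀ᵐ y ∂(ProbabilityTheory.cond volume (Set.pi univ K)),
        y ∉ frontier (Set.pi univ K) :=
      ProbabilityTheory.cond_absolutelyContinuous.ae_le
        (measure_eq_zero_iff_ae_notMem.1 (hb.2.1.addHaar_frontier volume))
    filter_upwards [h1, h2] with y h3 h4
    by_contra h5
    exact h4 ⟨subset_closure h3, h5⟩
  · rintro l c hl ⟨y0, hy0, hc⟩
    let u : ∀ i, Ed d i := fun i => (InnerProductSpace.toDual ℝ (Ed d i)).symm
      (l.comp (ContinuousLinearMap.single ℝ (Ed d) i))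
    have hlu : ∀ y, l y = ∑ i, ⟪u i, y i⟫ := by
      intro y
      conv_lhs => rw [← Finset.univ_sum_single y, map_sum]
      simp [u]
    choose p hp using fun i => exists_apex (hK i).1 ((hK i).2.2.mono interior_subset) (u i)
    have hdiff : ∀ y, l p - l y = ∑ i, ⟪u i, p i - y i⟫ := by
      intro y; rw [← map_sub, hlu]; rfl
    have hle : ∀ y ∈ Set.pi univ K, l y ≤ l p := fun y hy => by
      rw [← sub_nonneg, hdiff]
      exact Finset.sum_nonneg fun i _ => (hp i).2 _ (hy i (mem_univ _))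
    have hH : 0 < l p - c := by
      obtain ⟨v, hv⟩ : ∃ v, 0 < l v := by
        obtain ⟨v, hv⟩ : ∃ v, l v ≠ 0 := by
          by_contra h; push Not at h; exact hl (ContinuousLinearMap.ext h)
        rcases lt_or_gt_of_ne hv with h | h
        · exact ⟨-v, by simpa using h⟩
        · exact ⟨v, h⟩
      have ht : Tendsto (fun s : ℝ => y0 + s • v) (𝓝[>] 0) (𝓝 y0) := by
        have := (Continuous.tendsto (f := fun s : ℝ => y0 + s • v) (by fun_prop) 0).mono_left
          (nhdsWithin_le_nhds (s := Ioi 0))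
        simpa using this
      obtain ⟨s, h1, h2⟩ := ((ht.eventually (mem_interior_iff_mem_nhds.1 hy0)).and
        self_mem_nhdsWithin).exists
      have h3 := hle _ h1
      have h4 : 0 < s := h2
      simp only [map_add, map_smul, smul_eq_mul] at h3
      nlinarith [mul_pos h4 hv]
    set H := l p - c with hHdef
    choose k hk1 hk2 using fun i => exists_scale (d i) (cap_vol_pos volume (he i) (hK i) (hp i) hH)
      (measureReal_mono (fun y hy => hy.1) (hK i).1.measure_lt_top.ne)
    choose q hq1 hq2 using fun i => hcov i (k i) (u i) (p i) H (hp i) hH (hk1 i) (hk2 i)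
    refine ⟨k, Set.pi univ q, Finset.mem_image.2 ⟨q, Fintype.mem_piFinset.2 hq1, rfl⟩, ?_, ?_⟩
    · intro y hy hcy i _
      have hyK := interior_subset hy
      refine hq2 i ⟨hyK i (mem_univ _), ?_⟩
      refine le_trans (Finset.single_le_sum (f := fun i => ⟪u i, p i - y i⟫)
        (fun i _ => (hp i).2 _ (hyK i (mem_univ _))) (Finset.mem_univ i)) ?_
      rw [← hdiff]; linarith
    · rw [cond_real hK, le_inv_mul_iff₀ hVK]
      have h1 : (Set.pi univ fun i => cap (K i) (u i) (p i) ((m : ℝ)⁻¹ * H)) ⊆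
          Set.pi univ K ∩ {y | c ≤ l y} := by
        intro y hy
        refine ⟨fun i _ => (hy i (mem_univ _)).1, ?_⟩
        have h2 := Finset.sum_le_card_nsmul Finset.univ (fun i => ⟪u i, p i - y i⟫) _
          fun i _ => (hy i (mem_univ _)).2
        rw [← hdiff, Finset.card_univ, Fintype.card_fin, nsmul_eq_mul,
          mul_inv_cancel_left₀ (by positivity)] at h2
        show c ≤ l y
        linarith
      refine le_trans ?_ (measureReal_mono h1
        (ne_top_of_le_ne_top hb.1.measure_lt_top.ne (measure_mono inter_subset_left)))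
      rw [vol_pi, tauP, ← Finset.prod_mul_distrib, ← Finset.prod_mul_distrib]
      refine Finset.prod_le_prod (fun i _ => ?_) fun i _ => ?_
      · have := hV i; have := tau_pos (d i) 1; have := tau_pos (d i) (k i); positivity
      have h2 := cap_scale volume (hK i).1 (hK i).2.1 (u i) (p i) (hp i).1 ((m : ℝ)⁻¹ * H) m hm'
      rw [mul_inv_cancel_left₀ (by positivity), hrk] at h2
      have h3 := (hk1 i).trans h2
      rw [tau_add] at h3
      calc _ = (m : ℝ)⁻¹ ^ d i * (tau (d i) (k i) * tau (d i) 1 * volume.real (K i)) := by ring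
        _ ≤ (m : ℝ)⁻¹ ^ d i * ((m : ℝ) ^ d i *
            volume.real (cap (K i) (u i) (p i) ((m : ℝ)⁻¹ * H))) := by gcongr
        _ = _ := by rw [inv_pow, inv_mul_cancel_left₀ (by positivity)]

lemma lo_prod (hm : 1 ≤ m) (hd : ∀ i, 1 ≤ d i) {K : ∀ i, Set (Ed d i)} (hK : ∀ i, IsBody (K i))
    (hH : ∀ i, Hcond (K i)) :
    LO (ProbabilityTheory.cond volume (Set.pi univ K)) (tauP d) wP := by
  classical
  have hrk : ∀ i, finrank ℝ (Ed d i) = d i := fun i => by simp [Ed]
  have he : ∀ i, 1 ≤ finrank ℝ (Ed d i) := fun i => by rw [hrk]; exact hd i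
  choose c C hc hC G hGm hGd hGK hGv hG using fun i => lower volume (he i) (hK i) (hH i)
  simp only [hrk] at hG
  have hV : ∀ i, 0 < volume.real (K i) := fun i => body_vol_pos volume (hK i)
  have hVK : 0 < ∏ i, volume.real (K i) := Finset.prod_pos fun i _ => hV i
  have hm' : (1 : ℝ) ≤ m := by exact_mod_cast hm
  refine ⟨(∏ i, volume.real (K i))⁻¹ * ∏ i, c i, (∏ i, volume.real (K i))⁻¹ * ∏ i, (m ^ d i * C i),
    mul_pos (by positivity) (Finset.prod_pos fun i _ => hc i),
    mul_pos (by positivity) (Finset.prod_pos fun i _ => mul_pos (by positivity) (hC i)),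
    fun k => Set.pi univ fun i => G i (k i), fun k => MeasurableSet.univ_pi fun i => hGm i _,
    ?_, ?_, ?_⟩
  · intro k k' hkk
    obtain ⟨i, hi⟩ := Function.ne_iff.1 hkk
    exact Set.disjoint_left.2 fun y h1 h2 =>
      Set.disjoint_left.1 (hGd i hi) (h1 i (mem_univ _)) (h2 i (mem_univ _))
  · intro k
    rw [cond_real hK, inter_eq_self_of_subset_right (pi_mono fun i _ => hGK i _), vol_pi,
      mul_assoc, wP, ← Finset.prod_mul_distrib]
    gcongr with i
    · intro i _; have := hc i; positivity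
    · exact hGv i _
  · intro k y hy
    choose u p h hu hp hh hy' hv using fun i => hG i (k i) (y i) (hy i (mem_univ _))
    let l : (∀ i, Ed d i) →L[ℝ] ℝ :=
      ∑ i, (h i)⁻¹ • (innerSL ℝ (u i)).comp (ContinuousLinearMap.proj i)
    have hl : ∀ v, l v = ∑ i, (h i)⁻¹ * ⟪u i, v i⟫ := by intro v; simp [l]
    have hdiff : ∀ v, l p - l v = ∑ i, (h i)⁻¹ * ⟪u i, p i - v i⟫ := by
      intro v; rw [← map_sub, hl]; rfl
    refine ⟨l, ?_⟩
    rw [cond_real hK, mul_assoc]
    gcongr
    have h1 : Set.pi univ K ∩ {v | l y ≤ l v} ⊆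
        Set.pi univ fun i => cap (K i) (u i) (p i) (m * h i) := by
      rintro v ⟨hvK, hv'⟩ i _
      refine ⟨hvK i (mem_univ _), ?_⟩
      have h2 := Finset.single_le_sum (f := fun i => (h i)⁻¹ * ⟪u i, p i - v i⟫)
        (fun i _ => mul_nonneg (inv_nonneg.2 (hh i).le) ((hp i).2 _ (hvK i (mem_univ _))))
        (Finset.mem_univ i)
      have h3 := Finset.sum_le_card_nsmul Finset.univ (fun i => (h i)⁻¹ * ⟪u i, p i - y i⟫) 1
        fun i _ => by rw [inv_mul_le_iff₀ (hh i), mul_one]; exact (hy' i).2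
      rw [← hdiff] at h2 h3
      simp only [Finset.card_univ, Fintype.card_fin, nsmul_eq_mul, mul_one] at h3
      have h4 : l y ≤ l v := hv'
      rw [mul_comm, ← inv_mul_le_iff₀ (hh i)]
      linarith
    refine (measureReal_mono h1
      (isCompact_univ_pi fun i => cap_compact (hK i).1 _ _ _).measure_lt_top.ne).trans ?_
    rw [vol_pi, tauP, ← Finset.prod_mul_distrib]
    refine Finset.prod_le_prod (fun i _ => measureReal_nonneg) fun i _ => ?_
    have h2 := cap_scale volume (hK i).1 (hK i).2.1 (u i) (p i) (hp i).1 (h i) m hm'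
    rw [hrk] at h2
    rw [mul_assoc]
    exact h2.trans (by gcongr; exact hv i)

end Pool.Agent.H904Z.RP
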